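import Pool.Agent.Lib.BU59.Blue

/-! Size of the susceptibility. -/

namespace Pool.Agent.Lib.BU59

open Pool.Agent.Lib.BU93 ENNReal

namespace CHI

variable {V : Type}

theorem wt_sc (t : ℝ≥0∞) (π : V → ℝ≥0∞) (l : List V) : wt (sc t π) l = t ^ l.length * wt π l := by
  induction l with
  | nil => simp [wt]
  | cons e l ih =>
    simp only [wt, List.map_cons, List.prod_cons, List.length_cons, sc] at ih ⊢
    rw [ih]; ring

theorem chi_eq [AddCommGroup V] (t : ℝ≥0∞) (π : V → ℝ≥0∞) :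
    χ (sc t π) = ∑' m : ℕ, t ^ m * Ex π fun l => I (SA l ∧ l.length = m) := by
  simp only [← Ex_cmul]
  rw [← Ex_tsum]
  unfold χ Vv Ex
  refine tsum_congr fun l => ?_
  have h : ∑' m : ℕ, t ^ m * I (SA l ∧ l.length = m) = t ^ l.length * I (SA l) := by
    rw [← tsum_I l.length fun m => t ^ m * I (SA l)]
    exact tsum_congr fun m => by rw [I_and]; ring
  simp only [h, wt_sc, ok_empty]
  ring

end CHI

theorem st_CHI (hT : St_TT) : St_CHI := by
  intro V _ π B h k
  obtain ⟨-, -, -, -, -, h6⟩ := hT k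
  rw [CHI.chi_eq]
  constructor
  · calc (2 : ℝ≥0∞) ^ k ≤ 2 ^ (k + 1) := pow_le_pow_right₀ one_le_two (Nat.le_succ k)
      _ = 1 * ∑' n : ℕ, tt k ^ n * 1 := by simp only [one_mul, mul_one, h6]
      _ ≤ _ := mul_le_mul' one_le_two
          (ENNReal.tsum_le_tsum fun m => mul_le_mul' le_rfl (h.a1 m))
  · rw [← h6, mul_comm, ← ENNReal.tsum_mul_right]
    exact ENNReal.tsum_le_tsum fun m => mul_le_mul' le_rfl (h.aB m)

end Pool.Agent.Lib.BU59
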