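import Pool.Agent.Lib.BU59.B_WL
import Pool.Agent.Lib.BU93.Bridge

/-! The diffusive bound is impossible in at most four dimensions. -/

namespace Pool.Agent.Lib.BU59

open Pool.Agent.Lib.BU93 ENNReal Filter Topology Pool.Agent.Lib.MP_5e6e69_pr

namespace END

section General

variable {V : Type} [AddCommGroup V]

open Classical in
/-- step weights of a model -/
noncomputable def pw (M : Model V) (e : V) : ℝ≥0∞ := if e ∈ M.S then ENNReal.ofReal M.z else 0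

theorem wt_pw (M : Model V) (l : List V) :
    wt (pw M) l = I (∀ e ∈ l, e ∈ M.S) * ENNReal.ofReal M.z ^ l.length := by
  induction l with
  | nil => simp [wt, I_pos]
  | cons e l ih =>
    simp only [wt, List.map_cons, List.prod_cons, List.length_cons, List.forall_mem_cons] at ih ⊢
    rw [ih, I_and]
    by_cases h : e ∈ M.S
    · rw [pw, if_pos h, I_pos h]; ring
    · rw [pw, if_neg h, I_neg h]; simp

theorem ofReal_ind (P : Prop) : ENNReal.ofReal (ind P) = I P := by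
  by_cases h : P
  · rw [ind_pos h, I_pos h, ENNReal.ofReal_one]
  · rw [ind_neg h, I_neg h, ENNReal.ofReal_zero]

theorem Ex_pw (M : Model V) (n : ℕ) (P : List V → Prop) :
    Ex (pw M) (fun l => I (P l ∧ l.length = n)) = ENNReal.ofReal (M.E n fun l => ind (P l)) := by
  rw [M.E_eq, ENNReal.ofReal_mul (pow_nonneg M.z0 n), ENNReal.ofReal_pow M.z0,
    ENNReal.ofReal_sum_of_nonneg fun l _ => ind_nonneg _, Finset.mul_sum, Ex,
    tsum_eq_sum (s := M.Ls n)]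
  · refine Finset.sum_congr rfl fun l hl => ?_
    obtain ⟨h1, h2⟩ := (M.mem_Ls n l).1 hl
    rw [wt_pw, I_pos h2, one_mul, h1, ofReal_ind, I_congr (Q := P l) (by simp)]
  · intro l hl
    rw [M.mem_Ls] at hl
    by_cases h1 : l.length = n
    · rw [wt_pw, I_neg fun e => hl ⟨h1, e⟩]; simp
    · rw [I_neg fun e => h1 e.2, mul_zero]

theorem ker_pw (M : Model V) (v : V) :
    ker (pw M) (fun l => I (SA l)) v = ∑' n, ENNReal.ofReal (M.GG n v) := by
  simp only [Model.GG, ← Ex_pw, ← Ex_tsum, ker]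
  refine Ex_congr fun l => ?_
  rw [← I_and, ← tsum_I l.length fun _ => I (SA l ∧ l.sum = v)]
  exact tsum_congr fun n => by rw [← I_and]; exact I_congr and_comm

end General

variable {d : ℕ}

theorem sub_box (s : Finset (Fin d → ℤ)) : ∃ R, s ⊆ box d R := by
  refine ⟨s.sup fun v => Finset.univ.sup fun i => (v i).natAbs, fun v hv => ?_⟩
  simp only [box, Fintype.mem_piFinset, Finset.mem_Icc]
  intro i
  have h1 := Finset.le_sup (f := fun v : Fin d → ℤ => Finset.univ.sup fun i => (v i).natAbs) hv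
  have h2 := Finset.le_sup (f := fun i => (v i).natAbs) (Finset.mem_univ i)
  beta_reduce at h1 h2
  omega

theorem crit (hd : 1 ≤ d) {μ : ℝ} (h : 0 ≤ μ)
    (hμ : Tendsto (fun n : ℕ => cnt d n ^ (1 / (n : ℝ))) atTop (𝓝 μ)) {B : ℝ}
    (hB : ∀ N R, ∑ v ∈ box d R, (∑ n ∈ Finset.range N, (nn d μ h).GG n v) ^ 2 ≤ B) :
    Crit (pw (nn d μ h)) (ENNReal.ofReal B) := by
  have hb := bub hd h hμ hB
  have h1 : 1 ≤ ENNReal.ofReal B := ENNReal.one_le_ofReal.2 hb.one_le_B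
  refine ⟨fun e => ?_, h1, ENNReal.ofReal_ne_top, fun m => ?_, fun m => ?_, ?_⟩
  · unfold pw
    have : -e ∈ (nn d μ h).S ↔ e ∈ (nn d μ h).S :=
      ⟨fun he => by simpa using (nn d μ h).symm _ he, (nn d μ h).symm e⟩
    by_cases he : e ∈ (nn d μ h).S
    · rw [if_pos he, if_pos (this.2 he)]
    · rw [if_neg he, if_neg fun h0 => he (this.1 h0)]
  · rw [Ex_pw]; exact ENNReal.one_le_ofReal.2 (hb.one_le m)
  · rw [Ex_pw]; exact ENNReal.ofReal_le_ofReal (hb.aa_le m)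
  · refine le_trans ?_ (le_mul_of_one_le_right' h1)
    rw [ENNReal.tsum_eq_iSup_sum]
    refine iSup_le fun s => ?_
    obtain ⟨R, hR⟩ := sub_box s
    refine (Finset.sum_le_sum_of_subset hR).trans ?_
    simp only [ker_pw, ← pow_two]
    refine le_of_tendsto' (tendsto_finsetSum (box d R) fun v _ =>
      ((ENNReal.continuous_pow 2).tendsto _).comp
        (ENNReal.tendsto_nat_tsum fun n => ENNReal.ofReal ((nn d μ h).GG n v))) fun N => ?_
    refine le_trans (le_of_eq ?_) (ENNReal.ofReal_le_ofReal (hB N R))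
    rw [ENNReal.ofReal_sum_of_nonneg fun _ _ => sq_nonneg _]
    refine Finset.sum_congr rfl fun v _ => ?_
    rw [ENNReal.ofReal_pow (Finset.sum_nonneg fun n _ => Model.GG_nonneg _ n v),
      ENNReal.ofReal_sum_of_nonneg fun n _ => Model.GG_nonneg _ n v]
    rfl

theorem L2_box (hd4 : d ≤ 4) (R : ℕ) :
    L2 (fun v : Fin d → ℤ => I (v ∈ box d R)) (((2 * R + 1) ^ 2 : ℕ) : ℝ≥0∞) := by
  unfold L2
  beta_reduce
  rw [tsum_eq_sum (s := box d R) fun v hv => by rw [I_neg hv, mul_zero],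
    Finset.sum_congr (g := fun _ => 1) rfl fun v hv => by rw [I_pos hv, mul_one],
    Finset.sum_const, card_box,
    nsmul_eq_mul, mul_one, ← Nat.cast_mul, ← pow_add]
  exact Nat.cast_le.2 (Nat.pow_le_pow_right (by omega) hd4)

theorem Ex_sum {V ι : Type} {π : V → ℝ≥0∞} [Fintype ι] (f : ι → List V → ℝ≥0∞) :
    Ex π (fun l => ∑ i, f i l) = ∑ i, Ex π (f i) := by
  have := Ex_tsum (π := π) f
  simpa only [tsum_fintype] using this

theorem cheb (hd4 : d ≤ 4) {π π' : (Fin d → ℤ) → ℝ≥0∞} {B ε : ℝ≥0∞} (hc : Crit π B)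
    (hπ : ∀ e, π' e ≤ π e) (hχ : χ π' ≠ ⊤) {n : ℕ}
    (hn : L2 (ker π fun l => I (SA l ∧ n ≤ l.length)) ε) (R : ℕ) :
    (R : ℝ≥0∞) ^ 2 * χ π' ≤ (R : ℝ≥0∞) ^ 2 * (n * B + ε * ((2 * R + 1) ^ 2 : ℕ)) +
      χ π' * ∑ i, ξ π' (coord i) := by
  have h1 : Ex π' (fun l => I (SA l ∧ l.length < n) * 1) ≤ n * B :=
    (Ex_wt hπ _).trans (WL.lt_le (u := fun _ => 1) n fun i _ => by simpa using hc.aB i)
  have h2 : Ex π' (fun l => I (SA l ∧ n ≤ l.length) * I (l.sum ∈ box d R)) ≤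
      ε * ((2 * R + 1) ^ 2 : ℕ) := (Ex_wt hπ _).trans (Ex_pair hn (L2_box hd4 R))
  refine le_trans ?_ (add_le_add (mul_le_mul' le_rfl (add_le_add h1 h2)) le_rfl)
  simp only [Finset.mul_sum, χ_ξ hχ]
  unfold χ Vv
  rw [← Ex_sum, ← Ex_add, ← Ex_cmul, ← Ex_cmul, ← Ex_add]
  refine Ex_mono fun l => ?_
  rw [mul_one, mul_comm]
  refine I_mul_le fun e => ?_
  have hs := ok_empty.1 e
  by_cases a1 : l.length < n
  · rw [I_pos (P := SA l ∧ l.length < n) ⟨hs, a1⟩]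
    exact le_add_right (le_mul_of_one_le_right' (by simp))
  by_cases a2 : ∀ i, |coord i l.sum| ≤ R
  · rw [I_pos (P := SA l ∧ n ≤ l.length) ⟨hs, not_lt.1 a1⟩, I_pos (mem_box a2)]
    exact le_add_right (le_mul_of_one_le_right' (by simp))
  · push Not at a2
    obtain ⟨i, hi⟩ := a2
    refine le_add_left (le_trans ?_ (Finset.single_le_sum
      (f := fun i => I (Ok ∅ l) * sq (coord i) 0 l.sum) (fun _ _ => zero_le) (Finset.mem_univ i)))
    rw [I_pos e, one_mul, sq, zero_add, ← sq_abs, ← ENNReal.ofReal_natCast,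
      ← ENNReal.ofReal_pow (Nat.cast_nonneg R)]
    exact ENNReal.ofReal_le_ofReal (pow_le_pow_left₀ (Nat.cast_nonneg R) hi.le 2)

theorem final {x H B : NNReal} {c n m : ℕ} (hc : 1 ≤ c) (hH : (2 * H : ℝ) ≤ c)
    (hx : 2 ^ (2 * m) ≤ 2 * x)
    (h : ((c * 2 ^ m : ℕ) : NNReal) ^ 2 * x ≤ ((c * 2 ^ m : ℕ) : NNReal) ^ 2 *
      (n * B + (72 * (c : NNReal) ^ 2)⁻¹ * ((2 * (c * 2 ^ m) + 1) ^ 2 : ℕ)) +
        x * (H * 2 ^ (2 * m))) :
    (2 : ℝ) ^ (2 * m) ≤ 8 * n * B := by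
  rw [← NNReal.coe_le_coe] at h hx
  push_cast at h hx
  have hc1 : (1 : ℝ) ≤ c := by exact_mod_cast hc
  have hy : (1 : ℝ) ≤ 2 ^ m := one_le_pow₀ (by norm_num)
  rw [pow_mul'] at h hx ⊢
  set y : ℝ := 2 ^ m with hyd
  have hx0 : (0 : ℝ) ≤ x := x.2
  have hH0 : (0 : ℝ) ≤ H := H.2
  have hp : 0 < ((c : ℝ) * y) ^ 2 := by positivity
  have h1 : (x : ℝ) * (H * y ^ 2) ≤ (c * y) ^ 2 * (x / 2) := by
    have : (2 * H : ℝ) ≤ c ^ 2 := by nlinarith
    have := mul_le_mul_of_nonneg_left this (show 0 ≤ (x : ℝ) * y ^ 2 by positivity)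
    nlinarith
  have h2 : (72 * (c : ℝ) ^ 2)⁻¹ * (2 * (c * y) + 1) ^ 2 ≤ y ^ 2 / 8 := by
    rw [inv_mul_le_iff₀ (by positivity)]
    have : (1 : ℝ) ≤ c * y := by nlinarith
    nlinarith
  have h3 : ((c : ℝ) * y) ^ 2 * (x / 2) ≤ (c * y) ^ 2 * (n * B + y ^ 2 / 8) := by
    have := mul_le_mul_of_nonneg_left h2 hp.le
    nlinarith
  have h4 := le_of_mul_le_mul_left h3 hp
  linarith

end END

open END in
theorem not_bdd4 (hT : St_TT) (hC : St_CHI) (hL : St_TAIL) (hM : St_MAIN) {d : ℕ} (hd : 1 ≤ d)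
    (hd4 : d ≤ 4) {μ : ℝ} (h : 0 ≤ μ)
    (hμ : Tendsto (fun n : ℕ => cnt d n ^ (1 / (n : ℝ))) atTop (𝓝 μ)) {B : ℝ}
    (hB : ∀ N R, ∑ v ∈ box d R, (∑ n ∈ Finset.range N, (nn d μ h).GG n v) ^ 2 ≤ B) : False := by
  have hc := crit hd h hμ hB
  set π := pw (nn d μ h) with hπ
  generalize ENNReal.ofReal B = B' at hc
  choose H hH1 hH2 using fun i : Fin d => hM _ π B' (coord i) hc fun e he =>
    coord_le h i e (by by_contra h0; exact he (by rw [hπ, pw, if_neg h0]))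
  have hH3 : ∑ i, H i ≠ ⊤ := ENNReal.sum_ne_top.2 fun i _ => hH1 i
  obtain ⟨c, hc1⟩ := exists_nat_ge (2 * (∑ i, H i).toReal + 1)
  have hc2 : 1 ≤ c := by
    have : (1 : ℝ) ≤ c := by linarith [ENNReal.toReal_nonneg (a := ∑ i, H i)]
    exact_mod_cast this
  have hc3 : (72 * (c : NNReal) ^ 2)⁻¹ ≠ 0 := by positivity
  obtain ⟨n, hn⟩ := (hL _ π B' ((72 * (c : NNReal) ^ 2)⁻¹ : NNReal) hc
    (ENNReal.coe_ne_zero.2 hc3)).1
  obtain ⟨m, hm⟩ := pow_unbounded_of_one_lt (8 * n * B'.toReal) (show (1 : ℝ) < 2 by norm_num)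
  obtain ⟨x1, x2⟩ := hC _ π B' hc (2 * m)
  have hBt := hc.Bt
  have hχ : χ (sc (tt (2 * m)) π) ≠ ⊤ := ne_top_of_le_ne_top (by finiteness) x2
  have h1 := cheb hd4 hc (π' := sc (tt (2 * m)) π)
    (fun e => mul_le_of_le_one_left' (hT (2 * m)).2.2.2.2.1) hχ hn (c * 2 ^ m)
  have h2 : ∑ i, ξ (sc (tt (2 * m)) π) (coord i) ≤ (∑ i, H i) * 2 ^ (2 * m) := by
    rw [Finset.sum_mul]
    exact Finset.sum_le_sum fun i _ => hH2 i _
  have h3 := h1.trans (add_le_add le_rfl (mul_le_mul' le_rfl h2))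
  generalize χ (sc (tt (2 * m)) π) = x at x1 hχ h3
  generalize ∑ i, H i = H' at hH3 hc1 h3
  lift x to NNReal using hχ
  lift H' to NNReal using hH3
  lift B' to NNReal using hBt
  have h4 := final (x := x) (H := H') (B := B') (c := c) (n := n) (m := m) hc2
    (by simp only [ENNReal.coe_toReal] at hc1; linarith) (by exact_mod_cast x1)
    (by exact_mod_cast h3)
  simp only [ENNReal.coe_toReal] at hm
  have h5 : (2 : ℝ) ^ m ≤ 2 ^ (2 * m) := pow_le_pow_right₀ (by norm_num) (by omega)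
  linarith

end Pool.Agent.Lib.BU59
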