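import Pool.Agent.Lib.BU59.Blue

/-! Long walks have small norm, and long walks of fixed length spread out. -/

namespace Pool.Agent.Lib.BU59

open Pool.Agent.Lib.BU93 ENNReal Filter Topology

namespace TAIL

variable {V : Type} [AddCommGroup V] {π : V → ℝ≥0∞} {B : ℝ≥0∞}

theorem ker_ge (k : ℕ) (v : V) : ker π (fun l => I (SA l ∧ k ≤ l.length)) v =
    ∑' m : ℕ, ker π (fun l => I (SA l ∧ l.length = m + k)) v := by
  unfold ker
  rw [← Ex_tsum]
  refine Ex_congr fun l => ?_
  rw [ENNReal.tsum_mul_right]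
  congr 1
  beta_reduce
  rw [← tsum_I (l.length - k) fun _ => I (SA l ∧ k ≤ l.length)]
  refine tsum_congr fun m => ?_
  rw [← I_and]
  exact I_congr ⟨fun h => ⟨h.2.1, by omega⟩, fun h => ⟨by omega, h.1, by omega⟩⟩

theorem tail (h : Crit π B) {ε : ℝ≥0∞} (hε : ε ≠ 0) :
    ∃ k, L2 (ker π fun l => I (SA l ∧ k ≤ l.length)) ε := by
  set c : ℕ → ℝ≥0∞ := fun m => ∑' v, ker π (fun l => I (SA l)) v *
    ker π (fun l => I (SA l ∧ l.length = m)) v with hc
  have key : ∀ k, ∑' m, c (m + k) = ∑' v, ker π (fun l => I (SA l)) v *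
      ker π (fun l => I (SA l ∧ k ≤ l.length)) v := fun k => by
    simp only [hc, ker_ge, ← ENNReal.tsum_mul_left]
    exact ENNReal.tsum_comm
  have hfin : ∑' m, c m ≠ ⊤ := by
    have h0 := key 0
    simp only [add_zero, Nat.zero_le, and_true] at h0
    rw [h0]
    exact ne_top_of_le_ne_top (mul_ne_top h.Bt h.Bt) h.gB
  have ht := ENNReal.tendsto_sum_nat_add c hfin
  obtain ⟨k, hk⟩ := (ht.eventually (ge_mem_nhds (a := ε * ε)
    (pos_iff_ne_zero.2 (mul_ne_zero hε hε)))).exists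
  refine ⟨k, le_trans ?_ hk⟩
  rw [key]
  exact ENNReal.tsum_le_tsum fun v =>
    mul_le_mul' (ker_mono (fun l => I_mono fun e => e.1) v) le_rfl

theorem short (h : Crit π B) (k : ℕ) : Ex π (fun l => I (SA l ∧ l.length < k)) ≤ k * B := by
  induction k with
  | zero =>
    rw [Ex_congr (g := fun _ => 0) fun l => I_neg (by simp), Ex_zero]
    exact zero_le
  | succ k ih =>
    calc Ex π (fun l => I (SA l ∧ l.length < k + 1))
        ≤ Ex π fun l => I (SA l ∧ l.length < k) + I (SA l ∧ l.length = k) := by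
          refine Ex_mono fun l => ?_
          by_cases e : l.length < k
          · exact le_add_right (I_mono fun e' => ⟨e'.1, e⟩)
          · exact le_add_left (I_mono fun e' => ⟨e'.1, by omega⟩)
      _ ≤ k * B + B := by rw [Ex_add]; exact add_le_add ih (h.aB k)
      _ = _ := by push_cast; ring

theorem conv_comm (ν ν' : List V → ℝ≥0∞) (v : V) :
    (Ex π fun a => ν a * ker π ν' (v - a.sum)) = Ex π fun b => ν' b * ker π ν (v - b.sum) := by
  rw [← ker_app, ← ker_app, Ex_comm]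
  exact Ex_congr fun b => Ex_congr fun a => by rw [add_comm a.sum, mul_comm (ν a)]

theorem small {c ε : ℝ≥0∞} (hc : c ≠ ⊤) (hε : ε ≠ 0) : ∃ δ : ℝ≥0∞, δ ≠ 0 ∧ c * δ ≤ ε / 2 :=
  ⟨ε / 2 / c, by simp [hc, hε], ENNReal.mul_div_le⟩

end TAIL

open TAIL in
theorem st_TAIL : St_TAIL := by
  intro V _ π B ε h hε
  refine ⟨tail h hε, ?_⟩
  obtain ⟨δ, hδ, h1⟩ := small h.Bt hε
  obtain ⟨k, hk⟩ := tail h hδ
  obtain ⟨δ', hδ', h2⟩ := small (c := k * B) (mul_ne_top (natCast_ne_top k) h.Bt) hε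
  obtain ⟨r, hr⟩ := tail h hδ'
  have hr' : L2 (ker π fun l => I (SA l ∧ l.length = r)) δ' :=
    hr.mono (ker_mono fun l => I_mono fun e => ⟨e.1, e.2.ge⟩) le_rfl
  have a1 := hk.young (π := π) fun g => I (SA g ∧ g.length = r)
  have a2 := hr'.young (π := π) fun g => I (SA g ∧ g.length < k)
  refine ⟨r, (a1.add a2).mono (fun v => ?_) ?_⟩
  · rw [conv_comm (fun g => I (SA g ∧ g.length < k)), ← Ex_add]
    refine Ex_mono fun g => ?_
    rw [← mul_add]
    refine mul_le_mul' le_rfl ?_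
    unfold ker
    rw [← Ex_add]
    refine Ex_mono fun l => ?_
    rw [← add_mul]
    refine mul_le_mul' ?_ le_rfl
    by_cases e : l.length < k
    · exact le_add_left (I_mono fun e' => ⟨e', e⟩)
    · exact le_add_right (I_mono fun e' => ⟨e', by omega⟩)
  · rw [← ENNReal.add_halves ε]
    exact add_le_add ((mul_le_mul' (h.aB r) le_rfl).trans h1)
      ((mul_le_mul' (short h k) le_rfl).trans h2)

end Pool.Agent.Lib.BU59
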