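import Pool.Agent.Lib.BU59.Blue

/-! Elementary facts on the scales. -/

namespace Pool.Agent.Lib.BU59

open Pool.Agent.Lib.BU93 ENNReal

namespace TT

theorem half_pow (n : ℕ) : (2⁻¹ : ℝ≥0∞) ^ n = ENNReal.ofReal (2⁻¹ ^ n) := by
  rw [ENNReal.ofReal_pow (by norm_num), ENNReal.ofReal_inv_of_pos (by norm_num),
    ENNReal.ofReal_ofNat]

theorem tt_eq (k : ℕ) : tt k = ENNReal.ofReal (1 - 2⁻¹ ^ (k + 1)) := by
  rw [tt, ENNReal.ofReal_sub _ (by positivity), half_pow, ENNReal.ofReal_one]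

theorem half_eq : (2⁻¹ : ℝ≥0∞) = ENNReal.ofReal 2⁻¹ := by simp

theorem small (k : ℕ) : (2⁻¹ : ℝ) ^ (k + 1) ≤ 2⁻¹ := by
  rw [pow_succ]
  have : (2⁻¹ : ℝ) ^ k ≤ 1 := pow_le_one₀ (by norm_num) (by norm_num)
  linarith

end TT

open TT in
theorem st_TT : St_TT := by
  intro k
  have h0 : (0 : ℝ) < 2⁻¹ ^ (k + 1) := by positivity
  have h1 := small k
  have h2 : (0 : ℝ) ≤ 1 - 2⁻¹ ^ (k + 1) := by linarith
  have h3 : ((2 ^ (k + 1) : ℕ) : ℝ) * 2⁻¹ ^ (k + 1) = 1 := by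
    push_cast; rw [← mul_pow]; norm_num
  have h4 : ((2 ^ k : ℕ) : ℝ) * 2⁻¹ ^ (k + 1) = 2⁻¹ := by
    push_cast; rw [pow_succ, ← mul_assoc, ← mul_pow]; norm_num
  refine ⟨?_, ?_, ?_, ?_, tsub_le_self, ?_⟩
  · rw [tt_eq, tt_eq, half_pow, ← ENNReal.ofReal_add h2 (by positivity)]
    congr 1
    ring
  · rw [tt_eq, ← ENNReal.ofReal_pow h2, half_eq]
    refine ENNReal.ofReal_le_ofReal ?_
    have := one_add_mul_le_pow (a := -(2⁻¹ : ℝ) ^ (k + 1)) (by linarith) (2 ^ k)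
    rw [mul_neg, h4, ← sub_eq_add_neg, ← sub_eq_add_neg] at this
    linarith
  · rw [tt_eq, ← ENNReal.ofReal_pow h2, half_eq]
    refine ENNReal.ofReal_le_ofReal ?_
    have h5 := one_add_mul_le_pow (a := (2⁻¹ : ℝ) ^ (k + 1)) (by linarith) (2 ^ (k + 1))
    rw [h3] at h5
    have h6 : (1 - (2⁻¹ : ℝ) ^ (k + 1)) ^ 2 ^ (k + 1) * (1 + 2⁻¹ ^ (k + 1)) ^ 2 ^ (k + 1) ≤ 1 := by
      rw [← mul_pow]
      exact pow_le_one₀ (by positivity) (by nlinarith)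
    nlinarith [pow_nonneg h2 (2 ^ (k + 1))]
  · rw [tt_eq, half_eq]
    exact ENNReal.ofReal_le_ofReal (by linarith)
  · rw [ENNReal.tsum_geometric, tt, ENNReal.sub_sub_cancel one_ne_top
      (pow_le_one₀ zero_le (by simp)), ← ENNReal.inv_pow, inv_inv]

end Pool.Agent.Lib.BU59
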