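import Pool.Agent.Lib.BU59.Blue

/-! Window norms and their smoothing over the scales. -/

namespace Pool.Agent.Lib.BU59

open Pool.Agent.Lib.BU93 ENNReal

namespace WIN

theorem tsum_I_one (a : ℕ) : ∑' x, I (a = x) = 1 := by
  simpa only [mul_one] using tsum_I a fun _ => 1

theorem three (n : ℕ) : ∑' j : ℕ, I (2 ^ j ≤ n ∧ n < 8 * 2 ^ j) ≤ 3 := by
  set m := Nat.log 2 n with hm
  calc ∑' j : ℕ, I (2 ^ j ≤ n ∧ n < 8 * 2 ^ j)
      ≤ ∑' j : ℕ, (I (m = j) + I (m - 1 = j) + I (m - 2 = j)) := by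
        refine ENNReal.tsum_le_tsum fun j => ?_
        by_cases h : 2 ^ j ≤ n ∧ n < 8 * 2 ^ j
        · have h1 : j ≤ m := Nat.le_log_of_pow_le one_lt_two h.1
          have h2 : m < j + 3 := Nat.log_lt_of_lt_pow' (by omega) (by rw [pow_add]; omega)
          rw [I_pos h]
          by_cases e : m = j
          · rw [I_pos e, add_assoc]; exact le_self_add
          by_cases e' : m - 1 = j
          · rw [I_pos e']; exact le_add_right le_add_self
          · rw [I_pos (P := m - 2 = j) (by omega)]; exact le_add_self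
        · rw [I_neg h]; exact zero_le
    _ = 3 := by
        rw [ENNReal.tsum_add, ENNReal.tsum_add, tsum_I_one, tsum_I_one, tsum_I_one]; norm_num

theorem row (θ : ℝ≥0∞) (k : ℕ) : ∑' j, θ ^ (k - j + (j - k)) ≤ 2 * ∑' n : ℕ, θ ^ n := by
  calc ∑' j, θ ^ (k - j + (j - k))
      ≤ ∑' j, ∑' n : ℕ, θ ^ n * (I (k + n = j) + I (k - n = j)) := by
        refine ENNReal.tsum_le_tsum fun j => le_trans ?_ (ENNReal.le_tsum (k - j + (j - k)))
        refine le_mul_of_one_le_right' ?_
        by_cases e : k ≤ j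
        · rw [I_pos (P := k + _ = j) (by omega)]; exact le_self_add
        · rw [I_pos (P := k - _ = j) (by omega)]; exact le_add_self
    _ = _ := by
        rw [ENNReal.tsum_comm, ← ENNReal.tsum_mul_left]
        refine tsum_congr fun n => ?_
        rw [ENNReal.tsum_mul_left, ENNReal.tsum_add, tsum_I_one, tsum_I_one, one_add_one_eq_two,
          mul_comm]

theorem sq_row {a b : ℕ → ℝ≥0∞} {S : ℝ≥0∞} (h : ∑' j, a j ≤ S) :
    (∑' j, a j * b j) * ∑' j, a j * b j ≤ 2 * S * ∑' j, a j * (b j * b j) := by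
  calc (∑' j, a j * b j) * ∑' j, a j * b j = ∑' j, ∑' i, a j * a i * (b j * b i) := by
        rw [← ENNReal.tsum_mul_right]
        refine tsum_congr fun j => ?_
        rw [← ENNReal.tsum_mul_left]
        exact tsum_congr fun i => by ring
    _ ≤ ∑' j, ∑' i, (a j * (b j * b j) * a i + a j * (a i * (b i * b i))) := by
        refine ENNReal.tsum_le_tsum fun j => ENNReal.tsum_le_tsum fun i => ?_
        calc a j * a i * (b j * b i) ≤ a j * a i * (b j * b j + b i * b i) :=
              mul_le_mul' le_rfl ((le_mul_of_one_le_left' one_le_two).trans (amgm _ _))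
          _ = _ := by ring
    _ = (∑' j, a j * (b j * b j)) * (∑' j, a j) + (∑' j, a j) * ∑' j, a j * (b j * b j) := by
        simp only [ENNReal.tsum_add, ENNReal.tsum_mul_left, ENNReal.tsum_mul_right]
    _ ≤ (∑' j, a j * (b j * b j)) * S + S * ∑' j, a j * (b j * b j) := by gcongr
    _ = _ := by ring

theorem smooth {θ : ℝ≥0∞} (hθ : θ < 1) {b : ℕ → ℝ≥0∞} (hb : ∑' j, b j * b j ≠ ⊤) :
    ∑' k, (θ ^ k + ∑' j, θ ^ (k - j + (j - k)) * b j) *
      (θ ^ k + ∑' j, θ ^ (k - j + (j - k)) * b j) ≠ ⊤ := by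
  set S := ∑' n : ℕ, θ ^ n with hS
  have hS' : S ≠ ⊤ := by
    rw [hS, ENNReal.tsum_geometric]
    exact ENNReal.inv_ne_top.2 (tsub_pos_of_lt hθ).ne'
  refine ne_top_of_le_ne_top (b := 2 * (S + 2 * (2 * S) * (2 * S * ∑' j, b j * b j)))
    (by finiteness) ?_
  calc _ ≤ ∑' k, 2 * (θ ^ k + 2 * (2 * S) * ∑' j, θ ^ (k - j + (j - k)) * (b j * b j)) := by
        refine ENNReal.tsum_le_tsum fun k => ?_
        have h1 := sq_row (b := b) (row θ k)
        set y := ∑' j, θ ^ (k - j + (j - k)) * b j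
        have h2 : θ ^ k * θ ^ k ≤ θ ^ k := mul_le_of_le_one_left' (pow_le_one₀ zero_le hθ.le)
        calc (θ ^ k + y) * (θ ^ k + y) = θ ^ k * θ ^ k + y * y + 2 * (θ ^ k * y) := by ring
          _ ≤ θ ^ k * θ ^ k + y * y + (θ ^ k * θ ^ k + y * y) := add_le_add le_rfl (amgm _ _)
          _ = 2 * (θ ^ k * θ ^ k + y * y) := by ring
          _ ≤ _ := mul_le_mul' le_rfl (add_le_add h2 h1)
    _ ≤ _ := by
        rw [ENNReal.tsum_mul_left, ENNReal.tsum_add, ENNReal.tsum_mul_left, ENNReal.tsum_comm,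
          ← ENNReal.tsum_mul_left (a := 2 * S)]
        refine mul_le_mul' le_rfl (add_le_add le_rfl (mul_le_mul' le_rfl
          (ENNReal.tsum_le_tsum fun j => ?_)))
        rw [ENNReal.tsum_mul_right]
        refine mul_le_mul' (le_trans (le_of_eq (tsum_congr fun k => ?_)) (row θ j)) le_rfl
        rw [add_comm]

end WIN

open WIN in
theorem st_WIN : St_WIN := by
  intro V _ π B θ h hθ
  set W : ℕ → V → ℝ≥0∞ := fun j =>
    ker π fun l => I (SA l ∧ 2 ^ j ≤ l.length ∧ l.length < 8 * 2 ^ j) with hW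
  have hb : ∀ j, (∑' v, W j v * W j v) ^ (2⁻¹ : ℝ) * (∑' v, W j v * W j v) ^ (2⁻¹ : ℝ) =
      ∑' v, W j v * W j v := fun j => by
    rw [← ENNReal.rpow_add_of_nonneg _ _ (by norm_num) (by norm_num)]
    norm_num
  refine ⟨fun j => (∑' v, W j v * W j v) ^ (2⁻¹ : ℝ), _, fun j => (hb j).ge, fun k => le_rfl,
    smooth hθ ?_⟩
  simp only [hb]
  refine ne_top_of_le_ne_top (b := 3 * (B * B)) (mul_ne_top (by simp) (mul_ne_top h.Bt h.Bt)) ?_
  refine le_trans ?_ (mul_le_mul' le_rfl h.gB)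
  rw [ENNReal.tsum_comm, ← ENNReal.tsum_mul_left]
  refine ENNReal.tsum_le_tsum fun v => ?_
  calc ∑' j, W j v * W j v ≤ ∑' j, W j v * ker π (fun l => I (SA l)) v :=
        ENNReal.tsum_le_tsum fun j =>
          mul_le_mul' le_rfl (ker_mono (fun l => I_mono fun e => e.1) v)
    _ ≤ _ := by
        rw [ENNReal.tsum_mul_right, ← mul_assoc]
        refine mul_le_mul' ?_ le_rfl
        simp only [hW, ker]
        rw [← Ex_tsum, ← Ex_cmul]
        refine Ex_mono fun l => ?_
        simp only [I_and (SA l)]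
        rw [ENNReal.tsum_mul_right, ENNReal.tsum_mul_left, ← mul_assoc, mul_comm 3]
        exact mul_le_mul' (mul_le_mul' le_rfl (three _)) le_rfl

end Pool.Agent.Lib.BU59
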