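import Pool.Agent.Lib.BU59.Blue

/-! Square norms of weighted lines, by cutting a walk at all times of a window. -/

namespace Pool.Agent.Lib.BU59

open Pool.Agent.Lib.BU93 ENNReal

namespace WL

variable {V : Type} {π u : V → ℝ≥0∞} {t : ℝ≥0∞}

theorem wt_sc (t : ℝ≥0∞) (π : V → ℝ≥0∞) (l : List V) :
    wt (sc t π) l = t ^ l.length * wt π l := by
  induction l with
  | nil => simp [wt]
  | cons e l ih =>
    simp only [wt, List.map_cons, List.prod_cons, List.length_cons, sc] at ih ⊢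
    rw [ih]; ring

variable [AddCommGroup V]

theorem lt_le {c : ℝ≥0∞} (m : ℕ)
    (h : ∀ i, i < m → Ex π (fun l => I (SA l ∧ l.length = i) * u l.sum) ≤ c) :
    Ex π (fun l => I (SA l ∧ l.length < m) * u l.sum) ≤ m * c := by
  induction m with
  | zero => simp [I_neg, Ex_zero]
  | succ m ih =>
    rw [Nat.cast_succ, add_mul, one_mul]
    refine le_trans ?_ (add_le_add (ih fun i hi => h i (by omega)) (h m (by omega)))
    rw [← Ex_add]
    refine Ex_mono fun l => ?_
    refine I_mul_le fun e => (Nat.lt_succ_iff_lt_or_eq.1 e.2).elim (fun h => ?_) fun h => ?_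
    · rw [I_pos ⟨e.1, h⟩, one_mul]; exact le_self_add
    · rw [I_pos (P := _ ∧ _ = m) ⟨e.1, h⟩, one_mul]; exact le_add_self

theorem ker_sc (ht : t ≤ 1) (q m : ℕ) (v : V) :
    ker (sc t π) (fun l => I (SA l ∧ q ≤ l.length ∧ l.length < m)) v ≤
      t ^ q * ker π (fun l => I (SA l ∧ q ≤ l.length ∧ l.length < m)) v := by
  unfold ker Ex
  rw [← ENNReal.tsum_mul_left]
  refine ENNReal.tsum_le_tsum fun l => ?_
  by_cases h : q ≤ l.length
  · rw [wt_sc, mul_assoc]
    exact mul_le_mul' (pow_le_pow_right_of_le_one' ht h) le_rfl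
  · beta_reduce
    rw [I_neg (P := SA l ∧ q ≤ l.length ∧ l.length < m) fun e => h e.2.1]
    simp

theorem card_le (q : ℕ) (c : ℝ≥0∞) (f : ℕ → ℝ≥0∞) (h : ∀ i, q ≤ i → i < 2 * q → c ≤ f i) :
    q * c ≤ ∑' i, f i := by
  refine le_trans ?_ (ENNReal.sum_le_tsum (Finset.Ico q (2 * q)))
  have := Finset.card_nsmul_le_sum (Finset.Ico q (2 * q)) f c fun i hi =>
    h i (Finset.mem_Ico.1 hi).1 (Finset.mem_Ico.1 hi).2
  rwa [Nat.card_Ico, nsmul_eq_mul, show 2 * q - q = q by omega] at this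

theorem window (ht : t ≤ 1) (hu : ∀ x y, u (x + y) ≤ 2 * (u x + u y)) {q : ℕ} (hq : q ≠ 0)
    {U b : ℝ≥0∞}
    (hU : ∀ i, i < 8 * q → Ex (sc t π) (fun l => I (SA l ∧ l.length = i) * u l.sum) ≤ U)
    (hb : L2 (ker π fun l => I (SA l ∧ q ≤ l.length ∧ l.length < 8 * q)) b) :
    L2 (ker (sc t π) fun l => I (SA l ∧ 4 * q ≤ l.length ∧ l.length < 8 * q) * u l.sum)
      (32 * (U * t ^ q * b)) := by
  set ν : List V → ℝ≥0∞ := fun l => I (SA l ∧ q ≤ l.length ∧ l.length < 8 * q) with hν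
  have h1 : L2 (ker (sc t π) ν) (t ^ q * b) := (hb.cmul _).mono (ker_sc ht q _) le_rfl
  have h2 : Ex (sc t π) (fun l => ν l * u l.sum) ≤ (8 * q : ℕ) * U :=
    (Ex_mono fun l => mul_le_mul' (I_mono fun e => ⟨e.1, e.2.2⟩) le_rfl).trans (lt_le _ hU)
  have h3 := (h1.young (π := sc t π) fun l => ν l * u l.sum).cmul 4
  have h4 : ∀ v, (q : ℝ≥0∞) * ker (sc t π)
      (fun l => I (SA l ∧ 4 * q ≤ l.length ∧ l.length < 8 * q) * u l.sum) v ≤
      4 * Ex (sc t π) fun l => ν l * u l.sum * ker (sc t π) ν (v - l.sum) := by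
    intro v
    have e1 := ker_app (π := sc t π) (π' := sc t π) (fun l => ν l * u l.sum) ν v
    have e2 : (Ex (sc t π) fun a => Ex (sc t π) fun c =>
        ν a * (ν c * u c.sum) * I (a.sum + c.sum = v)) =
        Ex (sc t π) fun l => ν l * u l.sum * ker (sc t π) ν (v - l.sum) := by
      rw [Ex_comm, ← e1]
      exact Ex_congr fun a => Ex_congr fun c => by rw [add_comm c.sum]; ring
    calc _ ≤ Ex (sc t π) fun a => Ex (sc t π) fun c =>
          2 * (ν a * u a.sum * ν c * I (a.sum + c.sum = v)) +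
            2 * (ν a * (ν c * u c.sum) * I (a.sum + c.sum = v)) := by
          rw [← Ex_cut, ker, ← Ex_cmul]
          refine Ex_mono fun l => card_le q _ _ fun i h1 h2 => ?_
          rw [mul_assoc]
          refine I_mul_le fun e => ?_
          have hs : SA (l.take i ++ l.drop i) := by rw [List.take_append_drop]; exact e.1
          have a1 : ν (l.take i) = 1 :=
            I_pos ⟨hs.left, by rw [List.length_take]; omega, by rw [List.length_take]; omega⟩
          have a2 : ν (l.drop i) = 1 :=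
            I_pos ⟨hs.right, by rw [List.length_drop]; omega, by rw [List.length_drop]; omega⟩
          rw [I_pos (show i ≤ l.length by omega), a1, a2, take_add_drop]
          have a3 := hu (l.take i).sum (l.drop i).sum
          rw [take_add_drop] at a3
          exact (mul_le_mul' a3 le_rfl).trans (le_of_eq (by ring))
      _ = _ := by
          simp only [Ex_add, Ex_cmul]
          rw [e1, e2]
          ring
  have hq0 : (q : ℝ≥0∞) ≠ 0 := Nat.cast_ne_zero.2 hq
  have hq1 : (q : ℝ≥0∞) ≠ ⊤ := natCast_ne_top q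
  refine (h3.cmul (q : ℝ≥0∞)⁻¹).mono (fun v => ?_) ?_
  · refine le_trans (le_of_eq ?_) (mul_le_mul' le_rfl (h4 v))
    rw [← mul_assoc, ENNReal.inv_mul_cancel hq0 hq1, one_mul]
  · calc _ ≤ (q : ℝ≥0∞)⁻¹ * (4 * ((8 * q : ℕ) * U * (t ^ q * b))) := by gcongr
      _ = (q : ℝ≥0∞)⁻¹ * q * (32 * (U * t ^ q * b)) := by push_cast; ring
      _ = _ := by rw [ENNReal.inv_mul_cancel hq0 hq1, one_mul]

theorem dyadic {n : ℕ} (h : 4 ≤ n) : ∃ j, 4 * 2 ^ j ≤ n ∧ n < 8 * 2 ^ j := by
  have h1 := Nat.pow_log_le_self 2 (show n / 4 ≠ 0 by omega)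
  have h2 := Nat.lt_pow_succ_log_self (show 1 < 2 by norm_num) (n / 4)
  refine ⟨Nat.log 2 (n / 4), by omega, ?_⟩
  rw [pow_succ] at h2
  omega

end WL

open WL in
theorem st_WL : St_WL := by
  intro V _ π u t U b ht hu hU hb
  have h0 : L2 (ker (sc t π) fun l => I (SA l ∧ l.length < 4) * u l.sum) (4 * U 0) := by
    refine (L2.of_sum _).mono (fun _ => le_rfl) ?_
    have e := Ex_ker (π := sc t π) (fun l => I (SA l ∧ l.length < 4) * u l.sum) fun _ => 1
    simp only [mul_one] at e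
    rw [← e]
    exact lt_le 4 fun i hi => hU 0 i (by omega)
  have h1 := L2.tsum fun j => window ht hu (q := 2 ^ j) (by positivity) (hU j) (hb j)
  refine (h0.add h1).mono (fun v => ?_) (by rw [ENNReal.tsum_mul_left])
  unfold ker
  rw [← Ex_tsum, ← Ex_add]
  refine Ex_mono fun l => ?_
  beta_reduce
  rw [mul_assoc]
  refine I_mul_le fun e => ?_
  rcases lt_or_ge l.length 4 with h | h
  · rw [I_pos (P := SA l ∧ l.length < 4) ⟨e, h⟩, one_mul]
    exact le_self_add
  · obtain ⟨j, hj⟩ := dyadic h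
    refine le_add_left (le_trans (le_of_eq ?_) (ENNReal.le_tsum j))
    rw [I_pos (P := SA l ∧ 4 * 2 ^ j ≤ l.length ∧ l.length < 8 * 2 ^ j) ⟨e, hj⟩, one_mul]

end Pool.Agent.Lib.BU59
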