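import Pool.Agent.Lib.BU59.Disc

/-! Critical weights, the scales, and the statements of the remaining steps. -/

namespace Pool.Agent.Lib.BU59

open Pool.Agent.Lib.BU93 ENNReal

/-- critical step weights with a finite bubble diagram -/
structure Crit {V : Type} [AddCommGroup V] (π : V → ℝ≥0∞) (B : ℝ≥0∞) : Prop where
  symm : ∀ e, π (-e) = π e
  B1 : 1 ≤ B
  Bt : B ≠ ⊤
  a1 : ∀ m, 1 ≤ Ex π fun l => I (SA l ∧ l.length = m)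
  aB : ∀ m, Ex π (fun l => I (SA l ∧ l.length = m)) ≤ B
  gB : L2 (ker π fun l => I (SA l)) B

/-- subcritical weights -/
noncomputable def sc {V : Type} (t : ℝ≥0∞) (π : V → ℝ≥0∞) (e : V) : ℝ≥0∞ := t * π e

/-- the fugacity factor of scale `k` -/
noncomputable def tt (k : ℕ) : ℝ≥0∞ := 1 - 2⁻¹ ^ (k + 1)

/-- elementary facts on the scales -/
def St_TT : Prop := ∀ k : ℕ, tt (k + 1) = tt k + 2⁻¹ ^ (k + 2) ∧ 2⁻¹ ≤ tt k ^ 2 ^ k ∧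
  tt k ^ 2 ^ (k + 1) ≤ 2⁻¹ ∧ 2⁻¹ ≤ tt k ∧ tt k ≤ 1 ∧ ∑' n : ℕ, tt k ^ n = 2 ^ (k + 1)

/-- size of the susceptibility -/
def St_CHI : Prop := ∀ (V : Type) [AddCommGroup V] (π : V → ℝ≥0∞) (B : ℝ≥0∞), Crit π B →
  ∀ k : ℕ, 2 ^ k ≤ 2 * χ (sc (tt k) π) ∧ χ (sc (tt k) π) ≤ B * 2 ^ (k + 1)

/-- weighted lines -/
def St_WL : Prop := ∀ (V : Type) [AddCommGroup V] (π u : V → ℝ≥0∞) (t : ℝ≥0∞) (U b : ℕ → ℝ≥0∞),
  t ≤ 1 → (∀ x y, u (x + y) ≤ 2 * (u x + u y)) →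
  (∀ j i, i < 8 * 2 ^ j → Ex (sc t π) (fun l => I (SA l ∧ l.length = i) * u l.sum) ≤ U j) →
  (∀ j, L2 (ker π fun l => I (SA l ∧ 2 ^ j ≤ l.length ∧ l.length < 8 * 2 ^ j)) (b j)) →
  L2 (ker (sc t π) fun l => I (SA l) * u l.sum) (4 * U 0 + 32 * ∑' j, U j * t ^ 2 ^ j * b j)

/-- window norms and their smoothing over the scales -/
def St_WIN : Prop := ∀ (V : Type) [AddCommGroup V] (π : V → ℝ≥0∞) (B θ : ℝ≥0∞), Crit π B →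
  θ < 1 → ∃ b σ : ℕ → ℝ≥0∞,
    (∀ j, L2 (ker π fun l => I (SA l ∧ 2 ^ j ≤ l.length ∧ l.length < 8 * 2 ^ j)) (b j)) ∧
    (∀ k, θ ^ k + ∑' j, θ ^ (k - j + (j - k)) * b j ≤ σ k) ∧ ∑' k, σ k * σ k ≠ ⊤

/-- long walks have small norm, and long walks of fixed length spread out -/
def St_TAIL : Prop := ∀ (V : Type) [AddCommGroup V] (π : V → ℝ≥0∞) (B ε : ℝ≥0∞), Crit π B →
  ε ≠ 0 → (∃ k, L2 (ker π fun l => I (SA l ∧ k ≤ l.length)) ε) ∧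
    ∃ r, L2 (fun v => Ex π fun g => I (SA g ∧ g.length = r) *
      ker π (fun l => I (SA l)) (v - g.sum)) ε

/-- the diffusive bound -/
def St_MAIN : Prop := ∀ (V : Type) [AddCommGroup V] (π : V → ℝ≥0∞) (B : ℝ≥0∞) (ℓ : V →+ ℝ),
  Crit π B → (∀ e, π e ≠ 0 → |ℓ e| ≤ 1) →
    ∃ H : ℝ≥0∞, H ≠ ⊤ ∧ ∀ k : ℕ, ξ (sc (tt k) π) ℓ ≤ H * 2 ^ k

end Pool.Agent.Lib.BU59
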