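import Pool.Agent.Lib.BU59.Stage

/-! A cone of functions of the obstacle set and its stability under the terms of the stage
identity. -/

namespace Pool.Agent.Lib.BU59

open Pool.Agent.Lib.BU93 ENNReal

variable {V : Type} [AddCommGroup V] {π : V → ℝ≥0∞}

/-- sum over a set -/
noncomputable def SS (A : Set V) (φ : V → ℝ≥0∞) : ℝ≥0∞ := ∑' u, I (u ∈ A) * φ u

/-- sum over the points of a walk seen from its end -/
noncomputable def mark (φ : V → ℝ≥0∞) (h : List V) : ℝ≥0∞ :=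
  ∑' i, I (i ≤ h.length) * φ (-(h.drop i).sum)

theorem I_ob (h : List V) (u : V) :
    I (∃ i, i < h.length ∧ pos h i = h.sum + u) ≤
      ∑' i, I (i ≤ h.length) * I (-(h.drop i).sum = u) := by
  rw [← mul_one (I _)]
  refine I_mul_le fun ⟨i, hi, e⟩ => le_trans ?_ (ENNReal.le_tsum i)
  rw [I_pos hi.le, I_pos, one_mul]
  rw [← take_add_drop h i, pos, add_assoc, left_eq_add] at e
  exact neg_eq_of_add_eq_zero_right e

theorem SS_ob (A : Set V) (h : List V) (φ : V → ℝ≥0∞) :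
    SS (ob A h) φ ≤ SS A (fun u => φ (u - h.sum)) + mark φ h := by
  have h1 : SS A (fun u => φ (u - h.sum)) = ∑' u, I (h.sum + u ∈ A) * φ u := by
    unfold SS
    rw [← (Equiv.addLeft h.sum).tsum_eq]
    simp
  have h2 : mark φ h = ∑' u, (∑' i, I (i ≤ h.length) * I (-(h.drop i).sum = u)) * φ u := by
    simp only [← ENNReal.tsum_mul_right, mul_assoc]
    rw [ENNReal.tsum_comm]
    simp only [ENNReal.tsum_mul_left, tsum_I, mark]
  rw [h1, h2, ← ENNReal.tsum_add]
  refine ENNReal.tsum_le_tsum fun u => ?_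
  rw [← add_mul]
  refine mul_le_mul' (le_trans ?_ (add_le_add le_rfl (I_ob h u))) le_rfl
  rw [← mul_one (I (u ∈ _))]
  refine I_mul_le fun e => e.elim (fun e => ?_) fun e => ?_
  · rw [I_pos e]; exact le_self_add
  · rw [I_pos e]; exact le_add_self

theorem Ex_mark (ν : List V → ℝ≥0∞) (φ : V → ℝ≥0∞) :
    Ex π (fun h => ν h * mark φ h) = Ex π fun b => Ex π (fun a => ν (a ++ b)) * φ (-b.sum) := by
  have := Ex_cut (π := π) fun a b => ν (a ++ b) * φ (-b.sum)
  simp only [List.take_append_drop] at this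
  simp only [← Ex_mulc]
  rw [Ex_comm, ← this]
  refine Ex_congr fun h => ?_
  rw [mark, ← ENNReal.tsum_mul_left]
  exact tsum_congr fun i => by ring

/-- the cone -/
def K (ω : V → ℝ≥0∞) (N : ℝ≥0∞) (φ : Set V → ℝ≥0∞) : Prop :=
  ∃ γ, L2 γ N ∧ ∀ A, φ A ≤ N + SS A fun u => (1 + ω u) * γ u

variable {ω : V → ℝ≥0∞} {N N' : ℝ≥0∞} {φ φ' : Set V → ℝ≥0∞}

omit [AddCommGroup V] in
theorem K.mono (h : K ω N φ) (h1 : ∀ A, φ' A ≤ φ A) (h2 : N ≤ N') : K ω N' φ' := by
  obtain ⟨γ, hγ, h⟩ := h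
  exact ⟨γ, hγ.mono (fun _ => le_rfl) h2, fun A => (h1 A).trans ((h A).trans (by gcongr))⟩

omit [AddCommGroup V] in
theorem K.const (N : ℝ≥0∞) : K ω N fun _ => N :=
  ⟨fun _ => 0, L2.zero.mono (fun _ => le_rfl) zero_le, fun _ => le_self_add⟩

omit [AddCommGroup V] in
theorem K.add (h : K ω N φ) (h' : K ω N' φ') : K ω (N + N') fun A => φ A + φ' A := by
  obtain ⟨γ, hγ, h⟩ := h
  obtain ⟨γ', hγ', h'⟩ := h'
  refine ⟨_, hγ.add hγ', fun A => (add_le_add (h A) (h' A)).trans (le_of_eq ?_)⟩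
  simp only [SS, mul_add, ENNReal.tsum_add]
  ring

omit [AddCommGroup V] in
theorem K.cmul (h : K ω N φ) (c : ℝ≥0∞) : K ω (c * N) fun A => c * φ A := by
  obtain ⟨γ, hγ, h⟩ := h
  refine ⟨_, hγ.cmul c, fun A => (mul_le_mul' le_rfl (h A)).trans (le_of_eq ?_)⟩
  simp only [SS, mul_add, ← ENNReal.tsum_mul_left, mul_left_comm c]

theorem K.empty (h : K ω N φ) : ∃ γ, L2 γ N ∧ ∀ f : List V,
    φ (ob ∅ f) ≤ N + mark (fun u => (1 + ω u) * γ u) f := by
  obtain ⟨γ, hγ, h⟩ := h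
  refine ⟨γ, hγ, fun f => (h _).trans (add_le_add le_rfl ((SS_ob _ _ _).trans ?_))⟩
  simp [SS, I_neg]

/-- the standing assumptions on the walk with step weights `π` and on the weight `ω` -/
structure Hyp (π ω : V → ℝ≥0∞) (B τ ε : ℝ≥0∞) (r k n : ℕ) : Prop where
  sub : ∀ a b, ω (a + b) ≤ ω a + ω b
  even : ∀ a, ω (-a) = ω a
  τ1 : τ ≤ 1
  ε1 : ε ≤ 1
  aB : ∀ m, Ex π (fun l => I (SA l ∧ l.length = m)) ≤ B
  gB : L2 (ker π fun l => I (SA l)) B
  wG : L2 (ker π fun l => I (SA l) * ω l.sum) τ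
  loc : ∀ l, wt π l ≠ 0 → l.length ≤ n → ω l.sum ≤ τ
  tail : L2 (ker π fun l => I (SA l ∧ k ≤ l.length)) τ
  spread : L2 (fun v => Ex π fun g => I (SA g ∧ g.length = r) *
    ker π (fun l => I (SA l)) (v - g.sum)) ε

variable {B τ ε : ℝ≥0∞} {r k n : ℕ}

theorem Hyp.mul (H : Hyp π ω B τ ε r k n) (a b : V) :
    1 + ω (a + b) ≤ (1 + ω a) * (1 + ω b) :=
  calc 1 + ω (a + b) ≤ 1 + (ω a + ω b) + ω a * ω b := le_add_right (add_le_add le_rfl (H.sub a b))
    _ = _ := by ring

theorem Hyp.jump (H : Hyp π ω B τ ε r k n) (h : K ω N φ) {ν : List V → ℝ≥0∞} {m j : ℝ≥0∞}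
    (hm : Ex π (fun l => ν l * (1 + ω l.sum)) ≤ m)
    (hj : ∀ γ, L2 γ N → Ex π (fun l => ν l * mark (fun u => (1 + ω u) * γ u) l) ≤ j * N) :
    K ω ((m + j) * N) fun A => Ex π fun l => ν l * φ (ob A l) := by
  obtain ⟨γ, hγ, h⟩ := h
  refine ⟨_, (hγ.young (π := π) fun l => ν l * (1 + ω l.sum)).mono (fun _ => le_rfl)
    (mul_le_mul' (hm.trans le_self_add) le_rfl), fun A => ?_⟩
  calc _ ≤ Ex π fun l => ν l * (1 + ω l.sum) * N + ν l * mark (fun u => (1 + ω u) * γ u) l +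
        ∑' u, I (u ∈ A) * ((1 + ω u) * (ν l * (1 + ω l.sum) * γ (u - l.sum))) := by
        refine Ex_mono fun l => (mul_le_mul' le_rfl ((h _).trans
          (add_le_add le_rfl (SS_ob _ _ _)))).trans ?_
        rw [mul_add, mul_add, add_comm (ν l * SS _ _), ← add_assoc]
        refine add_le_add (add_le_add ?_ le_rfl) ?_
        · exact mul_le_mul' (le_mul_of_one_le_right' le_self_add) le_rfl
        · rw [SS, ← ENNReal.tsum_mul_left]
          refine ENNReal.tsum_le_tsum fun u => ?_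
          have := H.mul u (-l.sum)
          rw [H.even, ← sub_eq_add_neg] at this
          calc _ ≤ ν l * (I (u ∈ A) * ((1 + ω u) * (1 + ω l.sum) * γ (u - l.sum))) := by gcongr
            _ = _ := by ring
    _ ≤ _ := by
        rw [Ex_add, Ex_add, Ex_mulc, Ex_tsum, add_mul]
        refine add_le_add (add_le_add (mul_le_mul' hm le_rfl) (hj γ hγ)) (le_of_eq ?_)
        simp only [Ex_cmul, SS]

theorem Hyp.WG (H : Hyp π ω B τ ε r k n) :
    L2 (ker π fun l => I (SA l) * (1 + ω l.sum)) (B + 1) := by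
  refine (H.gB.add H.wG).mono (fun v => le_of_eq ?_) (add_le_add le_rfl H.τ1)
  simp only [ker, mul_add, add_mul, mul_one, Ex_add]

theorem Hyp.WT (H : Hyp π ω B τ ε r k n) :
    L2 (ker π fun l => I (SA l ∧ k ≤ l.length) * (1 + ω l.sum)) (2 * τ) := by
  refine (H.tail.add H.wG).mono (fun v => ?_) (two_mul τ).ge
  simp only [ker, mul_add, add_mul, mul_one, Ex_add]
  exact add_le_add le_rfl (Ex_mono fun l => by gcongr; exact I_mono And.left)

theorem Hyp.pair (H : Hyp π ω B τ ε r k n) {ν : List V → ℝ≥0∞} {a : ℝ≥0∞}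
    (h : L2 (ker π fun l => ν l * (1 + ω l.sum)) a) {γ : V → ℝ≥0∞} (hγ : L2 γ N) :
    Ex π (fun l => ν l * ((1 + ω (-l.sum)) * γ (-l.sum))) ≤ a * N := by
  simp only [H.even, ← mul_assoc]
  exact Ex_pair (φ := fun v => γ (-v)) h hγ.neg

theorem Hyp.aLt (H : Hyp π ω B τ ε r k n) (m : ℕ) :
    Ex π (fun l => I (SA l ∧ l.length < m)) ≤ m * B := by
  induction m with
  | zero => simp [I_neg, Ex_zero]
  | succ m ih =>
    rw [Nat.cast_succ, add_mul, one_mul]
    refine le_trans ?_ (add_le_add ih (H.aB m))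
    rw [← Ex_add]
    refine Ex_mono fun l => ?_
    rw [← mul_one (I (_ ∧ _ < m + 1))]
    refine I_mul_le fun e => (Nat.lt_succ_iff_lt_or_eq.1 e.2).elim (fun h => ?_) fun h => ?_
    · rw [I_pos ⟨e.1, h⟩]; exact le_self_add
    · rw [I_pos (P := _ ∧ _ = m) ⟨e.1, h⟩]; exact le_add_self

theorem Hyp.jumpP (H : Hyp π ω B τ ε r k n) (h : K ω N φ) {P : ℕ → Prop} {c : ℝ≥0∞}
    (hn : ∀ m, P m → m ≤ n) (hc : ∀ j, Ex π (fun l => I (SA l ∧ P (l.length + j))) ≤ c) :
    K ω (c * (3 * (B + 1)) * N) fun A => Ex π fun l => I (SA l ∧ P l.length) * φ (ob A l) := by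
  refine (H.jump h (m := c * 2) (j := c * (B + 1)) ?_ fun γ hγ => ?_).mono (fun _ => le_rfl) ?_
  · refine le_trans (Ex_mono' fun l hl => I_mul_le_I fun e => ⟨e, ?_⟩)
      ((Ex_mulc 2 _).le.trans (mul_le_mul' (hc 0) le_rfl))
    rw [← one_add_one_eq_two]
    exact add_le_add le_rfl ((H.loc l hl (hn _ e.2)).trans H.τ1)
  · rw [Ex_mark, mul_assoc]
    refine le_trans (Ex_mono fun b => ?_) ((Ex_cmul c _).le.trans
      (mul_le_mul' le_rfl (H.pair H.WG hγ)))
    rw [← mul_assoc c]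
    refine mul_le_mul' (le_trans (Ex_mono fun a => ?_) ((Ex_mulc _ _).le.trans
      (mul_le_mul' (hc b.length) le_rfl))) le_rfl
    rw [← I_and, List.length_append]
    exact I_mono fun e => ⟨⟨e.1.left, e.2⟩, e.1.right⟩
  · rw [← mul_add]
    gcongr
    calc 2 + (B + 1) ≤ 2 + (B + 1) + 2 * B := le_self_add
      _ = _ := by ring

/-- `m` steps among the obstacles -/
noncomputable def Pn (π : V → ℝ≥0∞) (m : ℕ) (φ : Set V → ℝ≥0∞) (A : Set V) : ℝ≥0∞ :=
  Ex π fun h => I (h.length = m) * (I (Ok A h) * φ (ob A h))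

theorem Pn_Pn (a b : ℕ) (φ : Set V → ℝ≥0∞) (A : Set V) :
    Pn π a (Pn π b φ) A = Pn π (a + b) φ A := by
  have := Ex_split (π := π) a fun g f => I ((g ++ f).length = a + b) *
    (I (Ok A (g ++ f)) * φ (ob A (g ++ f)))
  simp only [List.take_append_drop, ← mul_assoc, ← I_and] at this
  unfold Pn
  simp only [← mul_assoc, ← I_and]
  rw [Ex_congr (f := fun h => I (h.length = a + b ∧ Ok A h) * φ (ob A h)) fun h =>
    congrArg (· * _) (I_congr (Q := a ≤ h.length ∧ h.length = a + b ∧ Ok A h)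
      ⟨fun e => ⟨by omega, e⟩, fun e => e.2⟩), this]
  refine Ex_congr fun g => ?_
  rw [I_and, mul_assoc]
  refine I_mul_congr fun hg => ?_
  rw [← Ex_cmul]
  refine Ex_congr fun f => ?_
  rw [← mul_assoc, ← I_and, ob_append, ok_append, List.length_append, hg]
  exact congrArg (· * _) (I_congr ⟨fun e => ⟨by omega, e.1, e.2.2⟩,
    fun e => ⟨e.2.1, by omega, e.2.2⟩⟩)

theorem Pn_lin (m : ℕ) (φ ψ : Set V → ℝ≥0∞) (c : ℝ≥0∞) (A : Set V) :
    Pn π m (fun A => φ A + c * ψ A) A = Pn π m φ A + c * Pn π m ψ A := by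
  simp only [Pn, ← Ex_cmul, ← Ex_add]
  exact Ex_congr fun h => by ring

theorem Hyp.kP (H : Hyp π ω B τ ε r k n) (h : K ω N φ) {m : ℕ} (hm : m ≤ n) :
    K ω (3 * (B + 1) ^ 2 * N) (Pn π m φ) := by
  refine (H.jumpP h (P := fun j => j = m) (c := B) (fun _ e => e ▸ hm) fun j => ?_).mono
    (fun A => Ex_mono fun l => ?_) ?_
  · exact le_trans (Ex_mono fun l => I_mono fun e => ⟨e.1, by omega⟩) (H.aB (m - j))
  · rw [← mul_assoc, ← I_and]
    exact I_mul_le_I fun e => ⟨⟨e.2.1, e.1⟩, le_rfl⟩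
  · refine mul_le_mul' ?_ le_rfl
    calc B * (3 * (B + 1)) ≤ (B + 1) * (3 * (B + 1)) := mul_le_mul' le_self_add le_rfl
      _ = _ := by ring

/-- error carried by a displaced term -/
noncomputable def er (ω : V → ℝ≥0∞) (φ : Set V → ℝ≥0∞) (A : Set V) (δ : V) : ℝ≥0∞ :=
  (1 + ω δ) * φ A + ω δ * ω δ

theorem Hyp.k3 (H : Hyp π ω B τ ε r k n) (hr : r ≤ n) (h : K ω N φ) :
    K ω (B + 1 + ε * (B + 2) * N) fun A => t3 π r A (er ω φ) := by
  obtain ⟨γ, hγ, h⟩ := h.empty
  set ν : List V → ℝ≥0∞ := fun g => I (SA g ∧ g.length = r) with hν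
  set G : V → ℝ≥0∞ := ker π fun l => I (SA l) with hG
  set Γ : V → ℝ≥0∞ := fun u => (1 + ω u) * γ u with hΓ
  have h1 := ((H.spread.cmul (N + 1)).add (H.wG.young (π := π) ν)).add
    (H.spread.young (π := π) fun l => I (SA l) * Γ (-l.sum))
  refine ⟨_, h1.mono (fun _ => le_rfl) ?_, fun A => le_add_left ?_⟩
  · calc _ ≤ (N + 1) * ε + B * 1 + (B + 1) * N * ε := by
          gcongr
          exacts [H.aB r, H.τ1, H.pair H.WG hγ]
      _ = B + ε + ε * (B + 2) * N := by ring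
      _ ≤ _ := by gcongr; exact H.ε1
  have h2 : ∀ v, ker π (fun l => I (SA l) * mark Γ l) v ≤
      Ex π fun l => I (SA l) * Γ (-l.sum) * G (v - l.sum) := fun v => by
    unfold ker
    simp only [mul_right_comm _ (mark Γ _)]
    rw [Ex_mark]
    refine Ex_mono fun b => ?_
    rw [mul_right_comm]
    refine mul_le_mul' ?_ le_rfl
    rw [hG, ker, ← Ex_cmul]
    refine Ex_mono fun a => ?_
    rw [← I_and, ← I_and, ← I_and, List.sum_append]
    exact I_mono fun e => ⟨e.1.right, e.1.left, eq_sub_of_add_eq e.2⟩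
  calc t3 π r A (er ω φ) ≤ Ex π fun g => Ex π fun f => ∑' u, I (u ∈ A) * ((1 + ω u) *
        (ν g * (I (SA f) * (N + 1 + ω f.sum + mark Γ f)) * I (g.sum + f.sum = u))) := by
        refine Ex_mono' fun g hg => I_mul_le fun e1 => I_mul_le fun e2 => Ex_mono fun f =>
          I_mul_le fun e3 => I_mul_le fun e4 => le_trans ?_ (ENNReal.le_tsum (g.sum + f.sum))
        rw [I_pos (P := _ ∈ A) e4.1, I_pos rfl, hν]
        simp only [I_pos (And.intro e2.1 e1), I_pos e3.1, one_mul, mul_one, er]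
        calc _ ≤ (1 + ω (g.sum + f.sum)) * (N + mark Γ f) +
              (1 + ω (g.sum + f.sum)) * (1 + ω f.sum) := by
              refine add_le_add (mul_le_mul' le_rfl (h f)) (mul_le_mul' le_add_self
                ((H.sub _ _).trans (add_le_add ((H.loc g hg (by omega)).trans H.τ1) le_rfl)))
          _ = _ := by ring
    _ ≤ _ := by
        simp only [Ex_tsum, Ex_cmul, SS]
        refine ENNReal.tsum_le_tsum fun u => mul_le_mul' le_rfl (mul_le_mul' le_rfl ?_)
        rw [ker_app]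
        simp only [← Ex_cmul]
        rw [Ex_comm, ← Ex_add, ← Ex_add]
        refine Ex_mono fun g => ?_
        have h3 : ker π (fun f => I (SA f) * (N + 1 + ω f.sum + mark Γ f)) (u - g.sum) =
            (N + 1) * G (u - g.sum) + ker π (fun l => I (SA l) * ω l.sum) (u - g.sum) +
              ker π (fun l => I (SA l) * mark Γ l) (u - g.sum) := by
          simp only [hG, ker, ← Ex_cmul, ← Ex_add]
          exact Ex_congr fun f => by ring
        rw [h3, mul_add, mul_add, mul_left_comm]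
        refine add_le_add le_rfl ((mul_le_mul' le_rfl (h2 _)).trans (le_of_eq ?_))
        rw [← Ex_cmul]
        exact Ex_congr fun l => by rw [sub_right_comm, mul_left_comm]

theorem Hyp.open (H : Hyp π ω B τ ε r k n) (v : V) :
    (Ex π fun x => Ex π fun y => I (SA x) * I (SA y) * I (x.sum + y.sum = v)) ≤ B * B := by
  rw [ker_app]
  exact Ex_pair (φ := fun u => ker π _ (v - u)) H.gB (H.gB.rsub v)

theorem Hyp.late (H : Hyp π ω B τ ε r k n) (A : Set V) (p : List V) (v : V) :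
    (Ex π fun x => Ex π fun y => I (Lp A p x y) * I (v ∈ ob ∅ y)) ≤
      B * B * ker π (fun l => I (SA l)) (-v) := by
  calc _ ≤ Ex π fun x => Ex π fun y => I (SA x ∧ SA y ∧ x.sum + y.sum = 0) *
        mark (fun u => I (u = v)) y := by
        refine Ex_mono fun x => Ex_mono fun y => mul_le_mul'
          (I_mono fun e => ⟨e.1.1.right, e.2.2.1, e.2.1⟩) (le_trans (I_mono fun e => ?_) (I_ob y v))
        exact e.resolve_left id
    _ ≤ _ := by
        simp only [Ex_mark]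
        rw [Ex_comm, ker, ← Ex_cmul]
        refine Ex_mono fun b => ?_
        rw [Ex_mulc, ← mul_assoc, I_congr (P := -b.sum = v) (Q := b.sum = -v) neg_eq_iff_eq_neg]
        refine mul_le_mul' (le_trans ?_ (mul_le_mul' (H.open (-b.sum)) le_rfl)) le_rfl
        simp only [← Ex_mulc]
        refine Ex_mono fun x => Ex_mono fun a => ?_
        rw [← I_and, ← I_and, ← I_and, List.sum_append, ← add_assoc]
        exact I_mono fun e => ⟨⟨⟨e.1, e.2.1.left⟩, eq_neg_of_add_eq_zero_left e.2.2⟩, e.2.1.right⟩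

theorem Hyp.k2 (H : Hyp π ω B τ ε r k n) (hr : r ≤ n) (h : K ω N φ) :
    K ω ((r + 1 : ℕ) * B * (3 * (B + 1)) * (8 * (B + 1) ^ 3 + 10 * (B + 1) ^ 4 * τ * N))
      fun A => t2 π r (r + 2 * k) A (er ω φ) := by
  set G : V → ℝ≥0∞ := ker π fun l => I (SA l) with hG
  set Γ : V → ℝ≥0∞ := fun v => (1 + ω v) * G (-v) with hΓ
  have hΓ2 : L2 Γ (B + 1) := H.WG.neg.mono (fun v => by
    rw [ker_mul (fun l => I (SA l)) fun u => 1 + ω u, H.even]) le_rfl
  set ν : List V → ℝ≥0∞ := fun f => B * B * (I (SA f ∧ 2 * k ≤ f.length) * Γ f.sum) with hν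
  have hB : B * B ≤ (B + 1) ^ 2 := by rw [pow_two]; gcongr <;> exact le_self_add
  have hm : Ex π (fun l => ν l * (1 + ω l.sum)) ≤ 2 * (B + 1) ^ 3 * τ := by
    simp only [hν, mul_assoc (B * B), Ex_cmul, mul_right_comm _ (Γ _)]
    calc _ ≤ (B + 1) ^ 2 * (2 * τ * (B + 1)) := mul_le_mul' hB (le_trans (Ex_mono fun l => by
            gcongr; exact I_mono fun e => ⟨e.1, by omega⟩) (Ex_pair H.WT hΓ2))
      _ = _ := by ring
  have h1 := H.jump h (j := 3 * (B + 1) ^ 4 * τ) hm fun γ hγ => by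
    simp only [hν, mul_assoc (B * B), Ex_cmul, Ex_mark]
    calc _ ≤ (B + 1) ^ 2 * Ex π fun b => τ * (B + 1) * (I (SA b) *
          ((1 + ω (-b.sum)) * γ (-b.sum))) + B * (B + 1) * (I (SA b ∧ k ≤ b.length) *
          ((1 + ω (-b.sum)) * γ (-b.sum))) := by
          refine mul_le_mul' hB (Ex_mono fun b => ?_)
          rw [← mul_assoc (τ * (B + 1)), ← mul_assoc (B * (B + 1)), ← add_mul]
          refine mul_le_mul' (le_trans ?_ (add_le_add
            (mul_le_mul' (Ex_pair H.tail (hΓ2.sub (-b.sum))) le_rfl)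
            (mul_le_mul' (Ex_pair H.gB (hΓ2.sub (-b.sum))) le_rfl))) le_rfl
          rw [← Ex_mulc, ← Ex_mulc, ← Ex_add]
          refine Ex_mono fun a => I_mul_le fun e => ?_
          rw [sub_neg_eq_add, List.sum_append]
          rcases le_or_gt k a.length with h3 | h3
          · rw [I_pos ⟨e.1.left, h3⟩, I_pos e.1.right, one_mul, mul_one]; exact le_self_add
          · rw [I_pos e.1.left, I_pos (P := SA b ∧ _)
              ⟨e.1.right, by have := e.2; rw [List.length_append] at this; omega⟩, one_mul, mul_one]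
            exact le_add_self
      _ ≤ (B + 1) ^ 2 * (τ * (B + 1) * ((B + 1) * N) + (B + 1) * (B + 1) * (2 * τ * N)) := by
          rw [Ex_add, Ex_cmul, Ex_cmul]
          gcongr
          exacts [H.pair H.WG hγ, le_self_add, H.pair H.WT hγ]
      _ = _ := by ring
  have h2 := H.jumpP ((h1.cmul 2).add (K.const (8 * (B + 1) ^ 3))) (P := fun j => j < r + 1)
    (c := (r + 1 : ℕ) * B) (fun _ e => by omega) fun j =>
      le_trans (Ex_mono fun l => I_mono fun e => ⟨e.1, by omega⟩) (H.aLt (r + 1))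
  refine h2.mono (fun A => Ex_mono' fun p hp => ?_) (mul_le_mul' le_rfl ?_)
  · by_cases h3 : SA p ∧ p.length < r + 1
    swap
    · refine le_trans (Ex_mono fun x => I_mul_le fun e => Ex_mono fun y => I_mul_le fun e' =>
        absurd ⟨e'.1.1.left, by omega⟩ h3) ((Ex_mono fun x => Ex_zero.le).trans ?_)
      rw [Ex_zero]; exact zero_le
    have h4 : 1 + ω p.sum ≤ 2 := by
      rw [← one_add_one_eq_two]
      exact add_le_add le_rfl ((H.loc p hp (by omega)).trans H.τ1)
    rw [I_pos h3, one_mul]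
    calc _ ≤ Ex π fun x => Ex π fun y => Ex π fun f => I (Lp A p x y) * I (f.sum ∈ ob ∅ y) *
          (I (SA f ∧ 2 * k ≤ f.length) * ((1 + ω f.sum) *
            (2 * φ (ob (ob A p) f) + 4 * (1 + ω f.sum)))) := by
          refine Ex_mono fun x => I_mul_le fun e => Ex_mono fun y => ?_
          rw [← Ex_cmul]
          refine Ex_mono fun f => ?_
          rw [mul_assoc]
          refine mul_le_mul' le_rfl (I_mul_le fun e1 => I_mul_le_I fun e2 => ⟨e2.2.1, ?_⟩)
          have h5 : 1 + ω (p.sum + f.sum) ≤ 2 * (1 + ω f.sum) :=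
            (H.mul _ _).trans (mul_le_mul' h4 le_rfl)
          rw [I_pos ⟨e1.1, by have := e2.1; omega⟩, one_mul, er]
          calc _ ≤ 2 * (1 + ω f.sum) * φ (ob (ob A p) f) +
                2 * (1 + ω f.sum) * (2 * (1 + ω f.sum)) := by
                gcongr <;> exact le_add_self.trans h5
            _ = _ := by ring
      _ ≤ Ex π fun f => 2 * (ν f * φ (ob (ob A p) f)) + 4 * (ν f * (1 + ω f.sum)) := by
          simp only [fun x => Ex_comm (π := π) (π' := π) fun y f => I (Lp A p x y) *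
            I (f.sum ∈ ob ∅ y) * (I (SA f ∧ 2 * k ≤ f.length) * ((1 + ω f.sum) *
              (2 * φ (ob (ob A p) f) + 4 * (1 + ω f.sum))))]
          rw [Ex_comm]
          refine Ex_mono fun f => ?_
          simp only [Ex_mulc]
          refine (mul_le_mul' (H.late A p f.sum) le_rfl).trans (le_of_eq ?_)
          simp only [hν, hΓ]
          ring
      _ ≤ _ := by
          rw [Ex_add, Ex_cmul, Ex_cmul]
          refine add_le_add le_rfl ((mul_le_mul' le_rfl (hm.trans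
            (mul_le_mul' le_rfl H.τ1))).trans (le_of_eq (by ring)))
  · calc _ ≤ 2 * ((2 * (B + 1) ^ 4 * τ + 3 * (B + 1) ^ 4 * τ) * N) + 8 * (B + 1) ^ 3 := by
          gcongr
          · exact le_add_self
          · norm_num
      _ = _ := by ring

end Pool.Agent.Lib.BU59
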