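import Pool.Agent.Lib.BU59.Cone

/-! The second moment of the end point among obstacles is close to the free one. -/

namespace Pool.Agent.Lib.BU59

open Pool.Agent.Lib.BU93 ENNReal Filter Topology

/-- `X` and `Y` differ by at most `e` -/
def Cl (e X Y : ℝ≥0∞) : Prop := X ≤ Y + e ∧ Y ≤ X + e

section
variable {e e' X X' Y Y' : ℝ≥0∞}

theorem Cl.mono (h : Cl e X Y) (he : e ≤ e') : Cl e' X Y :=
  ⟨h.1.trans (add_le_add le_rfl he), h.2.trans (add_le_add le_rfl he)⟩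

theorem Cl.add (h : Cl e X Y) (h' : Cl e' X' Y') : Cl (e + e') (X + X') (Y + Y') :=
  ⟨(add_le_add h.1 h'.1).trans (le_of_eq (by ring)), (add_le_add h.2 h'.2).trans (le_of_eq (by ring))⟩

theorem Cl.cmul (h : Cl e X Y) (c : ℝ≥0∞) : Cl (c * e) (c * X) (c * Y) :=
  ⟨by rw [← mul_add]; exact mul_le_mul' le_rfl h.1, by rw [← mul_add]; exact mul_le_mul' le_rfl h.2⟩

theorem Cl.trans (h : Cl e X Y) (h' : Cl e' Y Y') : Cl (e + e') X Y' :=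
  ⟨h.1.trans ((add_le_add h'.1 le_rfl).trans (le_of_eq (by ring))),
    h'.2.trans ((add_le_add h.2 le_rfl).trans (le_of_eq (by ring)))⟩

theorem Cl.div {b : ℝ≥0∞} (b0 : b ≠ 0) (hb : b ≠ ⊤) (h : Cl (b * e) (b * X) (b * Y)) : Cl e X Y := by
  unfold Cl at h
  rwa [← mul_add, ← mul_add, ENNReal.mul_le_mul_iff_right b0 hb,
    ENNReal.mul_le_mul_iff_right b0 hb] at h

theorem Cl.cancel {P P' : ℝ≥0∞} (h : Cl e P P') (h' : Cl e' (X + P) (Y + P')) (hP : P' ≠ ⊤) :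
    Cl (e + e') X Y := by
  rcases eq_or_ne e ⊤ with rfl | he
  · exact ⟨by simp, by simp⟩
  have h1 : P ≠ ⊤ := ne_top_of_le_ne_top (add_ne_top.2 ⟨hP, he⟩) h.1
  exact ⟨(ENNReal.add_le_add_iff_right h1).1 (h'.1.trans
      ((add_le_add (add_le_add le_rfl h.2) le_rfl).trans (le_of_eq (by ring)))),
    (ENNReal.add_le_add_iff_right hP).1 (h'.2.trans
      ((add_le_add (add_le_add le_rfl h.1) le_rfl).trans (le_of_eq (by ring))))⟩

end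

variable {V : Type} [AddCommGroup V] {π ω : V → ℝ≥0∞} {B τ ε : ℝ≥0∞} {r k n R : ℕ} {A : Set V}

section
variable {U U' e : Set V → V → ℝ≥0∞} {F F' E : V → ℝ≥0∞} {c b : ℝ≥0∞}

theorem t3_lin (h : ∀ A δ, U A δ ≤ U' A δ + c * e A δ) :
    t3 π r A U ≤ t3 π r A U' + c * t3 π r A e := by
  simp only [t3, ← Ex_cmul, ← Ex_add]
  refine Ex_mono fun g => Ex_mono fun f => ?_
  grw [h]
  exact le_of_eq (by ring)

theorem t2_lin (h : ∀ A δ, U A δ ≤ U' A δ + c * e A δ) :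
    t2 π r R A U ≤ t2 π r R A U' + c * t2 π r R A e := by
  simp only [t2, ← Ex_cmul, ← Ex_add]
  refine Ex_mono fun p => Ex_mono fun x => Ex_mono fun y => Ex_mono fun f => ?_
  grw [h]
  exact le_of_eq (by ring)

theorem tL_lin (h : ∀ A δ, U A δ ≤ U' A δ + c * e A δ) :
    tL π r R A b U ≤ tL π r R A b U' + c * tL π r R A b e := by
  simp only [tL, ← Ex_cmul, ← Ex_add]
  refine Ex_mono fun g => ?_
  grw [h]
  exact le_of_eq (by ring)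

theorem tF_lin (h : ∀ δ, U ∅ δ ≤ U' ∅ δ + c * e ∅ δ) :
    tF π r A U ≤ tF π r A U' + c * tF π r A e := by
  simp only [tF, ← Ex_cmul, ← Ex_add]
  refine Ex_mono fun g => ?_
  grw [h]
  exact le_of_eq (by ring)

theorem tS_lin (h : ∀ v, F v ≤ F' v + E v) : tS π R A F ≤ tS π R A F' + tS π R A E := by
  simp only [tS, ← Ex_add]
  refine Ex_mono fun g => ?_
  grw [h]
  exact le_of_eq (by ring)

theorem tS'_lin (h : ∀ v, F v ≤ F' v + E v) : tS' π r R A F ≤ tS' π r R A F' + tS' π r R A E := by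
  simp only [tS', ← Ex_cmul, ← Ex_add]
  refine Ex_mono fun p => Ex_mono fun x => Ex_mono fun y => Ex_mono fun f => ?_
  grw [h]
  exact le_of_eq (by ring)

theorem Vv_lin (h : ∀ v, F v ≤ F' v + E v) : Vv π A F ≤ Vv π A F' + Vv π A E := by
  simp only [Vv, ← Ex_add]
  refine Ex_mono fun g => ?_
  grw [h]
  exact le_of_eq (by ring)

theorem Hyp.tS'_le (H : Hyp π ω B τ ε r k n) (hr : r ≤ R) (hn : R ≤ n)
    (h : ∀ a b : V, ω a ≤ 1 → ω b ≤ 1 → F (a + b) ≤ c) :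
    tS' π r R A F ≤ B * B * ((R + 1 : ℕ) * B * ((R + 1 : ℕ) * B) * c) := by
  calc _ ≤ Ex π fun p => I (SA p ∧ p.length < R + 1) * (B * B * ((R + 1 : ℕ) * B * c)) := by
        refine Ex_mono' fun p hp => le_trans (b := Ex π fun x => Ex π fun y =>
          I (SA p ∧ p.length < R + 1) * (I (SA x) * I (SA y) * I (x.sum + y.sum = 0) *
            ((R + 1 : ℕ) * B * c))) (Ex_mono fun x => I_mul_le fun e => Ex_mono fun y =>
          ?_) ((le_of_eq ?_).trans (mul_le_mul' le_rfl (mul_le_mul' (H.open 0) le_rfl)))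
        · refine I_mul_le_I fun e1 => ⟨⟨e1.1.1.left, by omega⟩, ?_⟩
          rw [I_pos e1.1.1.right, I_pos e1.2.2.1, I_pos e1.2.1, one_mul, one_mul, one_mul]
          refine le_trans (Ex_mono' fun f hf => I_mul_le fun e2 => I_mul_le_I fun e3 =>
            ⟨⟨e3.1, by omega⟩, I_mul_le fun _ => h _ _ ((H.loc p hp (by omega)).trans H.τ1)
              ((H.loc f hf (by omega)).trans H.τ1)⟩)
            ((Ex_mulc _ _).le.trans (mul_le_mul' (H.aLt (R + 1)) le_rfl))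
        · simp only [Ex_cmul, Ex_mulc]
    _ ≤ _ := by
        rw [Ex_mulc]
        exact (mul_le_mul' (H.aLt _) le_rfl).trans (le_of_eq (by ring))

theorem Hyp.tS_le (H : Hyp π ω B τ ε r k n) (hn : R ≤ n) (h : ∀ a : V, ω a ≤ 1 → F a ≤ c) :
    tS π R A F ≤ (R + 1 : ℕ) * B * c :=
  le_trans (Ex_mono' fun f hf => I_mul_le fun e2 => I_mul_le_I fun e3 =>
    ⟨⟨e3.1, by omega⟩, h _ ((H.loc f hf (by omega)).trans H.τ1)⟩)
    ((Ex_mulc _ _).le.trans (mul_le_mul' (H.aLt (R + 1)) le_rfl))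

end

/-- the squared displaced coordinate -/
noncomputable def sq (ℓ : V →+ ℝ) (q : ℝ) (v : V) : ℝ≥0∞ := ENNReal.ofReal ((q + ℓ v) ^ 2)

/-- susceptibility -/
noncomputable def χ (π : V → ℝ≥0∞) : ℝ≥0∞ := Vv π ∅ fun _ => 1

/-- squared correlation length -/
noncomputable def ξ (π : V → ℝ≥0∞) (ℓ : V →+ ℝ) : ℝ≥0∞ := Vv π ∅ (sq ℓ 0) / χ π

/-- compatibility of the weights -/
structure Wt (ℓ : V →+ ℝ) (Λ : ℝ → ℝ≥0∞) (ω : V → ℝ≥0∞) (ρ : ℝ≥0∞) : Prop where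
  one_le : ∀ q, 1 ≤ Λ q
  shift : ∀ q v, Λ (q + ℓ v) ≤ Λ q * (1 + ω v)
  close : ∀ q v, Cl (Λ q * (ρ * (ω v * ω v))) (sq ℓ q v) (ENNReal.ofReal (q ^ 2))

/-- `φ` bounds the discrepancy -/
def Hd (π : V → ℝ≥0∞) (ℓ : V →+ ℝ) (Λ : ℝ → ℝ≥0∞) (ρ : ℝ≥0∞) (φ : Set V → ℝ≥0∞) : Prop :=
  ∀ A q, Cl (χ π * ρ * Λ q * φ A) (Vv π A (sq ℓ q))
    (Vv π A fun _ => ENNReal.ofReal (q ^ 2) + ξ π ℓ)

variable {ℓ : V →+ ℝ} {Λ : ℝ → ℝ≥0∞} {ρ : ℝ≥0∞} {φ ψ : Set V → ℝ≥0∞}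

theorem one_le_χ : 1 ≤ χ π := by
  refine le_trans ?_ (nil_le_Ex _)
  rw [I_pos (ok_empty.2 fun i j hi hj _ => by simp at hi hj; omega), one_mul]

theorem Vv_const (c : ℝ≥0∞) : Vv π A (fun _ => c) = Vv π A (fun _ => 1) * c := by
  simp only [Vv, mul_one, Ex_mulc]

theorem Vv_const_le (c : ℝ≥0∞) : Vv π A (fun _ => c) ≤ χ π * c := by
  rw [Vv_const]
  exact mul_le_mul' (Ex_mono fun f => I_mul_le_I fun e => ⟨ok_empty.2 e.1, le_rfl⟩) le_rfl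

theorem χ_ξ (hχ : χ π ≠ ⊤) : χ π * ξ π ℓ = Vv π ∅ (sq ℓ 0) :=
  ENNReal.mul_div_cancel (zero_lt_one.trans_le one_le_χ).ne' hχ

theorem Vv_free (hπ : ∀ e, π (-e) = π e) (hχ : χ π ≠ ⊤) (q : ℝ) :
    Vv π ∅ (sq ℓ q) = Vv π ∅ fun _ => ENNReal.ofReal (q ^ 2) + ξ π ℓ := by
  have h1 : Vv π ∅ (sq ℓ q) = Ex π fun f => I (Ok ∅ f) * sq ℓ q (-f.sum) := by
    unfold Vv
    rw [← Ex_neg hπ]
    simp only [ok_empty, SA_neg, sum_map_neg]
  refine (ENNReal.mul_right_inj (a := 2) (by simp) (by simp)).1 ?_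
  rw [Vv_const (_ + _), mul_add, ← χ, χ_ξ hχ, χ, ← Vv_const, two_mul (Vv π ∅ (sq ℓ q))]
  nth_rw 2 [h1]
  simp only [Vv, ← Ex_add, ← Ex_cmul]
  refine Ex_congr fun f => ?_
  rw [← mul_add, ← mul_add, mul_left_comm, sq, sq, sq, two_mul,
    ← ofReal_add (sq_nonneg _) (sq_nonneg _), ← ofReal_add (sq_nonneg _) (sq_nonneg _),
    ← ofReal_add (by positivity) (by positivity), map_neg]
  congr 2
  ring

theorem Wt.shift_cl (W : Wt ℓ Λ ω ρ) {A : Set V} {x : ℝ≥0∞} (q : ℝ) (δ : V)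
    (h : Cl (χ π * ρ * Λ (q + ℓ δ) * x) (Vv π A (sq ℓ (q + ℓ δ)))
      (Vv π A fun _ => ENNReal.ofReal ((q + ℓ δ) ^ 2) + ξ π ℓ)) :
    Cl (χ π * ρ * Λ q * ((1 + ω δ) * x + ω δ * ω δ)) (UU π (sq ℓ q) A δ)
      (UU π (fun _ => ENNReal.ofReal (q ^ 2) + ξ π ℓ) A δ) := by
  have h1 : UU π (sq ℓ q) A δ = Vv π A (sq ℓ (q + ℓ δ)) := by
    simp only [UU, sq, map_add, ← add_assoc]
    rfl
  have h2 := W.close q δ
  have h3 : Cl (Vv π A fun _ => Λ q * (ρ * (ω δ * ω δ)))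
      (Vv π A fun _ => ENNReal.ofReal ((q + ℓ δ) ^ 2) + ξ π ℓ)
      (Vv π A fun _ => ENNReal.ofReal (q ^ 2) + ξ π ℓ) :=
    ⟨Vv_lin fun _ => (add_le_add h2.1 le_rfl).trans (le_of_eq (by ring)),
      Vv_lin fun _ => (add_le_add h2.2 le_rfl).trans (le_of_eq (add_right_comm _ _ _))⟩
  rw [h1]
  refine (h.trans h3).mono ?_
  grw [W.shift q δ, Vv_const_le]
  exact le_of_eq (by ring)

theorem Wt.point (W : Wt ℓ Λ ω ρ) (x : ℝ≥0∞) (q : ℝ) (v : V) :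
    Cl (Λ q * (ρ * (ω v * ω v) + x)) (sq ℓ q v) (ENNReal.ofReal (q ^ 2) + x) := by
  have h := W.close q v
  have h1 : x ≤ Λ q * x := le_mul_of_one_le_left' (W.one_le q)
  rw [mul_add]
  exact ⟨h.1.trans (add_le_add le_self_add le_self_add),
    (add_le_add h.2 h1).trans (le_of_eq (add_assoc _ _ _))⟩

/-- assumptions on the size of the scale -/
structure Sc (π : V → ℝ≥0∞) (ℓ : V →+ ℝ) (ω : V → ℝ≥0∞) (B ρ : ℝ≥0∞) (R : ℕ) : Prop where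
  symm : ∀ e, π (-e) = π e
  B1 : 1 ≤ B
  Bt : B ≠ ⊤
  χt : χ π ≠ ⊤
  ξt : ξ π ℓ ≠ ⊤
  ρ0 : ρ ≠ 0
  ρt : ρ ≠ ⊤
  ωt : Vv π ∅ (fun v => ω v * ω v) ≠ ⊤
  short : (R + 1 : ℕ) * B * ((R + 1 : ℕ) * B) * (ρ * 4 + ξ π ℓ) ≤ χ π * ρ

theorem Hyp.step (H : Hyp π ω B τ ε r k n) (W : Wt ℓ Λ ω ρ) (S : Sc π ℓ ω B ρ R) (hr : r ≤ R)
    (hn : R ≤ n) {κ : ℝ≥0∞} (hκ : (B * B - 1) * (1 + τ) ≤ B * B * κ)
    (hφ : Hd π ℓ Λ ρ φ) (hψ : Hd π ℓ Λ ρ ψ) :
    Hd π ℓ Λ ρ fun A => 2 + 2 * B + t3 π r A (er ω φ) + t2 π r R A (er ω φ) + κ * Pn π R ψ A := by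
  intro A q
  have hb : ∀ h, θ π r A h ≤ B * B := fun h => (θ_le r A h).trans (H.open 0)
  have b1 : 1 ≤ B * B := one_le_mul S.B1 S.B1
  have hBt := S.Bt
  have hχ := S.χt
  have hξ := S.ξt
  set c := χ π * ρ * Λ q with hc
  set F : V → ℝ≥0∞ := fun _ => ENNReal.ofReal (q ^ 2) + ξ π ℓ with hF
  have p := W.point (ξ π ℓ) q
  have sφ := fun A δ => W.shift_cl q δ (hφ A (q + ℓ δ))
  have sψ := fun A δ => W.shift_cl q δ (hψ A (q + ℓ δ))
  have s0 := fun δ => W.shift_cl (π := π) (A := ∅) (x := 0) q δ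
    (by rw [Vv_free S.symm hχ]; exact ⟨le_self_add, le_self_add⟩)
  have hE : ∀ a b : V, ω a ≤ 1 → ω b ≤ 1 →
      Λ q * (ρ * (ω (a + b) * ω (a + b)) + ξ π ℓ) ≤ Λ q * (ρ * 4 + ξ π ℓ) := fun a b ha hb => by
    grw [H.sub, ha, hb]
    norm_num
  have hs : (R + 1 : ℕ) * B * ((R + 1 : ℕ) * B) * (Λ q * (ρ * 4 + ξ π ℓ)) ≤ c := by
    rw [mul_left_comm, mul_comm (Λ q)]; exact mul_le_mul' S.short le_rfl
  have R1 : 1 ≤ ((R + 1 : ℕ) : ℝ≥0∞) * B := one_le_mul (by simp) S.B1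
  have cS : Cl c (tS π R A (sq ℓ q)) (tS π R A F) :=
    Cl.mono ⟨tS_lin fun v => (p v).1, tS_lin fun v => (p v).2⟩ ((H.tS_le hn fun a ha => by
      simpa using hE a 0 ha ((H.loc [] (by simp [wt]) (Nat.zero_le _)).trans H.τ1)).trans
        (le_trans (mul_le_mul' (le_mul_of_one_le_left' R1) le_rfl) hs))
  have cS' : Cl (B * B * c) (tS' π r R A (sq ℓ q)) (tS' π r R A F) :=
    Cl.mono ⟨tS'_lin fun v => (p v).1, tS'_lin fun v => (p v).2⟩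
      ((H.tS'_le hr hn hE).trans (mul_le_mul' le_rfl hs))
  have c3 : Cl (c * t3 π r A (er ω φ)) (t3 π r A (UU π (sq ℓ q))) (t3 π r A (UU π F)) :=
    ⟨t3_lin fun A δ => (sφ A δ).1, t3_lin fun A δ => (sφ A δ).2⟩
  have c2 : Cl (c * t2 π r R A (er ω φ)) (t2 π r R A (UU π (sq ℓ q))) (t2 π r R A (UU π F)) :=
    ⟨t2_lin fun A δ => (sφ A δ).1, t2_lin fun A δ => (sφ A δ).2⟩
  have cL : Cl (c * tL π r R A (B * B) (er ω ψ)) (tL π r R A (B * B) (UU π (sq ℓ q)))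
      (tL π r R A (B * B) (UU π F)) :=
    ⟨tL_lin fun A δ => (sψ A δ).1, tL_lin fun A δ => (sψ A δ).2⟩
  have cF : Cl (c * tF π r A (er ω fun _ => 0)) (tF π r A (UU π (sq ℓ q))) (tF π r A (UU π F)) :=
    ⟨tF_lin fun δ => (s0 δ).1, tF_lin fun δ => (s0 δ).2⟩
  have bF : tF π r A (er ω fun _ => 0) ≤ B := by
    refine le_trans (Ex_mono' fun g hg => I_mul_le fun e => I_mul_le fun e1 => ?_) (H.aB r)
    have := (H.loc g hg (by omega)).trans H.τ1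
    rw [I_pos ⟨e1.1, e⟩, er, mul_zero, zero_add]
    exact mul_le_one' this this
  have bL : tL π r R A (B * B) (er ω ψ) ≤ B * B * κ * Pn π R ψ A + B * B * B := by
    refine le_trans ?_ (add_le_add le_rfl (mul_le_mul' le_rfl (H.aB R)))
    rw [Pn, ← Ex_cmul, ← Ex_cmul, ← Ex_add]
    refine Ex_mono' fun g hg => I_mul_le fun e => I_mul_le fun e1 => ?_
    have h1 := H.loc g hg (by omega)
    have h2 := h1.trans H.τ1
    rw [I_pos e, I_pos e1, I_pos ⟨e1.1, e⟩, er, one_mul, one_mul, mul_add, ← mul_assoc]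
    exact add_le_add (mul_le_mul' (le_trans (mul_le_mul' (tsub_le_tsub_left
      (one_le_θ (by omega) e1) _) (add_le_add le_rfl h1)) hκ) le_rfl)
      (mul_le_mul' tsub_le_self (mul_le_one' h2 h2))
  have fin : tS' π r R A F + t3 π r A (UU π F) ≠ ⊤ := by
    refine add_ne_top.2 ⟨ne_top_of_le_ne_top ?_ (H.tS'_le (c := ENNReal.ofReal (q ^ 2) + ξ π ℓ) hr hn
      fun _ _ _ _ => le_rfl),
      ne_top_of_le_ne_top (b := B * (χ π * (χ π * F 0))) ?_ ?_⟩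
    · finiteness
    · rw [hF]; finiteness
    · refine le_trans (Ex_mono fun g => I_mul_le fun e => I_mul_le_I fun e1 => ⟨⟨e1.1, e⟩, ?_⟩)
        ((Ex_mulc _ _).le.trans (mul_le_mul' (H.aB r) le_rfl))
      refine le_trans (Ex_mono fun f => mul_le_mul' le_rfl (I_mul_le fun _ => ?_))
        (Vv_const_le (A := ∅) _)
      exact Vv_const_le _
  have h1 := (((cS.cmul (B * B)).add cF).add c2).add cL
  rw [← stage hr hb, ← stage hr hb, add_assoc (B * B * Vv _ _ _), add_assoc (B * B * Vv _ _ _)] at h1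
  refine Cl.div (b := B * B) (zero_lt_one.trans_le b1).ne' (by finiteness)
    (((cS'.add c3).cancel h1 fin).mono ?_)
  grw [bF, bL]
  calc _ = B * B * c * (2 + B + κ * Pn π R ψ A) +
        1 * (c * (t3 π r A (er ω φ) + t2 π r R A (er ω φ) + B)) := by ring
    _ ≤ B * B * c * (2 + B + κ * Pn π R ψ A) +
        B * B * (c * (t3 π r A (er ω φ) + t2 π r R A (er ω φ) + B)) := by gcongr
    _ = _ := by ring

/-- the constant of the contraction -/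
noncomputable def C1 (B : ℝ≥0∞) (r J : ℕ) : ℝ≥0∞ := (J + 1 : ℕ) * (3 * (B + 1) ^ 2) *
  (2 + 2 * B + (B + 1) + (r + 1 : ℕ) * B * (3 * (B + 1)) * (8 * (B + 1) ^ 3))

/-- the small parameter of the contraction -/
noncomputable def η (B τ ε : ℝ≥0∞) (r : ℕ) : ℝ≥0∞ :=
  ε * (B + 2) + (r + 1 : ℕ) * B * (3 * (B + 1)) * (10 * (B + 1) ^ 4 * τ)

theorem Hyp.contract (H : Hyp π ω B τ ε r k n) (W : Wt ℓ Λ ω ρ) (S : Sc π ℓ ω B ρ (r + 2 * k))
    {J : ℕ} (hn : (J + 1) * (r + 2 * k) ≤ n) {κ : ℝ≥0∞} (hκ : (B * B - 1) * (1 + τ) ≤ B * B * κ)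
    (κ1 : κ ≤ 1) (hc : (J + 1 : ℕ) * (3 * (B + 1) ^ 2) * η B τ ε r + κ ^ J * (3 * (B + 1) ^ 2) ≤ 2⁻¹) :
    ∃ φ, K ω (2 * C1 B r J + 1) φ ∧ Hd π ℓ Λ ρ φ := by
  set R := r + 2 * k with hR
  have hRn : R ≤ n := le_trans (Nat.le_mul_of_pos_left _ J.succ_pos) hn
  have st : ∀ N φ, K ω N φ → Hd π ℓ Λ ρ φ → ∃ ψ, K ω (C1 B r J + 2⁻¹ * N) ψ ∧ Hd π ℓ Λ ρ ψ := by
    intro N φ hK hφ
    have he := ((K.const (2 + 2 * B)).add (H.k3 (by omega) hK)).add (H.k2 (by omega) hK)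
    set e : Set V → ℝ≥0∞ := fun A => 2 + 2 * B + t3 π r A (er ω φ) + t2 π r R A (er ω φ)
    set Ne := 2 + 2 * B + (B + 1 + ε * (B + 2) * N) +
      (r + 1 : ℕ) * B * (3 * (B + 1)) * (8 * (B + 1) ^ 3 + 10 * (B + 1) ^ 4 * τ * N) with hNe
    have h1 : ∀ i : ℕ, ∃ ψ, Hd π ℓ Λ ρ ψ ∧ ∀ m, m + i * R ≤ n →
        K ω (i * (3 * (B + 1) ^ 2) * Ne + κ ^ i * (3 * (B + 1) ^ 2) * N) (Pn π m ψ) := by
      intro i
      induction i with
      | zero => exact ⟨φ, hφ, fun m hm => (H.kP hK (by omega)).mono (fun _ => le_rfl) (by simp)⟩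
      | succ i ih =>
        obtain ⟨ψ, h2, h3⟩ := ih
        refine ⟨_, H.step W S (by omega) hRn hκ hφ h2, fun m hm => ?_⟩
        rw [Nat.succ_mul] at hm
        refine ((H.kP he (m := m) (by omega)).add ((h3 (m + R) (by omega)).cmul κ)).mono
          (fun A => le_of_eq ?_) ?_
        · rw [← Pn_Pn, ← Pn_lin]
        · rw [mul_add κ]
          grw [mul_le_of_le_one_left' (a := i * _ * Ne) κ1]
          push_cast
          exact le_of_eq (by ring)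
    obtain ⟨ψ, h2, h3⟩ := h1 J
    refine ⟨_, (he.add ((h3 R (by rw [Nat.succ_mul] at hn; omega)).cmul κ)).mono
      (fun _ => le_rfl) ?_, H.step W S (by omega) hRn hκ hφ h2⟩
    have P1 : (1 : ℝ≥0∞) ≤ 3 * (B + 1) ^ 2 := one_le_mul (by norm_num) (one_le_pow₀ le_add_self)
    refine (add_le_add (le_mul_of_one_le_left' P1) (mul_le_of_le_one_left' κ1)).trans ?_
    grw [← hc]
    rw [hNe, C1, η]
    push_cast
    exact le_of_eq (by ring)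
  have hD : χ π * ρ ≠ 0 := mul_ne_zero (zero_lt_one.trans_le one_le_χ).ne' S.ρ0
  have hD' : χ π * ρ ≠ ⊤ := mul_ne_top S.χt S.ρt
  set N0 := Vv π ∅ (fun v => ρ * (ω v * ω v) + ξ π ℓ) / (χ π * ρ) with hN0
  have N0t : N0 ≠ ⊤ := by
    refine ENNReal.div_ne_top (ne_top_of_le_ne_top (add_ne_top.2 ⟨?_, ne_top_of_le_ne_top
      (mul_ne_top S.χt S.ξt) (Vv_const_le _)⟩) (Vv_lin fun _ => le_rfl)) hD
    simp only [Vv, mul_left_comm _ ρ, Ex_cmul]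
    exact mul_ne_top S.ρt S.ωt
  have h0 : Hd π ℓ Λ ρ fun _ => N0 := fun A q => by
    have p := W.point (ξ π ℓ) q
    refine Cl.mono ⟨Vv_lin fun v => (p v).1, Vv_lin fun v => (p v).2⟩ ?_
    rw [mul_right_comm, hN0, ENNReal.mul_div_cancel hD hD', Vv, Vv, ← Ex_mulc]
    exact Ex_mono fun f => I_mul_le fun e => by rw [I_pos (ok_empty.2 e.1), one_mul, mul_comm]
  have h1 : ∀ i : ℕ, ∃ φ, K ω (2 * C1 B r J + 2⁻¹ ^ i * N0) φ ∧ Hd π ℓ Λ ρ φ := by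
    intro i
    induction i with
    | zero => exact ⟨_, (K.const N0).mono (fun _ => le_rfl) (by simp), h0⟩
    | succ i ih =>
      obtain ⟨φ, h2, h3⟩ := ih
      obtain ⟨ψ, h4, h5⟩ := st _ φ h2 h3
      refine ⟨ψ, h4.mono (fun _ => le_rfl) (le_of_eq ?_), h5⟩
      rw [mul_add, ← mul_assoc, ENNReal.inv_mul_cancel (by simp) (by simp)]
      ring
  have h2 := ENNReal.Tendsto.mul_const (b := N0) (ENNReal.tendsto_pow_atTop_nhds_zero_of_lt_one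
    (r := 2⁻¹) (by simp)) (Or.inr N0t)
  rw [zero_mul] at h2
  obtain ⟨i, hi⟩ := (h2.eventually (ge_mem_nhds zero_lt_one)).exists
  obtain ⟨φ, h3, h4⟩ := h1 i
  exact ⟨φ, h3.mono (fun _ => le_rfl) (add_le_add le_rfl hi), h4⟩

end Pool.Agent.Lib.BU59
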