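import Pool.Agent.Lib.BU59.Blue

/-! The subadditive weight attached to a length scale. -/

namespace Pool.Agent.Lib.BU59

open ENNReal

/-- the normalised weight -/
noncomputable def Aw (z : ℝ) : ℝ := √(z ^ 2 + 2 * |z|)

theorem Aw_nonneg (z : ℝ) : 0 ≤ Aw z := Real.sqrt_nonneg _

theorem Aw_sq (z : ℝ) : Aw z * Aw z = z ^ 2 + 2 * |z| := Real.mul_self_sqrt (by positivity)

theorem abs_le_Aw (z : ℝ) : |z| ≤ Aw z :=
  Real.le_sqrt_of_sq_le (by rw [sq_abs]; linarith [abs_nonneg z])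

theorem Aw_add (x y : ℝ) : Aw (x + y) ≤ Aw x + Aw y := by
  refine Real.sqrt_le_iff.2 ⟨add_nonneg (Aw_nonneg x) (Aw_nonneg y), ?_⟩
  have h1 := mul_le_mul (abs_le_Aw x) (abs_le_Aw y) (abs_nonneg y) (Aw_nonneg x)
  have h2 : x * y ≤ |x| * |y| := by rw [← abs_mul]; exact le_abs_self _
  nlinarith [Aw_sq x, Aw_sq y, abs_add_le x y]

/-- the properties of the weights at the squared length scale `L` -/
structure Nw {V : Type} [AddCommGroup V] (ℓ : V →+ ℝ) (L : ℝ≥0∞) (Λ : ℝ → ℝ≥0∞)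
    (a : V → ℝ≥0∞) : Prop where
  sub : ∀ x y, a (x + y) ≤ a x + a y
  even : ∀ x, a (-x) = a x
  zero : Λ 0 = 1
  one_le : ∀ q, 1 ≤ Λ q
  mul : ∀ p q, Λ (p + q) ≤ Λ p * Λ q
  le : ∀ v, Λ (ℓ v) ≤ 1 + a v
  close : ∀ q v, Cl (Λ q * (L * (a v * a v))) (sq ℓ q v) (ENNReal.ofReal (q ^ 2))
  second : ∀ y v, y ≤ 1 → L * (y * y) * (a v * a v) ≤ 2 * sq ℓ 0 v + L * (y * y) * (y * y)
  first : ∀ v, L * Λ (ℓ v) ≤ 2 * L + sq ℓ 0 v
  loc : ∀ (n : ℕ) y v, |ℓ v| ≤ n → 1 ≤ L * y ^ 4 → a v ≤ 2 * n * y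

theorem exists_nw {V : Type} [AddCommGroup V] (ℓ : V →+ ℝ) {L : ℝ≥0∞} (h1 : 1 ≤ L) (ht : L ≠ ⊤) :
    ∃ Λ a, Nw ℓ L Λ a := by
  obtain ⟨s, s1, rfl⟩ : ∃ s : ℝ, 1 ≤ s ∧ L = ENNReal.ofReal (s * s) :=
    ⟨√L.toReal, Real.one_le_sqrt.2 (by simpa using toReal_mono ht h1), by
      rw [Real.mul_self_sqrt toReal_nonneg, ofReal_toReal ht]⟩
  have s0 : 0 < s := by linarith
  have ss : 0 ≤ s * s := by positivity
  have hA : ∀ x : ℝ, s * s * (Aw (x / s) * Aw (x / s)) = x ^ 2 + 2 * s * |x| := fun x => by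
    rw [Aw_sq, abs_div, abs_of_pos s0]; field_simp
  have two : (2 : ℝ≥0∞) = ENNReal.ofReal 2 := by simp
  refine ⟨fun q => ENNReal.ofReal (1 + |q| / s), fun v => ENNReal.ofReal (Aw (ℓ v / s)),
    fun x y => ?_, fun x => ?_, by simp, fun q => ?_, fun p q => ?_, fun v => ?_, fun q v => ?_,
    fun y v hy => ?_, fun v => ?_, fun n y v hv hy => ?_⟩
  · rw [← ofReal_add (Aw_nonneg _) (Aw_nonneg _), map_add, add_div]
    exact ofReal_le_ofReal (Aw_add _ _)
  · simp [Aw, neg_div]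
  · exact one_le_ofReal.2 (le_add_of_nonneg_right (by positivity))
  · rw [← ofReal_mul (by positivity)]
    refine ofReal_le_ofReal ?_
    have h2 := div_le_div_of_nonneg_right (abs_add_le p q) s0.le
    have h3 : 0 ≤ |p| / s * (|q| / s) := by positivity
    rw [add_div] at h2
    nlinarith
  · rw [ofReal_add zero_le_one (by positivity), ofReal_one]
    refine add_le_add le_rfl (ofReal_le_ofReal ?_)
    have := abs_le_Aw (ℓ v / s)
    rwa [abs_div, abs_of_pos s0] at this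
  · have h2 : (1 + |q| / s) * ((ℓ v) ^ 2 + 2 * s * |ℓ v|) =
        (ℓ v) ^ 2 + 2 * s * |ℓ v| + |q| / s * (ℓ v) ^ 2 + 2 * (|q| * |ℓ v|) := by field_simp; ring
    have h3 : 0 ≤ |q| / s * (ℓ v) ^ 2 := by positivity
    have h4 : 0 ≤ s * |ℓ v| := by positivity
    have h5 := abs_le.1 (abs_mul q (ℓ v)).le
    unfold Cl sq
    rw [← ofReal_mul (Aw_nonneg _), ← ofReal_mul ss, hA, ← ofReal_mul (by positivity),
      ← ofReal_add (by positivity) (by positivity), ← ofReal_add (by positivity) (by positivity), h2]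
    exact ⟨ofReal_le_ofReal (by nlinarith), ofReal_le_ofReal (by nlinarith [sq_nonneg (ℓ v)])⟩
  · obtain ⟨t, t0, rfl⟩ : ∃ t : ℝ, 0 ≤ t ∧ y = ENNReal.ofReal t :=
      ⟨y.toReal, toReal_nonneg, (ofReal_toReal (ne_top_of_le_ne_top one_ne_top hy)).symm⟩
    have t1 : t ≤ 1 := ofReal_le_one.1 hy
    rw [mul_right_comm, ← ofReal_mul (Aw_nonneg _), ← ofReal_mul ss, hA, ← ofReal_mul t0,
      ← ofReal_mul (by positivity), ← ofReal_mul ss, ← ofReal_mul (by positivity), sq, two,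
      ← ofReal_mul (by positivity), ← ofReal_add (by positivity) (by positivity), zero_add]
    refine ofReal_le_ofReal ?_
    have h2 : (ℓ v) ^ 2 * (t * t) ≤ (ℓ v) ^ 2 :=
      mul_le_of_le_one_right (by positivity) (mul_le_one₀ t1 t0 t1)
    nlinarith [sq_nonneg (|ℓ v| - s * (t * t)), sq_abs (ℓ v)]
  · rw [← ofReal_mul ss, sq, two, ← ofReal_mul (by positivity),
      ← ofReal_add (by positivity) (by positivity), zero_add]
    refine ofReal_le_ofReal ?_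
    have h2 : s * s * (1 + |ℓ v| / s) = s * s + s * |ℓ v| := by field_simp
    nlinarith [sq_nonneg (|ℓ v| - s), sq_abs (ℓ v)]
  · rcases Nat.eq_zero_or_pos n with rfl | hn
    · have : ℓ v = 0 := by simpa using hv
      simp [this, Aw]
    rcases eq_or_ne y ⊤ with rfl | hy'
    · rw [mul_top (by simp; omega)]; exact le_top
    obtain ⟨t, t0, rfl⟩ : ∃ t : ℝ, 0 ≤ t ∧ y = ENNReal.ofReal t :=
      ⟨y.toReal, toReal_nonneg, (ofReal_toReal hy').symm⟩
    rw [← ofReal_pow t0, ← ofReal_mul ss, one_le_ofReal] at hy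
    rw [two, ← ofReal_natCast, ← ofReal_mul (by positivity), ← ofReal_mul (by positivity)]
    refine ofReal_le_ofReal (abs_le_of_sq_le_sq' ?_ (by positivity)).2
    have h2 : 1 ≤ s * (t * t) := by
      by_contra h3
      have h4 : 0 ≤ s * (t * t) := by positivity
      nlinarith
    have n1 : (1 : ℝ) ≤ n := by exact_mod_cast hn
    have h3 : (ℓ v) ^ 2 ≤ n ^ 2 := by rw [← sq_abs]; gcongr
    refine le_of_mul_le_mul_left ?_ (mul_pos s0 s0)
    rw [pow_two (Aw _), hA]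
    have h4 : s * |ℓ v| ≤ s * n ^ 2 := by gcongr; nlinarith
    have h5 : (n : ℝ) ^ 2 ≤ s * n ^ 2 := le_mul_of_one_le_left (by positivity) s1
    have h6 : s * n ^ 2 ≤ s * n ^ 2 * (s * (t * t)) := le_mul_of_one_le_right (by positivity) h2
    have h7 : 0 ≤ s * (n : ℝ) ^ 2 := by positivity
    nlinarith

end Pool.Agent.Lib.BU59
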