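import Pool.Agent.Lib.BU59.Two
import Pool.Agent.Lib.BU59.Nw

/-! A finite bubble diagram implies the diffusive bound. -/

namespace Pool.Agent.Lib.BU59

open Pool.Agent.Lib.BU93 ENNReal Filter Topology

variable {V : Type} [AddCommGroup V] {π : V → ℝ≥0∞} {B : ℝ≥0∞}

theorem small {C δ : ℝ≥0∞} (hC : C ≠ ⊤) (hδ : δ ≠ 0) : ∃ x, x ≠ 0 ∧ x ≤ 1 ∧ C * x ≤ δ := by
  obtain ⟨x, x0, hx⟩ := ENNReal.exists_nnreal_pos_mul_lt hC hδ
  exact ⟨min x 1, (lt_min (by exact_mod_cast x0) zero_lt_one).ne', min_le_right _ _,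
    (mul_le_mul' le_rfl (min_le_left _ _)).trans ((mul_comm _ _).le.trans hx.le)⟩

theorem constants (hL : St_TAIL) (h : Crit π B) : ∃ (τ ε N : ℝ≥0∞) (r k n : ℕ), τ ≠ 0 ∧ τ ≤ 1 ∧
    ε ≤ 1 ∧ N ≠ ⊤ ∧ L2 (ker π fun l => I (SA l ∧ k ≤ l.length)) τ ∧
    L2 (fun v => Ex π fun g => I (SA g ∧ g.length = r) *
      ker π (fun l => I (SA l)) (v - g.sum)) ε ∧
    ∀ (π' ω : V → ℝ≥0∞) (ℓ : V →+ ℝ) Λ ρ, Hyp π' ω B τ ε r k n → Wt ℓ Λ ω ρ →
      Sc π' ℓ ω B ρ (r + 2 * k) → ∃ φ, K ω N φ ∧ Hd π' ℓ Λ ρ φ := by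
  have hB := h.Bt
  have b1 : 1 ≤ B * B := one_le_mul h.B1 h.B1
  have b0 : B * B ≠ 0 := (zero_lt_one.trans_le b1).ne'
  have bt : B * B ≠ ⊤ := by finiteness
  have h1 : (B * B - 1) / (B * B) < 1 := by
    rw [ENNReal.div_lt_iff (Or.inl b0) (Or.inl bt), one_mul]
    exact ENNReal.sub_lt_self bt b0 one_ne_zero
  obtain ⟨δ, δ0, hδ⟩ := ENNReal.lt_iff_exists_add_pos_lt.1 h1
  have h2 := ENNReal.Tendsto.mul_const (b := 3 * (B + 1) ^ 2)
    (ENNReal.tendsto_pow_atTop_nhds_zero_of_lt_one hδ) (Or.inr (by finiteness))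
  rw [zero_mul] at h2
  obtain ⟨J, hJ⟩ := (h2.eventually (ge_mem_nhds (show (0 : ℝ≥0∞) < 2⁻¹ * 2⁻¹ by
    simp [pos_iff_ne_zero]))).exists
  have e0 : (2⁻¹ * 2⁻¹ * 2⁻¹ : ℝ≥0∞) ≠ 0 := by simp
  obtain ⟨ε, ε0, ε1, hε⟩ := small (C := (J + 1 : ℕ) * (3 * (B + 1) ^ 2) * (B + 2))
    (by finiteness) e0
  obtain ⟨r, hr⟩ := (hL V π B ε h ε0).2
  obtain ⟨x, x0, x1, hx⟩ := small (C := (J + 1 : ℕ) * (3 * (B + 1) ^ 2) *
    ((r + 1 : ℕ) * B * (3 * (B + 1)) * (10 * (B + 1) ^ 4))) (by finiteness) e0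
  have τ0 : min x δ ≠ 0 := (lt_min (pos_iff_ne_zero.2 x0) (by exact_mod_cast δ0)).ne'
  obtain ⟨k, hk⟩ := (hL V π B _ h τ0).1
  refine ⟨min x δ, ε, 2 * C1 B r J + 1, r, k, (J + 1) * (r + 2 * k), τ0,
    (min_le_left _ _).trans x1, ε1, by unfold C1; finiteness, hk, hr,
    fun π' ω ℓ Λ ρ H W S => H.contract W S le_rfl ?_ hδ.le ?_⟩
  · rw [mul_add, mul_add, mul_one, ENNReal.mul_div_cancel b0 bt]
    exact add_le_add le_rfl (mul_le_mul' tsub_le_self (min_le_right _ _))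
  · have h3 : ∀ y : ℝ≥0∞, y * 2⁻¹ + y * 2⁻¹ = y := fun y => by
      rw [← mul_add, ENNReal.inv_two_add_inv_two, mul_one]
    rw [← h3 2⁻¹]
    refine add_le_add ?_ hJ
    rw [← h3 (2⁻¹ * 2⁻¹), η, mul_add]
    refine add_le_add ((le_of_eq (by ring)).trans hε) (le_trans ?_ hx)
    grw [min_le_left]
    exact le_of_eq (by ring)

theorem Hyp.of_le {π' ω : V → ℝ≥0∞} {τ ε : ℝ≥0∞} {r k n : ℕ} (H : Hyp π' ω B τ ε r k n)
    (h : ∀ e, π e ≤ π' e) : Hyp π ω B τ ε r k n :=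
  ⟨H.sub, H.even, H.τ1, H.ε1, fun m => (Ex_wt h _).trans (H.aB m),
    H.gB.mono (fun _ => Ex_wt h _) le_rfl, H.wG.mono (fun _ => Ex_wt h _) le_rfl,
    fun l hl => H.loc l fun e => hl (le_zero_iff.1 ((wt_mono h l).trans e.le)),
    H.tail.mono (fun _ => Ex_wt h _) le_rfl, H.spread.mono (fun _ => (Ex_wt h _).trans
      (Ex_mono fun _ => mul_le_mul' le_rfl (Ex_wt h _))) le_rfl⟩

omit [AddCommGroup V] in
theorem sc_le {t t' : ℝ≥0∞} (h : t ≤ t') (e : V) : sc t π e ≤ sc t' π e := mul_le_mul' h le_rfl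

omit [AddCommGroup V] in
theorem sc_le_self {t : ℝ≥0∞} (h : t ≤ 1) (e : V) : sc t π e ≤ π e := mul_le_of_le_one_left' h

theorem len_le {ℓ : V →+ ℝ} (hℓ : ∀ e, π e ≠ 0 → |ℓ e| ≤ 1) (l : List V) (hl : wt π l ≠ 0) :
    |ℓ l.sum| ≤ l.length := by
  induction l with
  | nil => simp
  | cons e l ih =>
    simp only [wt, List.map_cons, List.prod_cons, mul_ne_zero_iff] at hl
    rw [List.sum_cons, map_add, List.length_cons, Nat.cast_succ, add_comm (l.length : ℝ)]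
    exact (abs_add_le _ _).trans (add_le_add (hℓ e hl.1) (ih hl.2))

theorem M_ne_top (h : Crit π B) {ℓ : V →+ ℝ} (hℓ : ∀ e, π e ≠ 0 → |ℓ e| ≤ 1) {t : ℝ≥0∞}
    (ht : t < 1) : Vv (sc t π) ∅ (sq ℓ 0) ≠ ⊤ := by
  lift t to NNReal using ht.ne_top
  have h1 : Summable fun n : ℕ => (n : NNReal) ^ 2 * t ^ n := by
    rw [← NNReal.summable_coe]
    push_cast
    exact summable_pow_mul_geometric_of_norm_lt_one 2 (by simpa using ht)
  refine ne_top_of_le_ne_top (mul_ne_top (ENNReal.tsum_coe_ne_top_iff_summable.2 h1) h.Bt) ?_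
  rw [← ENNReal.tsum_mul_right]
  refine le_trans ?_ (ENNReal.tsum_le_tsum fun n => mul_le_mul' le_rfl (h.aB n))
  simp only [← Ex_cmul]
  rw [← Ex_tsum, Vv, Ex_sc]
  refine Ex_mono' fun l hl => le_trans ?_ (ENNReal.le_tsum l.length)
  rw [mul_left_comm, mul_comm _ (I _)]
  refine I_mul_le_I fun e => ⟨⟨e.1, rfl⟩, ?_⟩
  push_cast
  rw [mul_comm, sq, zero_add, ← ofReal_natCast, ← ofReal_pow (Nat.cast_nonneg _), ← sq_abs]
  exact mul_le_mul' (ofReal_le_ofReal (pow_le_pow_left₀ (abs_nonneg _) (len_le hℓ l hl) 2)) le_rfl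

theorem half_pow (j m : ℕ) : (2 : ℝ≥0∞) ^ (j + m) * 2⁻¹ ^ m = 2 ^ j := by
  rw [pow_add, mul_assoc, ← mul_pow, ENNReal.mul_inv_cancel (by simp) (by simp), one_pow, mul_one]

theorem lines (hT : St_TT) (hC : St_CHI) (hW : St_WL) (h : Crit π B) {ℓ : V →+ ℝ} {θ H : ℝ≥0∞}
    {b : ℕ → ℝ≥0∞} (θ1 : θ ≤ 1) (θ4 : 2⁻¹ ≤ θ ^ 4) {K : ℕ}
    (hb : ∀ j, L2 (ker π fun l => I (SA l ∧ 2 ^ j ≤ l.length ∧ l.length < 8 * 2 ^ j)) (b j))
    (hH : ∀ i, i ≤ K → ξ (sc (tt i) π) ℓ ≤ H * 2 ^ i) (H1 : 1 ≤ H) (Ht : H ≠ ⊤)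
    {Λ : ℝ → ℝ≥0∞} {a : V → ℝ≥0∞} (w : Nw ℓ (H * 2 ^ K) Λ a) {σ : ℝ≥0∞}
    (hσ : θ ^ K + ∑' j, θ ^ (K - j + (j - K)) * b j ≤ σ) :
    L2 (ker (sc (tt K) π) fun l => I (SA l) * a l.sum) (32 * (514 * (B * B)) * σ) ∧
    L2 (ker (sc (tt K) π) fun l => I (SA l) * (a l.sum * a l.sum)) (32 * (514 * (B * B)) * σ) := by
  have hB := h.Bt
  have θ0 : θ ≠ 0 := by rintro rfl; simp at θ4
  have θt : θ ≠ ⊤ := ne_top_of_le_ne_top one_ne_top θ1
  have θ2 : 2⁻¹ ≤ θ := θ4.trans (pow_le_of_le_one zero_le θ1 (by simp))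
  have t1 : ∀ i, tt i ≤ 1 := fun i => (hT i).2.2.2.2.1
  have BB : B ≤ B * B := le_mul_of_one_le_left' h.B1
  have mo : ∀ i m, i ≤ K → Ex (sc (tt i) π) (fun l => I (SA l ∧ l.length = m) * sq ℓ 0 l.sum) ≤
      B * B * (H * 2 ^ i) := fun i m hi =>
    (moment (fun e => by simp only [sc, h.symm]) (ne_top_of_le_ne_top (by finiteness)
      (hC V π B h i).2) (h.gB.mono (fun _ => Ex_wt (sc_le_self (t1 i)) _) le_rfl) m).trans
      (mul_le_mul' le_rfl (hH i hi))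
  have m2 : ∀ j m, m < 8 * 2 ^ j →
      Ex (sc (tt K) π) (fun l => I (SA l ∧ l.length = m) * sq ℓ 0 l.sum) ≤
        256 * (B * B) * (H * 2 ^ K * (θ ^ (K - j)) ^ 4) := fun j m hm => by
    rcases le_total j K with hj | hj
    · obtain ⟨i, rfl⟩ := Nat.exists_eq_add_of_le hj
      calc _ ≤ 2 ^ 8 * Ex (sc (tt j) π) fun l => I (SA l ∧ l.length = m) * sq ℓ 0 l.sum := by
            refine (Ex_wt (sc_le_self (t1 _)) _).trans ?_
            rw [Ex_sc, ← Ex_cmul]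
            refine Ex_mono fun l => I_mul_le fun e => ?_
            rw [I_pos e, one_mul, ← mul_assoc]
            refine le_mul_of_one_le_left' ?_
            calc (1 : ℝ≥0∞) = 2 ^ (0 + 8) * 2⁻¹ ^ 8 := by rw [half_pow, pow_zero]
              _ ≤ 2 ^ 8 * (tt j ^ 2 ^ j) ^ 8 := by gcongr; exact (hT j).2.1
              _ ≤ _ := by
                  rw [← pow_mul]
                  exact mul_le_mul' le_rfl (pow_le_pow_right_of_le_one' (t1 j) (by omega))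
        _ ≤ 2 ^ 8 * (B * B * (H * (2 ^ (j + i) * (θ ^ 4) ^ i))) := by
            refine mul_le_mul' le_rfl ((mo j m hj).trans ?_)
            rw [← half_pow j i]
            gcongr
        _ = _ := by rw [Nat.add_sub_cancel_left]; ring
    · rw [Nat.sub_eq_zero_of_le hj, pow_zero, one_pow, mul_one, mul_assoc]
      exact (mo K m le_rfl).trans (le_mul_of_one_le_left' (by norm_num))
  have aB : ∀ m, Ex (sc (tt K) π) (fun l => I (SA l ∧ l.length = m)) ≤ B * B := fun m =>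
    ((Ex_wt (sc_le_self (t1 _)) _).trans (h.aB m)).trans BB
  have a2 : ∀ j m, m < 8 * 2 ^ j →
      Ex (sc (tt K) π) (fun l => I (SA l ∧ l.length = m) * (a l.sum * a l.sum)) ≤
        513 * (B * B) * (θ ^ (K - j) * θ ^ (K - j)) := fun j m hm => by
    set y := θ ^ (K - j)
    have y0 : y ≠ 0 := pow_ne_zero _ θ0
    have yt : y ≠ ⊤ := pow_ne_top θt
    refine (ENNReal.mul_le_mul_iff_right (a := H * 2 ^ K * (y * y))
      (by simp [y0, (zero_lt_one.trans_le H1).ne']) (by finiteness)).1 ?_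
    calc _ ≤ Ex (sc (tt K) π) fun l => 2 * (I (SA l ∧ l.length = m) * sq ℓ 0 l.sum) +
          H * 2 ^ K * (y * y) * (y * y) * I (SA l ∧ l.length = m) := by
          rw [← Ex_cmul]
          refine Ex_mono fun l => ?_
          rw [mul_left_comm]
          exact (mul_le_mul' le_rfl (w.second y _ (pow_le_one' θ1 _))).trans (le_of_eq (by ring))
      _ ≤ _ := by
          rw [Ex_add, Ex_cmul, Ex_cmul]
          grw [m2 j m hm, aB]
          exact le_of_eq (by ring)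
  have a1 : ∀ j m, m < 8 * 2 ^ j →
      Ex (sc (tt K) π) (fun l => I (SA l ∧ l.length = m) * a l.sum) ≤
        514 * (B * B) * θ ^ (K - j) := fun j m hm => by
    have h2 := a2 j m hm
    set y := θ ^ (K - j)
    refine (ENNReal.mul_le_mul_iff_right (a := y) (pow_ne_zero _ θ0) (pow_ne_top θt)).1 ?_
    calc _ ≤ Ex (sc (tt K) π) fun l => I (SA l ∧ l.length = m) * (a l.sum * a l.sum) +
          y * y * I (SA l ∧ l.length = m) := by
          rw [← Ex_cmul]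
          refine Ex_mono fun l => ?_
          rw [mul_left_comm, mul_comm (y * y), ← mul_add, mul_comm y]
          exact mul_le_mul' le_rfl ((le_mul_of_one_le_left' one_le_two).trans (amgm _ _))
      _ ≤ _ := by
          rw [Ex_add, Ex_cmul]
          grw [h2, aB]
          exact le_of_eq (by ring)
  have fin : 4 * (514 * (B * B) * θ ^ (K - 0)) +
      32 * ∑' j, 514 * (B * B) * θ ^ (K - j) * tt K ^ 2 ^ j * b j ≤ 32 * (514 * (B * B)) * σ := by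
    grw [← hσ]
    rw [mul_add, Nat.sub_zero, mul_assoc 32, mul_assoc 32,
      ← ENNReal.tsum_mul_left (a := 514 * (B * B))]
    refine add_le_add (mul_le_mul' (by norm_num) le_rfl) (mul_le_mul' le_rfl
      (ENNReal.tsum_le_tsum fun j => ?_))
    rw [← mul_assoc (514 * (B * B)), pow_add, ← mul_assoc (514 * (B * B))]
    refine mul_le_mul' (mul_le_mul' le_rfl ?_) le_rfl
    rcases le_or_gt j K with hj | hj
    · rw [Nat.sub_eq_zero_of_le hj, pow_zero]; exact pow_le_one' (t1 K) _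
    · obtain ⟨i, rfl⟩ := Nat.exists_eq_add_of_lt hj
      rw [add_right_comm, pow_add, pow_mul, show K + 1 + i - K = i + 1 by omega]
      exact (pow_le_pow_left' ((hT K).2.2.1.trans θ2) _).trans
        (pow_le_pow_right_of_le_one' θ1 Nat.lt_two_pow_self)
  refine ⟨(hW V π a _ _ b (t1 K) (fun x y => (w.sub x y).trans
    (le_mul_of_one_le_left' one_le_two)) a1 hb).mono (fun _ => le_rfl) fin,
    (hW V π (fun v => a v * a v) _ (fun j => 514 * (B * B) * θ ^ (K - j)) b (t1 K)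
      (fun x y => ?_) (fun j m hm => (a2 j m hm).trans ?_) hb).mono (fun _ => le_rfl) fin⟩
  · grw [w.sub]
    calc _ = a x * a x + a y * a y + 2 * (a x * a y) := by ring
      _ ≤ _ := by rw [two_mul (_ + _)]; exact add_le_add le_rfl (amgm _ _)
  · exact mul_le_mul' (mul_le_mul' (by norm_num) le_rfl) (mul_le_of_le_one_left' (pow_le_one' θ1 _))

theorem st_MAIN (hT : St_TT) (hC : St_CHI) (hW : St_WL) (hN : St_WIN) (hL : St_TAIL) :
    St_MAIN := by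
  intro V _ π B ℓ h hℓ
  obtain ⟨τ, ε, N, r, k, n, τ0, τ1, ε1, Nt, ht, hs, hA⟩ := constants hL h
  obtain ⟨θ, θ1, θ4⟩ : ∃ θ : ℝ≥0∞, θ < 1 ∧ 2⁻¹ ≤ θ ^ 4 := ⟨(7 / 8 : NNReal), by
    rw [coe_lt_one_iff, ← NNReal.coe_lt_coe]; norm_num, by
    rw [← coe_inv_two, ← coe_pow, coe_le_coe, ← NNReal.coe_le_coe]; norm_num⟩
  obtain ⟨b, σ, hb, hσ, σt⟩ := hN V π B θ h θ1
  have hB := h.Bt
  have B1 := h.B1
  have τi : τ⁻¹ ≠ ⊤ := inv_ne_top.2 τ0
  have τt : τ ≠ ⊤ := ne_top_of_le_ne_top one_ne_top τ1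
  have t1 : ∀ i, tt i ≤ 1 := fun i => (hT i).2.2.2.2.1
  have χt : ∀ i, χ (sc (tt i) π) ≠ ⊤ := fun i => ne_top_of_le_ne_top (by finiteness) (hC V π B h i).2
  have χ0 : ∀ i, χ (sc (tt i) π) ≠ 0 := fun i => (zero_lt_one.trans_le one_le_χ).ne'
  have X0 : ∀ i, tt i * χ (sc (tt i) π) ≠ 0 := fun i =>
    mul_ne_zero (lt_of_lt_of_le (by simp) (hT i).2.2.2.1).ne' (χ0 i)
  have Xt : ∀ i, tt i * χ (sc (tt i) π) ≠ ⊤ := fun i =>
    mul_ne_top (ne_top_of_le_ne_top one_ne_top (t1 i)) (χt i)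
  have X2 : ∀ i, χ (sc (tt i) π) ≤ 2 * (tt i * χ (sc (tt i) π)) := fun i => by
    rw [← mul_assoc]
    refine le_mul_of_one_le_left' (le_trans ?_ (mul_le_mul' le_rfl (hT i).2.2.2.1))
    rw [ENNReal.mul_inv_cancel (by simp) (by simp)]
  have Mt : ∀ i, Vv (sc (tt i) π) ∅ (sq ℓ 0) ≠ ⊤ := fun i =>
    M_ne_top h hℓ (ENNReal.sub_lt_self one_ne_top one_ne_zero (by simp))
  have ξt : ∀ i, ξ (sc (tt i) π) ℓ ≠ ⊤ := fun i => ENNReal.div_ne_top (Mt i) (χ0 i)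
  have hξ : ∀ i x, ξ (sc (tt i) π) ℓ / (tt i * χ (sc (tt i) π)) ≤ x →
      ξ (sc (tt i) π) ℓ ≤ 2 * B * x * 2 ^ i := fun i x hx => by
    rw [ENNReal.div_le_iff (X0 i) (Xt i)] at hx
    grw [hx, t1 i, (hC V π B h i).2]
    exact le_of_eq (by ring)
  set Q : ℝ≥0∞ := (r + 2 * k + 1 : ℕ) * B with hQ
  set C : ℝ≥0∞ := 32 * (514 * (B * B)) + 2 * n + 5 * Q with hCdef
  have Ct : C ≠ ⊤ := by rw [hCdef, hQ]; finiteness
  suffices key : ∀ i x, 1 ≤ x → x ≠ ⊤ →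
      (∀ j, j ≤ i + 1 → ξ (sc (tt j) π) ℓ / (tt j * χ (sc (tt j) π)) ≤ x) →
      (4 * B * (4 * (B + 4) * N) + 1) * (τ⁻¹ * C * (τ⁻¹ * C)) * (σ (i + 1) * σ (i + 1)) ≤ 1 →
      ξ (sc (tt (i + 1)) π) ℓ / (tt (i + 1) * χ (sc (tt (i + 1)) π)) ≤
        ξ (sc (tt i) π) ℓ / (tt i * χ (sc (tt i) π)) +
        (4 * B * (4 * (B + 4) * N) + 1) * (τ⁻¹ * C * (τ⁻¹ * C)) * (σ (i + 1) * σ (i + 1)) * x by
    obtain ⟨x, xt, hx⟩ := gronwall (η := fun i => ξ (sc (tt i) π) ℓ / (tt i * χ (sc (tt i) π)))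
      (δ := fun i => (4 * B * (4 * (B + 4) * N) + 1) * (τ⁻¹ * C * (τ⁻¹ * C)) * (σ (i + 1) * σ (i + 1)))
      (fun i => ENNReal.div_ne_top (ξt i) (X0 i)) (by
        rw [ENNReal.tsum_mul_left]
        exact mul_ne_top (by finiteness) (ne_top_of_le_ne_top σt
          (ENNReal.tsum_comp_le_tsum_of_injective Nat.succ_injective fun i => σ i * σ i))) key
    exact ⟨2 * B * x, by finiteness, fun i => hξ i x (hx i)⟩
  intro i x x1 xt hx hδ
  have H1 : 1 ≤ 2 * B * x := one_le_mul (one_le_mul one_le_two B1) x1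
  set L := 2 * B * x * 2 ^ (i + 1) with hLdef
  have L2K : 2 ^ (i + 1) ≤ L := le_mul_of_one_le_left' H1
  have L1 : 1 ≤ L := (one_le_pow₀ one_le_two).trans L2K
  have L0 : L ≠ 0 := (zero_lt_one.trans_le L1).ne'
  have Lt : L ≠ ⊤ := by rw [hLdef]; finiteness
  obtain ⟨Λ, a, w⟩ := exists_nw ℓ L1 Lt
  obtain ⟨l1, l2⟩ := lines hT hC hW h θ1.le θ4 hb (fun j hj => hξ j x (hx j hj)) H1
    (by finiteness) w (hσ (i + 1))
  set s := σ (i + 1) with hsdef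
  set y := θ ^ (i + 1) with hy
  have ys : y ≤ s := le_self_add.trans (hσ (i + 1))
  have y4 : 1 ≤ 2 ^ (i + 1) * y ^ 4 := by
    have := half_pow 0 (i + 1)
    rw [zero_add, pow_zero] at this
    rw [← this, hy, ← pow_mul, mul_comm (i + 1), pow_mul]
    gcongr
  set e := τ⁻¹ * C * s with he
  have ee : e * e ≤ 1 := le_trans (le_trans (le_of_eq (by rw [he]; ring))
    (mul_le_mul' (le_mul_of_one_le_left' le_add_self) le_rfl)) hδ
  have e1 : e ≤ 1 := by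
    by_contra h1
    exact absurd ee (not_le.2 (one_lt_mul'' (not_le.1 h1) (not_le.1 h1)))
  have et : e ≠ ⊤ := ne_top_of_le_ne_top one_ne_top e1
  have τe : τ * e = C * s := by
    rw [he, mul_assoc τ⁻¹, ← mul_assoc, ENNReal.mul_inv_cancel τ0 τt, one_mul]
  have Qe : 5 * Q * y ≤ e :=
    (mul_le_mul' le_add_self ys).trans (τe.ge.trans (mul_le_of_le_one_left' τ1))
  have Q1 : 1 ≤ Q := one_le_mul (by simp) B1
  have e0 : e ≠ 0 := by
    refine (lt_of_lt_of_le (pos_iff_ne_zero.2 (mul_ne_zero (mul_ne_zero (by simp)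
      (zero_lt_one.trans_le Q1).ne') (pow_ne_zero _ ?_))) Qe).ne'
    rintro rfl
    simp at θ4
  have ei : 1 ≤ e⁻¹ := ENNReal.one_le_inv.2 e1
  have dv : ∀ z, z ≤ C * s → e⁻¹ * z ≤ τ := fun z hz => by
    grw [hz, ← τe]
    rw [mul_left_comm, ENNReal.inv_mul_cancel e0 et, mul_one]
  have Ca : e⁻¹ * (32 * (514 * (B * B)) * s) ≤ τ :=
    dv _ (mul_le_mul' (le_self_add.trans le_self_add) le_rfl)
  have kc : ∀ (u : V → ℝ≥0∞) v, ker (sc (tt (i + 1)) π) (fun l => I (SA l) * (e⁻¹ * u l.sum)) v =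
      e⁻¹ * ker (sc (tt (i + 1)) π) (fun l => I (SA l) * u l.sum) v := fun u v => by
    simp only [ker, ← Ex_cmul]
    exact Ex_congr fun l => by ring
  have w1 := (l1.cmul e⁻¹).mono (fun v => (kc a v).le) Ca
  have w2 := (l2.cmul e⁻¹).mono (fun v => (kc (fun u => a u * a u) v).le) Ca
  have H' : Hyp (sc (tt (i + 1)) π) (fun v => e⁻¹ * a v) B τ ε r k n :=
    ⟨fun p q => by rw [← mul_add]; exact mul_le_mul' le_rfl (w.sub p q),
      fun p => by rw [w.even], τ1, ε1, fun m => (Ex_wt (sc_le_self (t1 _)) _).trans (h.aB m),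
      h.gB.mono (fun _ => Ex_wt (sc_le_self (t1 _)) _) le_rfl, w1,
      fun l hl hn => dv _ ((w.loc n y _ ((len_le hℓ l fun e0 => hl (le_zero_iff.1
        ((wt_mono (sc_le_self (t1 _)) l).trans e0.le))).trans (by exact_mod_cast hn))
        (y4.trans (mul_le_mul' L2K le_rfl))).trans
        (mul_le_mul' (le_add_self.trans le_self_add) ys)),
      ht.mono (fun _ => Ex_wt (sc_le_self (t1 _)) _) le_rfl,
      hs.mono (fun _ => (Ex_wt (sc_le_self (t1 _)) _).trans (Ex_mono fun _ =>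
        mul_le_mul' le_rfl (Ex_wt (sc_le_self (t1 _)) _))) le_rfl⟩
  have tle : tt i ≤ tt (i + 1) := by rw [(hT i).1]; exact le_self_add
  have H := H'.of_le (sc_le tle)
  have ρω : ∀ v, L * (e * e) * (e⁻¹ * a v * (e⁻¹ * a v)) = L * (a v * a v) := fun v => by
    calc _ = L * (a v * a v) * (e * e⁻¹) * (e * e⁻¹) := by ring
      _ = _ := by rw [ENNReal.mul_inv_cancel e0 et, mul_one, mul_one]
  have W : Wt ℓ Λ (fun v => e⁻¹ * a v) (L * (e * e)) :=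
    ⟨w.one_le, fun q v => (w.mul _ _).trans (mul_le_mul' le_rfl ((w.le v).trans
      (add_le_add le_rfl (le_mul_of_one_le_left' ei)))), fun q v => by
      rw [ρω]; exact w.close q v⟩
  have ξL : ∀ j, j ≤ i + 1 → ξ (sc (tt j) π) ℓ ≤ L := fun j hj =>
    (hξ j x (hx j hj)).trans (mul_le_mul' le_rfl (pow_le_pow_right₀ one_le_two hj))
  have S : ∀ j, i ≤ j → j ≤ i + 1 →
      Sc (sc (tt j) π) ℓ (fun v => e⁻¹ * a v) B (L * (e * e)) (r + 2 * k) := fun j h1 h2 => by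
    refine ⟨fun e => by simp only [sc, h.symm], B1, hB, χt j, ξt j,
      mul_ne_zero L0 (mul_ne_zero e0 e0), by finiteness, ?_, ?_⟩
    · refine (lt_top_of_mul_ne_top_right (ne_top_of_le_ne_top
        (b := 2 * Vv (sc (tt j) π) ∅ (sq ℓ 0) + χ (sc (tt j) π) * L)
        (add_ne_top.2 ⟨mul_ne_top (by simp) (Mt j), mul_ne_top (χt j) Lt⟩) ?_)
        (mul_ne_zero L0 (mul_ne_zero e0 e0))).ne
      simp only [χ, Vv, ← Ex_cmul, ← Ex_mulc, ← Ex_add]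
      refine Ex_mono fun f => ?_
      have := w.second 1 f.sum le_rfl
      simp only [mul_one] at this
      rw [mul_left_comm, ρω]
      exact (mul_le_mul' le_rfl this).trans (le_of_eq (by ring))
    · refine (ENNReal.mul_le_mul_iff_right (a := 4) (by simp) (by simp)).1 ?_
      have h3 : 2 ^ (i + 1) ≤ 4 * χ (sc (tt j) π) := by
        grw [pow_succ', pow_le_pow_right₀ one_le_two h1, (hC V π B h j).1]
        exact le_of_eq (by ring)
      have h4 : y ^ 4 ≤ y * y := by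
        rw [← pow_two]; exact pow_le_pow_right_of_le_one' (pow_le_one' θ1.le _) (by norm_num)
      calc _ ≤ 4 * (Q * Q * (L * 1 * 4 + L)) := by gcongr; exact ξL j h2
        _ ≤ 4 * (Q * Q * (L * 1 * 4 + L)) + 5 * (Q * Q * L) := le_self_add
        _ = 25 * (Q * Q * L) * 1 := by ring
        _ ≤ 25 * (Q * Q * L) * (4 * χ (sc (tt j) π) * (y * y)) :=
            mul_le_mul' le_rfl (y4.trans (mul_le_mul' h3 h4))
        _ = 4 * (χ (sc (tt j) π) * (L * (5 * Q * y * (5 * Q * y)))) := by ring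
        _ ≤ _ := by gcongr
  obtain ⟨φ, k1, d1⟩ := hA _ _ ℓ Λ _ H W (S i le_rfl (by omega))
  obtain ⟨φ', k2, d2⟩ := hA _ _ ℓ Λ _ H' W (S (i + 1) (by omega) le_rfl)
  have h2 := two_scale H H' k1 k2 d1 d2 w.zero w.mul (by
    refine (ENNReal.mul_le_mul_iff_right L0 Lt).1 ?_
    calc _ ≤ 2 * L * χ (sc (tt (i + 1)) π) + Vv (sc (tt (i + 1)) π) ∅ (sq ℓ 0) := by
          simp only [χ, Vv, ← Ex_cmul, ← Ex_add, ok_empty]
          refine Ex_mono fun f => ?_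
          rw [mul_left_comm]
          exact (mul_le_mul' le_rfl (w.first _)).trans (le_of_eq (by ring))
      _ ≤ _ := by
          grw [← χ_ξ (χt _), ξL _ le_rfl]
          exact le_of_eq (by ring)) (by
    refine (((H'.gB.add w1).add w1).add w2).mono (fun v => ?_) (by
      grw [τ1]; exact le_of_eq (by ring))
    simp only [ker, ← Ex_add, ← add_mul]
    refine Ex_mono fun l => mul_le_mul' ?_ le_rfl
    calc _ ≤ I (SA l) * (1 + a l.sum) * (1 + e⁻¹ * a l.sum) := by gcongr; exact w.le _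
      _ = I (SA l) + I (SA l) * (1 * a l.sum) + I (SA l) * (e⁻¹ * a l.sum) +
          I (SA l) * (e⁻¹ * (a l.sum * a l.sum)) := by ring
      _ ≤ _ := by gcongr)
  have h3 := telescope (π := π) (tt i) (2⁻¹ ^ (i + 2)) (sq ℓ 0)
  have h4 := telescope (π := π) (tt i) (2⁻¹ ^ (i + 2)) fun _ => 1
  rw [add_comm _ (tt i), ← (hT i).1] at h3 h4
  rw [← χ_ξ (χt _), ← χ_ξ (χt _)] at h3
  rw [← χ, ← χ] at h4
  have h5 := ratio (ξ := ξ (sc (tt i) π) ℓ) (ξ' := ξ (sc (tt (i + 1)) π) ℓ) (E := 2⁻¹ ^ (i + 2) *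
    (χ (sc (tt i) π) * χ (sc (tt (i + 1)) π) * (L * (e * e)) * (4 * (B + 4) * N))) h4 (by
      rw [mul_comm, mul_assoc, h3]
      grw [h2]
      exact le_of_eq (by ring)) (mul_ne_top (ξt _) (ne_top_of_le_ne_top (Xt (i + 1))
        (h4.ge.trans' le_self_add)))
  refine (ENNReal.mul_le_mul_iff_left (mul_ne_zero (X0 (i + 1)) (X0 i))
    (mul_ne_top (Xt (i + 1)) (Xt i))).1 ?_
  rw [← mul_assoc, ENNReal.div_mul_cancel (X0 _) (Xt _), add_mul, mul_comm (tt (i + 1) * _),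
    ← mul_assoc (_ / _), ENNReal.div_mul_cancel (X0 _) (Xt _)]
  refine h5.trans (add_le_add le_rfl ?_)
  have h6 := half_pow 0 (i + 2)
  rw [zero_add, pow_zero] at h6
  calc _ ≤ 2⁻¹ ^ (i + 2) * (2 * (tt i * χ (sc (tt i) π)) * (2 * (tt (i + 1) *
        χ (sc (tt (i + 1)) π))) * (L * (e * e)) * (4 * (B + 4) * N)) := by
        gcongr <;> exact X2 _
    _ = 2 ^ (i + 2) * 2⁻¹ ^ (i + 2) * (4 * B * (4 * (B + 4) * N) * (τ⁻¹ * C * (τ⁻¹ * C)) * (s * s) *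
        x * (tt i * χ (sc (tt i) π) * (tt (i + 1) * χ (sc (tt (i + 1)) π)))) := by
        rw [hLdef, he]; ring
    _ ≤ _ := by
        rw [h6, one_mul]
        gcongr
        exact le_self_add

end Pool.Agent.Lib.BU59
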