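import Pool.Agent.Lib.BU59.Sums

/-! Self-avoiding walks among obstacles and the stage identity. -/

namespace Pool.Agent.Lib.BU59

open Pool.Agent.Lib.BU93 ENNReal

variable {V : Type} [AddCommGroup V] {π : V → ℝ≥0∞}

/-- no point of the walk lies in `A` -/
def Av (A : Set V) (g : List V) : Prop := ∀ i, i ≤ g.length → pos g i ∉ A

/-- `A` seen from `v` -/
def sh (A : Set V) (v : V) : Set V := {u | v + u ∈ A}

/-- `A` together with the walk `g` without its end point, seen from the end of `g` -/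
def ob (A : Set V) (g : List V) : Set V :=
  {u | g.sum + u ∈ A ∨ ∃ i, i < g.length ∧ pos g i = g.sum + u}

/-- self-avoiding and avoiding `A` -/
def Ok (A : Set V) (g : List V) : Prop := SA g ∧ Av A g

/-- the end point is the first point in `O` -/
def Fh (O : Set V) (f : List V) : Prop := f.sum ∈ O ∧ ∀ i, i < f.length → pos f i ∉ O

/-- no point before time `n` lies in `O` -/
def AvB (n : ℕ) (O : Set V) (f : List V) : Prop := ∀ i, i < n → i ≤ f.length → pos f i ∉ O

/-- a loop `x y` attached at the end of `p` -/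
def Lp (A : Set V) (p x y : List V) : Prop :=
  Ok A (p ++ x) ∧ x.sum + y.sum = 0 ∧ Ok (sh (ob A p) x.sum) y

theorem ok_append {A : Set V} {g f : List V} : Ok A (g ++ f) ↔ Ok A g ∧ Ok (ob A g) f := by
  refine ⟨fun h => ⟨⟨h.1.left, fun i hi => ?_⟩, h.1.right, fun j hj e => ?_⟩,
    fun h => ⟨h.1.1.append h.2.1 fun i j hi hj e => ?_, fun i hi => ?_⟩⟩
  · rw [← pos_left f hi]; exact h.2 i (by simp; omega)
  · rcases e with e | ⟨i, hi, e⟩
    · rw [← pos_right] at e; exact h.2 _ (by simp; omega) e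
    · exact h.1.dis i j hi hj (by rw [e, add_zero])
  · exact h.2.2 j hj (Or.inr ⟨i, hi, by rw [e, add_zero]⟩)
  · rcases le_total i g.length with h1 | h1
    · rw [pos_left f h1]; exact h.1.2 i h1
    · obtain ⟨k, rfl⟩ := Nat.exists_eq_add_of_le h1
      rw [pos_right]
      exact fun e => h.2.2 k (by simp at hi; omega) (Or.inl e)

theorem ob_append (A : Set V) (g h : List V) : ob A (g ++ h) = ob (ob A g) h := by
  ext u
  simp only [ob, Set.mem_ofPred_eq, List.sum_append, List.length_append, add_assoc, or_assoc]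
  refine or_congr_right ⟨fun ⟨i, hi, e⟩ => ?_, fun e => ?_⟩
  · rcases lt_or_ge i g.length with h1 | h1
    · exact Or.inl ⟨i, h1, by rw [← e, pos_left h h1.le]⟩
    · obtain ⟨k, rfl⟩ := Nat.exists_eq_add_of_le h1
      rw [pos_right] at e
      exact Or.inr ⟨k, by omega, add_left_cancel e⟩
  · rcases e with ⟨i, hi, e⟩ | ⟨k, hk, e⟩
    · exact ⟨i, by omega, by rw [pos_left h hi.le, e]⟩
    · exact ⟨g.length + k, by omega, by rw [pos_right, e]⟩

theorem ok_union {A O : Set V} {f : List V} : Ok (A ∪ O) f ↔ Ok A f ∧ Av O f :=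
  ⟨fun h => ⟨⟨h.1, fun i hi e => h.2 i hi (Or.inl e)⟩, fun i hi e => h.2 i hi (Or.inr e)⟩,
    fun h => ⟨h.1.1, fun i hi e => e.elim (h.1.2 i hi) (h.2 i hi)⟩⟩

theorem ok_empty {f : List V} : Ok ∅ f ↔ SA f := ⟨fun h => h.1, fun h => ⟨h, fun _ _ e => e⟩⟩

theorem pos_take (l : List V) {i n : ℕ} (h : i ≤ n) : pos (l.take n) i = pos l i := by
  unfold pos; rw [List.take_take, min_eq_left h]

theorem take_add_drop (l : List V) (i : ℕ) : (l.take i).sum + (l.drop i).sum = l.sum := by
  rw [← List.sum_append, List.take_append_drop]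

theorem I_first (Q : ℕ → Prop) (n : ℕ) :
    I (∀ i, i ≤ n → ¬ Q i) + ∑' i, I (i ≤ n) * I (Q i ∧ ∀ j, j < i → ¬ Q j) = 1 := by
  classical
  by_cases h : ∃ i, i ≤ n ∧ Q i
  · have h1 : ∃ i, Q i := ⟨_, h.choose_spec.2⟩
    have h2 : Nat.find h1 ≤ n := (Nat.find_min' h1 h.choose_spec.2).trans h.choose_spec.1
    rw [I_neg fun e => e _ h2 (Nat.find_spec h1), zero_add, tsum_eq_single (Nat.find h1),
      I_pos h2, I_pos ⟨Nat.find_spec h1, fun j hj => Nat.find_min h1 hj⟩, one_mul]
    intro i hi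
    rw [I_neg (P := _ ∧ _) fun e => ?_, mul_zero]
    rcases lt_or_gt_of_ne hi with h3 | h3
    · exact Nat.find_min h1 h3 e.1
    · exact e.2 _ h3 (Nat.find_spec h1)
  · rw [I_pos fun i hi e => h ⟨i, hi, e⟩, ENNReal.tsum_eq_zero.2 fun i => ?_, add_zero]
    rw [← I_and, I_neg fun e => h ⟨i, e.1, e.2.1⟩]

theorem I_uniq {f : List V} (hf : SA f) (v : V) :
    ∑' j, I (j ≤ f.length) * I (v = pos f j) = I (∃ j, j ≤ f.length ∧ v = pos f j) := by
  by_cases h : ∃ j, j ≤ f.length ∧ v = pos f j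
  · obtain ⟨j, hj, e⟩ := h
    rw [I_pos ⟨j, hj, e⟩, tsum_eq_single j, I_pos hj, I_pos e, one_mul]
    intro k hk
    rw [← I_and, I_neg fun e' => hk (hf k j e'.1 hj (e'.2.symm.trans e))]
  · rw [I_neg h, ENNReal.tsum_eq_zero.2 fun j => ?_]
    rw [← I_and, I_neg fun e => h ⟨j, e⟩]

/-- sum over the self-avoiding walks avoiding `A` of a function of the end point -/
noncomputable def Vv (π : V → ℝ≥0∞) (A : Set V) (F : V → ℝ≥0∞) : ℝ≥0∞ :=
  Ex π fun f => I (Ok A f) * F f.sum

/-- the same with a displaced end point -/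
noncomputable def UU (π : V → ℝ≥0∞) (F : V → ℝ≥0∞) (A : Set V) (δ : V) : ℝ≥0∞ :=
  Vv π A fun v => F (δ + v)

theorem Ex_ok (A : Set V) (F : V → ℝ≥0∞) (g : List V) (c : ℝ≥0∞) :
    Ex π (fun b => I (Ok A (g ++ b)) * (c * F (g ++ b).sum)) =
      I (Ok A g) * (c * UU π F (ob A g) g.sum) := by
  simp only [UU, Vv, ← Ex_cmul, ok_append, I_and, List.sum_append]
  exact Ex_congr fun b => by ring

theorem split_ok (n : ℕ) (A : Set V) (F : V → ℝ≥0∞) (φ : List V → ℝ≥0∞) :
    Ex π (fun f => I (n ≤ f.length) * (I (Ok A f) * (φ (f.take n) * F f.sum))) =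
      Ex π fun g => I (g.length = n) * (I (Ok A g) * (φ g * UU π F (ob A g) g.sum)) := by
  simp only [← Ex_ok, ← Ex_split, List.take_append_drop]

theorem first_hit (n : ℕ) (A O : Set V) (F : V → ℝ≥0∞) :
    Ex π (fun f => I (Ok A f) * (I (AvB n O f) * F f.sum)) = Vv π (A ∪ O) F +
      Ex π fun g => I (Ok A g) * (I (n ≤ g.length ∧ Fh O g) * UU π F (ob A g) g.sum) := by
  simp only [← Ex_ok, ← Ex_cut, List.take_append_drop, Vv, ← Ex_add]
  refine Ex_congr fun f => ?_
  have h1 : I (AvB n O f) = I (Av O f) + ∑' i, I (i ≤ f.length) *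
      I (n ≤ (f.take i).length ∧ Fh O (f.take i)) := by
    rw [← mul_one (I (AvB n O f)), ← I_first (fun i => pos f i ∈ O) f.length, mul_add,
      ← ENNReal.tsum_mul_left, ← I_and]
    congr 1
    · exact I_congr ⟨fun h => h.2, fun h => ⟨fun i _ hi => h i hi, h⟩⟩
    · refine tsum_congr fun i => ?_
      rw [mul_left_comm]
      refine I_mul_congr fun hi => ?_
      have h2 : (f.take i).length = i := by rw [List.length_take, min_eq_left hi]
      rw [← I_and, Fh, h2]
      refine I_congr ⟨fun h => ⟨?_, h.2.1, fun j hj => ?_⟩,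
        fun h => ⟨fun j hj _ => ?_, h.2.1, fun j hj => ?_⟩⟩
      · by_contra h3
        exact h.1 i (by omega) hi h.2.1
      · rw [pos_take f hj.le]; exact h.2.2 j hj
      · rw [← pos_take f (n := i) (by omega)]; exact h.2.2 j (by omega)
      · rw [← pos_take f hj.le]; exact h.2.2 j hj
  rw [h1, add_mul, mul_add, ok_union, I_and, mul_assoc, ← ENNReal.tsum_mul_right,
    ← ENNReal.tsum_mul_left]
  congr 1
  exact tsum_congr fun i => by ring

theorem ob_loop (A : Set V) {x y : List V} (h : x.sum + y.sum = 0) :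
    ob (sh A x.sum) y = A ∪ ob ∅ y := by
  ext u
  simp only [ob, sh, Set.mem_ofPred_eq, Set.mem_union, Set.mem_empty_iff_false, false_or,
    ← add_assoc, h, zero_add]

theorem loop_point (A : Set V) (g f : List V) :
    I (Ok A g) * I (Ok (sh A g.sum) f) = ∑' i, I (i ≤ g.length) * ∑' j, I (j ≤ f.length) *
      (I (Lp A (g.take i) (g.drop i) (f.take j)) *
        I (Ok (ob A (g.take i) ∪ ob ∅ (f.take j)) (f.drop j))) := by
  have h1 : ∀ i j, i ≤ g.length → (Lp A (g.take i) (g.drop i) (f.take j) ∧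
      Ok (ob A (g.take i) ∪ ob ∅ (f.take j)) (f.drop j) ↔
      ((Ok A g ∧ Ok (sh A g.sum) f) ∧
        ∀ k, k < i → ¬ ∃ j, j ≤ f.length ∧ pos g k - g.sum = pos f j) ∧
        pos g i - g.sum = pos f j) := fun i j hi => by
    have h2 : (g.drop i).sum + (f.take j).sum = 0 ↔ pos g i - g.sum = pos f j := by
      unfold pos
      rw [← take_add_drop g i, sub_add_cancel_left, neg_eq_iff_add_eq_zero]
    have h3 : Ok (sh (ob A (g.take i)) (g.drop i).sum) f ↔ Ok (sh A g.sum) f ∧
        ∀ k, k < i → ¬ ∃ j, j ≤ f.length ∧ pos g k - g.sum = pos f j := by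
      simp only [Ok, Av, sh, ob, Set.mem_ofPred_eq, ← add_assoc, take_add_drop, not_or,
        List.length_take, min_eq_left hi]
      refine ⟨fun h => ⟨⟨h.1, fun j hj => (h.2 j hj).1⟩, fun k hk ⟨j, hj, e⟩ => (h.2 j hj).2
        ⟨k, hk, by rw [pos_take g hk.le, ← e, add_sub_cancel]⟩⟩,
        fun h => ⟨h.1.1, fun j hj => ⟨h.1.2 j hj, fun ⟨k, hk, e⟩ => h.2 k hk
          ⟨j, hj, by rw [← pos_take g hk.le, e, add_sub_cancel_left]⟩⟩⟩⟩
    rw [and_assoc (a := Ok A g), ← h3, ← h2, Lp, List.take_append_drop]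
    conv_rhs => rw [← List.take_append_drop j f, ok_append, List.take_append_drop]
    refine ⟨fun h => ⟨⟨h.1.1, h.1.2.2, ?_⟩, h.1.2.1⟩, fun h => ⟨⟨h.1.1, h.2, h.1.2.1⟩, ?_⟩⟩
    · rw [ob_loop _ h.1.2.1]; exact h.2
    · rw [← ob_loop _ h.2]; exact h.1.2.2
  rw [← I_and, ← mul_one (I _),
    ← I_first (fun k => ∃ j, j ≤ f.length ∧ pos g k - g.sum = pos f j) g.length,
    I_neg (P := ∀ i, i ≤ g.length → ¬ ∃ j, j ≤ f.length ∧ pos g i - g.sum = pos f j)
      fun e => e _ le_rfl ⟨0, Nat.zero_le _, by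
      rw [pos_len, pos_zero, sub_self]⟩, zero_add, ← ENNReal.tsum_mul_left]
  refine tsum_congr fun i => ?_
  rw [mul_left_comm]
  refine I_mul_congr fun hi => ?_
  simp only [← I_and (Lp _ _ _ _), h1 i _ hi, I_and _ (_ = _), mul_left_comm (I (_ ≤ _)),
    ENNReal.tsum_mul_left]
  rw [I_and (∃ _, _), mul_comm (I (∃ _, _)), ← mul_assoc, ← I_and]
  exact I_mul_congr fun h => (I_uniq h.1.2.1 _).symm

theorem loop_id (r : ℕ) (A : Set V) (F : V → ℝ≥0∞) :
    Ex π (fun g => I (g.length = r) * (I (Ok A g) * UU π F (sh A g.sum) g.sum)) =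
      Ex π fun p => Ex π fun x => I (p.length + x.length = r) *
        Ex π fun y => I (Lp A p x y) * UU π F (ob A p ∪ ob ∅ y) p.sum := by
  have h1 : ∀ p x : List V, (Ex π fun y => I (Lp A p x y) * UU π F (ob A p ∪ ob ∅ y) p.sum) =
      Ex π fun f => ∑' j, I (j ≤ f.length) * (I (Lp A p x (f.take j)) *
        I (Ok (ob A p ∪ ob ∅ (f.take j)) (f.drop j)) * F (p.sum + x.sum + f.sum)) := fun p x => by
    have := Ex_cut (π := π) fun y f => I (Lp A p x y) * I (Ok (ob A p ∪ ob ∅ y) f) *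
      F (p.sum + x.sum + (y.sum + f.sum))
    simp only [take_add_drop] at this
    rw [this]
    refine Ex_congr fun y => ?_
    simp only [mul_assoc, Ex_cmul]
    refine I_mul_congr fun h => ?_
    simp only [UU, Vv, add_assoc, ← add_assoc x.sum, h.2.1, zero_add]
  simp only [h1]
  rw [← Ex_cut]
  refine Ex_congr fun g => ?_
  simp only [← List.length_append, List.take_append_drop, take_add_drop,
    mul_left_comm (I (_ ≤ g.length)) (I (g.length = r)), ENNReal.tsum_mul_left]
  congr 1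
  simp only [UU, Vv, ← Ex_cmul, ← Ex_tsum, ← mul_assoc, loop_point, ENNReal.tsum_mul_right]

/-- weight of the loops at the end of `p` whose second part is avoided by `g` -/
noncomputable def th (π : V → ℝ≥0∞) (r : ℕ) (A : Set V) (p g : List V) : ℝ≥0∞ :=
  Ex π fun x => I (p.length + x.length = r) * Ex π fun y => I (Lp A p x y) * I (Av (ob ∅ y) g)

/-- the local loop weight along `h` -/
noncomputable def θ (π : V → ℝ≥0∞) (r : ℕ) (A : Set V) (h : List V) : ℝ≥0∞ :=
  ∑' i, I (i ≤ h.length) * th π r A (h.take i) (h.drop i)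

theorem one_le_θ {r : ℕ} {A : Set V} {h : List V} (hr : r ≤ h.length) (hh : Ok A h) :
    1 ≤ θ π r A h := by
  refine le_trans ?_ (ENNReal.le_tsum r)
  rw [← List.take_append_drop r h, ok_append] at hh
  refine le_trans ?_ (mul_le_mul' le_rfl ((mul_le_mul' le_rfl (nil_le_Ex _)).trans (nil_le_Ex _)))
  have h0 : SA ([] : List V) := fun i j hi hj _ => by simp at hi hj; omega
  rw [I_pos hr, I_pos (by simp [hr]), I_pos (P := Lp _ _ _ _), I_pos (P := Av _ _)]
  · simp
  · intro i _ e
    simp [ob] at e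
  · refine ⟨by simpa using hh.1, by simp, h0, fun i _ e => hh.2.2 0 (Nat.zero_le _) ?_⟩
    simpa [sh, pos] using e

theorem θ_le (r : ℕ) (A : Set V) (h : List V) : θ π r A h ≤
    Ex π fun x => Ex π fun y => I (SA x) * I (SA y) * I (x.sum + y.sum = 0) := by
  unfold θ th
  simp only [← Ex_cmul, ← Ex_tsum]
  refine Ex_mono fun x => Ex_mono fun y => ?_
  refine le_trans (ENNReal.tsum_le_tsum fun i => ?_) (tsum_I (r - x.length) fun _ => _).le
  rw [← mul_assoc, ← I_and]
  refine I_mul_le_I fun e => ⟨by have := e.2; rw [List.length_take] at this; omega, ?_⟩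
  rw [← I_and, ← I_and, ← I_and]
  exact I_mono fun e => ⟨⟨e.1.1.1.right, e.1.2.2.1⟩, e.1.2.1⟩

variable (π) (r R : ℕ) (A : Set V)

/-- short walks -/
noncomputable def tS (F : V → ℝ≥0∞) : ℝ≥0∞ :=
  Ex π fun f => I (¬ R ≤ f.length) * (I (Ok A f) * F f.sum)

/-- short walks after a loop -/
noncomputable def tS' (F : V → ℝ≥0∞) : ℝ≥0∞ :=
  Ex π fun p => Ex π fun x => I (p.length + x.length = r) * Ex π fun y => I (Lp A p x y) *
    Ex π fun f => I (¬ R - p.length ≤ f.length) * (I (Ok (ob A p) f) *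
      (I (AvB (R - p.length + 1) (ob ∅ y) f) * F (p.sum + f.sum)))

/-- free future -/
noncomputable def tF (U : Set V → V → ℝ≥0∞) : ℝ≥0∞ :=
  Ex π fun g => I (g.length = r) * (I (Ok A g) * U ∅ g.sum)

/-- the free future meets the obstacle -/
noncomputable def t3 (U : Set V → V → ℝ≥0∞) : ℝ≥0∞ :=
  Ex π fun g => I (g.length = r) * (I (Ok A g) * Ex π fun f => I (Ok ∅ f) *
    (I (Fh (sh A g.sum) f) * U (ob ∅ f) (g.sum + f.sum)))

/-- the future meets the loop late -/
noncomputable def t2 (U : Set V → V → ℝ≥0∞) : ℝ≥0∞ :=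
  Ex π fun p => Ex π fun x => I (p.length + x.length = r) * Ex π fun y => I (Lp A p x y) *
    Ex π fun f => I (Ok (ob A p) f) * (I (R - p.length + 1 ≤ f.length ∧ Fh (ob ∅ y) f) *
      U (ob (ob A p) f) (p.sum + f.sum))

/-- the remainder -/
noncomputable def tL (b : ℝ≥0∞) (U : Set V → V → ℝ≥0∞) : ℝ≥0∞ :=
  Ex π fun h => I (h.length = R) * (I (Ok A h) * ((b - θ π r A h) * U (ob A h) h.sum))

variable {π r R A}

theorem UU_shift (F : V → ℝ≥0∞) (δ : V) (A : Set V) (v : V) :
    UU π (fun u => F (δ + u)) A v = UU π F A (δ + v) := by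
  simp only [UU, add_assoc]

theorem stage (hR : r ≤ R) {b : ℝ≥0∞} (hb : ∀ h, θ π r A h ≤ b) (F : V → ℝ≥0∞) :
    b * Vv π A F + tS' π r R A F + t3 π r A (UU π F) =
      b * tS π R A F + tF π r A (UU π F) + t2 π r R A (UU π F) + tL π r R A b (UU π F) := by
  have h3 : tF π r A (UU π F) = Ex π (fun g => I (g.length = r) *
      (I (Ok A g) * UU π F (sh A g.sum) g.sum)) + t3 π r A (UU π F) := by
    unfold tF t3
    rw [← Ex_add]
    refine Ex_congr fun g => ?_
    have := first_hit (π := π) 0 ∅ (sh A g.sum) fun v => F (g.sum + v)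
    simp only [Nat.zero_le, true_and, Set.empty_union, UU_shift,
      I_pos (P := AvB 0 _ _) fun _ h => absurd h (Nat.not_lt_zero _), one_mul] at this
    rw [← mul_add, ← mul_add]
    congr 2
  have h2 : Ex π (fun h => I (h.length = R) * (I (Ok A h) * (θ π r A h * UU π F (ob A h) h.sum))) +
      tS' π r R A F = Ex π (fun g => I (g.length = r) *
      (I (Ok A g) * UU π F (sh A g.sum) g.sum)) + t2 π r R A (UU π F) := by
    have h4 := Ex_cut (π := π) fun p g => I ((p ++ g).length = R) * (I (Ok A (p ++ g)) *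
      (th π r A p g * UU π F (ob A (p ++ g)) (p ++ g).sum))
    simp only [List.take_append_drop] at h4
    have h5 : Ex π (fun h => I (h.length = R) * (I (Ok A h) *
        (θ π r A h * UU π F (ob A h) h.sum))) = _ := Eq.trans (Ex_congr fun h => by
      simp only [θ, ← ENNReal.tsum_mul_right, ← ENNReal.tsum_mul_left]
      exact tsum_congr fun i => by ring) h4
    rw [h5, loop_id]
    unfold tS' t2
    simp only [← Ex_add]
    refine Ex_congr fun p => ?_
    have h6 : (Ex π fun g => I ((p ++ g).length = R) * (I (Ok A (p ++ g)) *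
        (th π r A p g * UU π F (ob A (p ++ g)) (p ++ g).sum))) =
        Ex π fun x => I (p.length + x.length = r) * Ex π fun y => I (Lp A p x y) *
          Ex π fun g => I ((p ++ g).length = R) * (I (Ok A (p ++ g)) *
            (I (Av (ob ∅ y) g) * UU π F (ob A (p ++ g)) (p ++ g).sum)) := by
      simp only [th, ← Ex_cmul, ← Ex_mulc]
      rw [Ex_comm]
      refine Ex_congr fun x => ?_
      rw [Ex_comm]
      exact Ex_congr fun y => Ex_congr fun g => by ring
    rw [Ex_add, h6, ← Ex_add]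
    refine Ex_congr fun x => ?_
    rw [← mul_add, ← mul_add, ← Ex_add, ← Ex_add]
    refine I_mul_congr fun hx => Ex_congr fun y => ?_
    rw [← mul_add, ← mul_add]
    refine I_mul_congr fun hy => ?_
    have h7 := first_hit (π := π) (R - p.length + 1) (ob A p) (ob ∅ y) fun v => F (p.sum + v)
    have h8 := split_ok (π := π) (R - p.length) (ob A p) (fun v => F (p.sum + v))
      fun g => I (Av (ob ∅ y) g)
    simp only [UU_shift] at h7 h8
    have h9 : ∀ g : List V, (p ++ g).length = R ↔ g.length = R - p.length := fun g => by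
      rw [List.length_append]; omega
    simp only [h9, ok_append, (ok_append.1 hy.1).1, true_and, ob_append, List.sum_append]
    rw [← h8, ← Ex_add]
    refine Eq.trans (Ex_congr fun f => ?_) h7
    refine Eq.trans ?_ (I_split (R - p.length ≤ f.length) _).symm
    congr 1
    refine I_mul_congr fun hf => ?_
    have h10 : (f.take (R - p.length)).length = R - p.length := by
      rw [List.length_take, min_eq_left hf]
    rw [I_congr (P := Av _ (f.take _)) (Q := AvB (R - p.length + 1) (ob ∅ y) f)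
      ⟨fun h i hi _ => pos_take f (Nat.lt_succ_iff.1 hi) ▸ h i (by omega),
        fun h i hi => (pos_take f (h10 ▸ hi)).symm ▸ h i (by omega) (by omega)⟩]
  have h1 : b * Vv π A F = b * tS π R A F + (Ex π (fun h => I (h.length = R) * (I (Ok A h) *
      (θ π r A h * UU π F (ob A h) h.sum))) + tL π r R A b (UU π F)) := by
    have h4 := split_ok (π := π) R A F fun _ => b
    unfold tL
    rw [← Ex_add]
    simp only [← mul_add, ← add_mul, add_tsub_cancel_of_le (hb _)]
    rw [← h4]
    unfold tS Vv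
    rw [← Ex_cmul, ← Ex_cmul, ← Ex_add]
    refine Ex_congr fun f => ?_
    rw [I_split (R ≤ f.length) (b * (I (Ok A f) * F f.sum))]
    ring
  rw [h1, h3]
  calc _ = b * tS π R A F + tL π r R A b (UU π F) + t3 π r A (UU π F) +
        (Ex π (fun h => I (h.length = R) * (I (Ok A h) * (θ π r A h * UU π F (ob A h) h.sum))) +
          tS' π r R A F) := by ring
    _ = _ := by rw [h2]; ring

end Pool.Agent.Lib.BU59
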