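import Pool.Agent.Lib.BU93.Basic

/-! Weighted sums over all lists of steps with values in the extended nonnegative reals,
cutting a list, and square-summable kernels. -/

namespace Pool.Agent.Lib.BU59

open Pool.Agent.Lib.BU93 ENNReal

/-- indicator of a proposition -/
noncomputable def I (P : Prop) : ℝ≥0∞ := by classical exact if P then 1 else 0

theorem I_pos {P : Prop} (h : P) : I P = 1 := by simp [I, h]
theorem I_neg {P : Prop} (h : ¬ P) : I P = 0 := by simp [I, h]
theorem I_le_one (P : Prop) : I P ≤ 1 := by by_cases h : P <;> simp [I, h]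
theorem I_mono {P Q : Prop} (h : P → Q) : I P ≤ I Q := by
  by_cases hP : P
  · rw [I_pos hP, I_pos (h hP)]
  · rw [I_neg hP]; exact zero_le
theorem I_congr {P Q : Prop} (h : P ↔ Q) : I P = I Q := by rw [propext h]
theorem I_and (P Q : Prop) : I (P ∧ Q) = I P * I Q := by
  by_cases hP : P <;> by_cases hQ : Q <;> simp [I, hP, hQ]
theorem I_mul_le {P : Prop} {a b : ℝ≥0∞} (h : P → a ≤ b) : I P * a ≤ b := by
  by_cases hP : P
  · rw [I_pos hP, one_mul]; exact h hP
  · rw [I_neg hP, zero_mul]; exact zero_le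
theorem I_mul_le_I {P Q : Prop} {a b : ℝ≥0∞} (h : P → Q ∧ a ≤ b) : I P * a ≤ I Q * b :=
  I_mul_le fun hP => by rw [I_pos (h hP).1, one_mul]; exact (h hP).2
theorem I_mul_congr {P : Prop} {a b : ℝ≥0∞} (h : P → a = b) : I P * a = I P * b :=
  le_antisymm (I_mul_le_I fun hP => ⟨hP, (h hP).le⟩) (I_mul_le_I fun hP => ⟨hP, (h hP).ge⟩)
theorem I_split (P : Prop) (a : ℝ≥0∞) : a = I P * a + I (¬ P) * a := by
  by_cases hP : P <;> simp [I, hP]
theorem tsum_I {α : Type*} (a : α) (f : α → ℝ≥0∞) : ∑' x, I (a = x) * f x = f a := by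
  rw [tsum_eq_single a fun x hx => by rw [I_neg (Ne.symm hx), zero_mul], I_pos rfl, one_mul]

variable {V : Type}

/-- weight of a list of steps -/
noncomputable def wt (π : V → ℝ≥0∞) (l : List V) : ℝ≥0∞ := (l.map π).prod

/-- weighted sum over all lists of steps -/
noncomputable def Ex (π : V → ℝ≥0∞) (f : List V → ℝ≥0∞) : ℝ≥0∞ := ∑' l, wt π l * f l

variable {π π' : V → ℝ≥0∞}

theorem wt_nil : wt π [] = 1 := by simp [wt]
theorem wt_append (a b : List V) : wt π (a ++ b) = wt π a * wt π b := by simp [wt]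
theorem wt_mono (h : ∀ e, π e ≤ π' e) (l : List V) : wt π l ≤ wt π' l := by
  induction l with
  | nil => simp [wt]
  | cons e l ih => simp only [wt, List.map_cons, List.prod_cons] at ih ⊢; gcongr; exact h e

theorem Ex_mono' {f g : List V → ℝ≥0∞} (h : ∀ l, wt π l ≠ 0 → f l ≤ g l) : Ex π f ≤ Ex π g :=
  ENNReal.tsum_le_tsum fun l => by
    by_cases h0 : wt π l = 0
    · rw [h0, zero_mul, zero_mul]
    · gcongr; exact h l h0

theorem Ex_mono {f g : List V → ℝ≥0∞} (h : ∀ l, f l ≤ g l) : Ex π f ≤ Ex π g :=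
  Ex_mono' fun l _ => h l

theorem Ex_congr {f g : List V → ℝ≥0∞} (h : ∀ l, f l = g l) : Ex π f = Ex π g := by
  rw [funext h]

theorem Ex_wt (h : ∀ e, π e ≤ π' e) (f : List V → ℝ≥0∞) : Ex π f ≤ Ex π' f :=
  ENNReal.tsum_le_tsum fun l => by gcongr; exact wt_mono h l

theorem Ex_add (f g : List V → ℝ≥0∞) : Ex π (fun l => f l + g l) = Ex π f + Ex π g := by
  simp only [Ex, mul_add, ENNReal.tsum_add]

theorem Ex_cmul (c : ℝ≥0∞) (f : List V → ℝ≥0∞) : Ex π (fun l => c * f l) = c * Ex π f := by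
  simp only [Ex, ← ENNReal.tsum_mul_left, mul_left_comm]

theorem Ex_mulc (c : ℝ≥0∞) (f : List V → ℝ≥0∞) : Ex π (fun l => f l * c) = Ex π f * c := by
  simp only [Ex, ← ENNReal.tsum_mul_right, mul_assoc]

theorem Ex_tsum {ι : Type*} (f : ι → List V → ℝ≥0∞) :
    Ex π (fun l => ∑' i, f i l) = ∑' i, Ex π (f i) := by
  simp only [Ex, ← ENNReal.tsum_mul_left]
  exact ENNReal.tsum_comm

theorem Ex_comm (f : List V → List V → ℝ≥0∞) :
    Ex π (fun a => Ex π' fun b => f a b) = Ex π' fun b => Ex π fun a => f a b := by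
  simp only [Ex, ← ENNReal.tsum_mul_left]
  rw [ENNReal.tsum_comm]
  simp only [mul_left_comm]

theorem Ex_zero : Ex π (fun _ => 0) = 0 := by simp [Ex]

theorem nil_le_Ex (f : List V → ℝ≥0∞) : f [] ≤ Ex π f := by
  have := ENNReal.le_tsum (f := fun l => wt π l * f l) []
  rwa [wt_nil, one_mul] at this

theorem Ex_split (n : ℕ) (F : List V → List V → ℝ≥0∞) :
    Ex π (fun l => I (n ≤ l.length) * F (l.take n) (l.drop n)) =
      Ex π fun a => I (a.length = n) * Ex π fun b => F a b := by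
  have h1 : ∀ a : List V, wt π a * (I (a.length = n) * Ex π fun b => F a b) =
      ∑' b, ∑' l, I (a ++ b = l) * (wt π l * (I (a.length = n) * F a b)) := fun a => by
    simp only [tsum_I, Ex, ← ENNReal.tsum_mul_left, wt_append]
    exact tsum_congr fun b => by ring
  simp only [Ex] at h1 ⊢
  simp only [h1]
  rw [← ENNReal.tsum_prod (f := fun a b => ∑' l, I (a ++ b = l) *
    (wt π l * (I (a.length = n) * F a b))), ENNReal.tsum_comm]
  refine tsum_congr fun l => ?_
  rw [tsum_eq_single (l.take n, l.drop n)]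
  · simp only [List.take_append_drop, I_pos, one_mul, List.length_take]
    rw [I_congr (P := min n l.length = n) (Q := n ≤ l.length) (by omega)]
  · rintro ⟨a, b⟩ hp
    by_cases h2 : a ++ b = l
    · by_cases h3 : a.length = n
      · exact absurd (by rw [← h2, ← h3]; simp) hp
      · simp only [I_neg h3, zero_mul, mul_zero]
    · simp only [I_neg h2, zero_mul]

theorem Ex_cut (F : List V → List V → ℝ≥0∞) :
    Ex π (fun l => ∑' i, I (i ≤ l.length) * F (l.take i) (l.drop i)) =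
      Ex π fun a => Ex π fun b => F a b := by
  rw [Ex_tsum]
  simp only [Ex_split]
  rw [← Ex_tsum]
  exact Ex_congr fun a => tsum_I a.length fun _ => Ex π fun b => F a b

theorem Ex_equiv (σ : List V ≃ List V) (h : ∀ l, wt π (σ l) = wt π l) (f : List V → ℝ≥0∞) :
    Ex π (fun l => f (σ l)) = Ex π f := by
  unfold Ex
  rw [← σ.tsum_eq fun l => wt π l * f l]
  simp only [h]

theorem Ex_rev (f : List V → ℝ≥0∞) : Ex π (fun l => f l.reverse) = Ex π f :=
  Ex_equiv (Function.Involutive.toPerm _ List.reverse_reverse)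
    (fun l => by simp [wt, List.prod_reverse]) f

/-- square-summable kernel with norm at most `N` -/
def L2 (f : V → ℝ≥0∞) (N : ℝ≥0∞) : Prop := ∑' v, f v * f v ≤ N * N

theorem amgm (x y : ℝ≥0∞) : 2 * (x * y) ≤ x * x + y * y := by
  rcases eq_or_ne x ⊤ with rfl | hx
  · simp
  rcases eq_or_ne y ⊤ with rfl | hy
  · simp
  lift x to NNReal using hx
  lift y to NNReal using hy
  norm_cast
  rw [← NNReal.coe_le_coe]
  push_cast
  nlinarith [sq_nonneg ((x : ℝ) - y)]

theorem L2.eq_zero {f : V → ℝ≥0∞} (h : L2 f 0) (v : V) : f v = 0 := by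
  have := (ENNReal.le_tsum (f := fun v => f v * f v) v).trans h
  simpa using this

theorem L2.cs {f g : V → ℝ≥0∞} {a b : ℝ≥0∞} (hf : L2 f a) (hg : L2 g b) :
    ∑' v, f v * g v ≤ a * b := by
  rcases eq_or_ne a 0 with rfl | a0
  · simp [hf.eq_zero]
  rcases eq_or_ne b 0 with rfl | b0
  · simp [hg.eq_zero]
  rcases eq_or_ne a ⊤ with rfl | ha
  · rw [top_mul b0]; exact le_top
  rcases eq_or_ne b ⊤ with rfl | hb
  · rw [mul_top a0]; exact le_top
  have h1 : 2 * (a * b) * ∑' v, f v * g v ≤ 2 * (a * b) * (a * b) := by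
    calc 2 * (a * b) * ∑' v, f v * g v = ∑' v, 2 * ((b * f v) * (a * g v)) := by
          rw [← ENNReal.tsum_mul_left]; exact tsum_congr fun v => by ring
      _ ≤ ∑' v, (b * b * (f v * f v) + a * a * (g v * g v)) :=
          ENNReal.tsum_le_tsum fun v => (amgm _ _).trans (le_of_eq (by ring))
      _ ≤ b * b * (a * a) + a * a * (b * b) := by
          rw [ENNReal.tsum_add, ENNReal.tsum_mul_left, ENNReal.tsum_mul_left]
          exact add_le_add (mul_le_mul' le_rfl hf) (mul_le_mul' le_rfl hg)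
      _ = _ := by ring
  exact (ENNReal.mul_le_mul_iff_right (by simp [a0, b0]) (by finiteness)).1 h1

theorem L2.mono {f g : V → ℝ≥0∞} {a b : ℝ≥0∞} (hf : L2 f a) (h : ∀ v, g v ≤ f v) (hab : a ≤ b) :
    L2 g b :=
  (ENNReal.tsum_le_tsum fun v => mul_le_mul' (h v) (h v)).trans (hf.trans (mul_le_mul' hab hab))

theorem L2.tsum {ι : Type*} {f : ι → V → ℝ≥0∞} {N : ι → ℝ≥0∞} (h : ∀ i, L2 (f i) (N i)) :
    L2 (fun v => ∑' i, f i v) (∑' i, N i) := by
  unfold L2
  simp only [← ENNReal.tsum_mul_right]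
  simp only [← ENNReal.tsum_mul_left]
  rw [ENNReal.tsum_comm]
  refine ENNReal.tsum_le_tsum fun i => ?_
  rw [ENNReal.tsum_comm]
  exact ENNReal.tsum_le_tsum fun j => (h i).cs (h j)

theorem L2.add {f g : V → ℝ≥0∞} {a b : ℝ≥0∞} (hf : L2 f a) (hg : L2 g b) :
    L2 (fun v => f v + g v) (a + b) := by
  have := L2.tsum (f := fun i : Bool => if i then f else g) (N := fun i => if i then a else b)
    fun i => by cases i <;> simpa
  simpa [tsum_fintype] using this

theorem L2.cmul {f : V → ℝ≥0∞} {a : ℝ≥0∞} (hf : L2 f a) (c : ℝ≥0∞) :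
    L2 (fun v => c * f v) (c * a) := by
  unfold L2
  calc ∑' v, c * f v * (c * f v) = c * c * ∑' v, f v * f v := by
        rw [← ENNReal.tsum_mul_left]; exact tsum_congr fun v => by ring
    _ ≤ c * c * (a * a) := mul_le_mul' le_rfl hf
    _ = _ := by ring

theorem L2.equiv {f : V → ℝ≥0∞} {a : ℝ≥0∞} (hf : L2 f a) (σ : V ≃ V) : L2 (fun v => f (σ v)) a := by
  unfold L2
  rw [σ.tsum_eq fun v => f v * f v]
  exact hf

theorem L2.of_sum (f : V → ℝ≥0∞) : L2 f (∑' v, f v) := by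
  unfold L2
  rw [← ENNReal.tsum_mul_right]
  exact ENNReal.tsum_le_tsum fun v => mul_le_mul' le_rfl (ENNReal.le_tsum v)

theorem L2.zero : L2 (fun _ : V => 0) 0 := by simp [L2]

variable [AddCommGroup V]

theorem L2.sub {f : V → ℝ≥0∞} {a : ℝ≥0∞} (hf : L2 f a) (x : V) : L2 (fun v => f (v - x)) a :=
  hf.equiv (Equiv.subRight x)

theorem L2.rsub {f : V → ℝ≥0∞} {a : ℝ≥0∞} (hf : L2 f a) (x : V) : L2 (fun v => f (x - v)) a :=
  hf.equiv (Equiv.subLeft x)

theorem L2.neg {f : V → ℝ≥0∞} {a : ℝ≥0∞} (hf : L2 f a) : L2 (fun v => f (-v)) a :=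
  hf.equiv (Equiv.neg V)

/-- Young's inequality with the first factor given by a sum over lists -/
theorem L2.young {f : V → ℝ≥0∞} {a : ℝ≥0∞} (hf : L2 f a) (ν : List V → ℝ≥0∞) :
    L2 (fun v => Ex π fun l => ν l * f (v - l.sum)) (Ex π ν * a) := by
  have := L2.tsum fun l : List V => (hf.sub l.sum).cmul (wt π l * ν l)
  simpa only [Ex, mul_assoc, ← ENNReal.tsum_mul_right] using this

/-- law of the end point -/
noncomputable def ker (π : V → ℝ≥0∞) (ν : List V → ℝ≥0∞) (v : V) : ℝ≥0∞ :=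
  Ex π fun l => ν l * I (l.sum = v)

theorem Ex_ker (ν : List V → ℝ≥0∞) (φ : V → ℝ≥0∞) :
    Ex π (fun l => ν l * φ l.sum) = ∑' v, ker π ν v * φ v := by
  simp only [ker, ← Ex_mulc, ← Ex_tsum, mul_assoc, ENNReal.tsum_mul_left, tsum_I]

theorem Ex_pair {ν : List V → ℝ≥0∞} {φ : V → ℝ≥0∞} {a b : ℝ≥0∞} (h : L2 (ker π ν) a)
    (hφ : L2 φ b) : Ex π (fun l => ν l * φ l.sum) ≤ a * b := by
  rw [Ex_ker]; exact h.cs hφ

theorem ker_mono {ν ν' : List V → ℝ≥0∞} (h : ∀ l, ν l ≤ ν' l) (v : V) : ker π ν v ≤ ker π ν' v :=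
  Ex_mono fun l => mul_le_mul' (h l) le_rfl

theorem ker_mul (ν : List V → ℝ≥0∞) (φ : V → ℝ≥0∞) (v : V) :
    ker π (fun l => ν l * φ l.sum) v = φ v * ker π ν v := by
  unfold ker
  rw [← Ex_cmul]
  refine Ex_congr fun l => ?_
  by_cases h : l.sum = v
  · rw [I_pos h, ← h]; ring
  · simp [I_neg h]

theorem ker_app (ν ν' : List V → ℝ≥0∞) (v : V) :
    (Ex π fun a => Ex π' fun b => ν a * ν' b * I (a.sum + b.sum = v)) =
      Ex π fun a => ν a * ker π' ν' (v - a.sum) := by
  refine Ex_congr fun a => ?_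
  unfold ker
  rw [← Ex_cmul]
  exact Ex_congr fun b => by
    rw [mul_assoc, I_congr (P := a.sum + b.sum = v) (Q := b.sum = v - a.sum)
      eq_sub_iff_add_eq'.symm]

theorem Ex_neg (hπ : ∀ e, π (-e) = π e) (f : List V → ℝ≥0∞) :
    Ex π (fun l => f (l.map Neg.neg)) = Ex π f :=
  Ex_equiv (Function.Involutive.toPerm (List.map Neg.neg) fun l => by simp)
    (fun l => by simp [wt, Function.comp_def, hπ]) f

theorem SA_rev {l : List V} (h : SA l) : SA l.reverse := by
  have h1 : ∀ i, i ≤ l.length → pos l.reverse i = l.sum - pos l (l.length - i) := fun i hi => by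
    unfold pos
    rw [List.take_reverse, List.sum_reverse, eq_sub_iff_add_eq', ← List.sum_append,
      List.take_append_drop]
  intro i j hi hj e
  rw [List.length_reverse] at hi hj
  rw [h1 i hi, h1 j hj] at e
  have := h _ _ (by omega) (by omega) (sub_right_injective e)
  omega

end Pool.Agent.Lib.BU59
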