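import Pool.Agent.Lib.BU59.Blue

/-! Comparison of two subcritical fugacities. -/

namespace Pool.Agent.Lib.BU59

open Pool.Agent.Lib.BU93 ENNReal

variable {V : Type} [AddCommGroup V] {π π' ω : V → ℝ≥0∞} {B τ ε : ℝ≥0∞} {r k n : ℕ}
  {ℓ : V →+ ℝ} {Λ : ℝ → ℝ≥0∞} {ρ N : ℝ≥0∞} {φ φ' : Set V → ℝ≥0∞}

/-- walks with a marked time at which the fugacity changes -/
noncomputable def W2 (π' π : V → ℝ≥0∞) (F : V → V → ℝ≥0∞) : ℝ≥0∞ :=
  Ex π' fun p => Ex π fun f => I (SA (p ++ f)) * F p.sum f.sum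

theorem W2_eq (F : V → V → ℝ≥0∞) :
    W2 π' π F = Ex π' fun p => I (SA p) * Vv π (ob ∅ p) (F p.sum) := by
  simp only [W2, Vv, ← Ex_cmul, ← ok_empty, ok_append, I_and, mul_assoc]

theorem W2_swap (F : V → V → ℝ≥0∞) : W2 π' π F ≤ W2 π π' fun a b => F b a := by
  unfold W2
  rw [Ex_comm, ← Ex_rev]
  refine Ex_mono fun f => ?_
  rw [← Ex_rev]
  refine Ex_mono fun p => ?_
  rw [List.sum_reverse, List.sum_reverse]
  exact mul_le_mul' (I_mono fun h => by simpa using SA_rev h) le_rfl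

theorem Hyp.side (H : Hyp π ω B τ ε r k n) (h : K ω N φ) {β : V → ℝ≥0∞} {c d : ℝ≥0∞}
    (hβ : ∀ a b, β (a + b) ≤ β a * β b) (hc : Ex π (fun l => I (SA l) * β l.sum) ≤ c)
    (hd : L2 (ker π fun l => I (SA l) * β l.sum * (1 + ω l.sum)) d) :
    Ex π (fun p => I (SA p) * β p.sum * φ (ob ∅ p)) ≤ c * ((1 + d) * N) := by
  obtain ⟨γ, hγ, h⟩ := h.empty
  refine (Ex_mono fun p => mul_le_mul' le_rfl (h p)).trans ?_
  simp only [mul_add, Ex_add]
  rw [Ex_mulc, Ex_mark, add_mul, one_mul, mul_add]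
  refine add_le_add (mul_le_mul' hc le_rfl) (le_trans (Ex_mono fun b => ?_)
    ((Ex_cmul c _).le.trans (mul_le_mul' le_rfl (H.pair hd hγ))))
  rw [← mul_assoc c]
  refine mul_le_mul' (le_trans (Ex_mono fun a => ?_) ((Ex_mulc _ _).le.trans
    (mul_le_mul' hc le_rfl))) le_rfl
  refine I_mul_le fun e => ?_
  rw [I_pos e.left, I_pos e.right, one_mul, one_mul, List.sum_append]
  exact hβ _ _

theorem two_scale (H : Hyp π ω B τ ε r k n) (H' : Hyp π' ω B τ ε r k n) (h : K ω N φ)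
    (h' : K ω N φ') (d : Hd π ℓ Λ ρ φ) (d' : Hd π' ℓ Λ ρ φ') (Λ0 : Λ 0 = 1)
    (hΛ : ∀ a b, Λ (a + b) ≤ Λ a * Λ b) (hc : Ex π' (fun l => I (SA l) * Λ (ℓ l.sum)) ≤ 3 * χ π')
    (hd : L2 (ker π' fun l => I (SA l) * Λ (ℓ l.sum) * (1 + ω l.sum)) (B + 3)) :
    W2 π' π (fun a b => sq ℓ 0 (a + b)) ≤
      (ξ π ℓ + ξ π' ℓ) * W2 π' π (fun _ _ => 1) + χ π * χ π' * ρ * (4 * (B + 4) * N) := by
  have h1 : W2 π' π (fun a _ => sq ℓ 0 a) ≤
      ξ π' ℓ * W2 π' π (fun _ _ => 1) + χ π' * ρ * (χ π * ((1 + (B + 1)) * N)) := by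
    refine (W2_swap _).trans (le_trans ?_ (add_le_add (mul_le_mul' le_rfl (W2_swap _))
      (mul_le_mul' le_rfl (H.side h' (β := fun _ => 1) (by simp) ?_ ?_))))
    · rw [W2_eq, W2_eq, ← Ex_cmul, ← Ex_cmul, ← Ex_add]
      refine Ex_mono fun f => (mul_le_mul' le_rfl (d' (ob ∅ f) 0).1).trans (le_of_eq ?_)
      rw [Vv_const, Λ0]
      simp only [ne_eq, OfNat.ofNat_ne_zero, not_false_eq_true, zero_pow, ofReal_zero, zero_add]
      ring
    · simp only [χ, Vv, ok_empty, le_refl]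
    · simpa only [mul_one] using H.WG
  calc _ ≤ W2 π' π (fun a _ => sq ℓ 0 a) + ξ π ℓ * W2 π' π (fun _ _ => 1) +
        χ π * ρ * Ex π' fun p => I (SA p) * Λ (ℓ p.sum) * φ (ob ∅ p) := by
        rw [W2_eq, W2_eq, W2_eq, ← Ex_cmul, ← Ex_cmul, ← Ex_add, ← Ex_add]
        refine Ex_mono fun p => ?_
        have h2 : (fun b => sq ℓ 0 (p.sum + b)) = sq ℓ (ℓ p.sum) := by
          funext b; simp only [sq, map_add, zero_add]
        rw [h2]
        refine (mul_le_mul' le_rfl (d (ob ∅ p) (ℓ p.sum)).1).trans (le_of_eq ?_)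
        rw [Vv_const, Vv_const (sq ℓ 0 p.sum), sq, zero_add]
        ring
    _ ≤ _ := by
        grw [h1, H'.side h (β := fun v => Λ (ℓ v)) (fun a b => by rw [map_add]; exact hΛ _ _) hc hd]
        calc _ ≤ _ + χ π * χ π' * ρ * (2 * N) := le_self_add
          _ = _ := by ring

omit [AddCommGroup V] in
theorem Ex_sc (t : ℝ≥0∞) (f : List V → ℝ≥0∞) :
    Ex (sc t π) f = Ex π fun l => t ^ l.length * f l := by
  refine tsum_congr fun l => ?_
  have : wt (sc t π) l = t ^ l.length * wt π l := by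
    induction l with
    | nil => simp [wt]
    | cons e l ih =>
      simp only [wt, List.map_cons, List.prod_cons, List.length_cons, sc] at ih ⊢
      rw [ih]; ring
  rw [this]; ring

theorem telescope (t d : ℝ≥0∞) (F : V → ℝ≥0∞) :
    (d + t) * Vv (sc (d + t) π) ∅ F =
      d * W2 (sc (d + t) π) (sc t π) (fun a b => F (a + b)) + t * Vv (sc t π) ∅ F := by
  have h1 := Ex_cut (π := π) fun p f => (d + t) ^ p.length *
    (t ^ f.length * (I (SA (p ++ f)) * F (p.sum + f.sum)))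
  simp only [List.take_append_drop, take_add_drop, Ex_cmul] at h1
  simp only [W2, Vv, Ex_sc, ok_empty]
  rw [← h1, ← Ex_cmul, ← Ex_cmul, ← Ex_cmul, ← Ex_add]
  refine Ex_congr fun l => ?_
  rw [tsum_eq_sum (s := Finset.range (l.length + 1)) fun i hi => by
    rw [I_neg (by simpa using hi), zero_mul], Finset.sum_congr rfl
    (g := fun i => (d + t) ^ i * t ^ (l.length + 1 - 1 - i) * (I (SA l) * F l.sum)) fun i hi => by
      have hi' : i ≤ l.length := by simpa [Nat.lt_succ_iff] using hi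
      rw [I_pos hi', one_mul, List.length_take, min_eq_left hi', List.length_drop, mul_assoc]
      rfl, ← Finset.sum_mul, ← mul_assoc, ← pow_succ',
    ← geom_sum₂_mul_add d t (l.length + 1)]
  ring

theorem moment {t : ℝ≥0∞} (hπ : ∀ e, π (-e) = π e) (hχ : χ π ≠ ⊤)
    (hB : L2 (ker π fun l => I (SA l)) t) (m : ℕ) :
    Ex π (fun l => I (SA l ∧ l.length = m) * sq ℓ 0 l.sum) ≤ t * t * ξ π ℓ := by
  have h0 : χ π ≠ 0 := (zero_lt_one.trans_le one_le_χ).ne'
  have ho : (Ex π fun x => Ex π fun y => I (SA x) * I (SA y) * I (x.sum + y.sum = 0)) ≤ t * t := by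
    rw [ker_app]
    exact Ex_pair (φ := fun u => ker π _ (0 - u)) hB (hB.rsub 0)
  refine (ENNReal.mul_le_mul_iff_right h0 hχ).1 ?_
  rw [mul_left_comm, χ_ξ hχ]
  calc _ ≤ Ex π fun g => I (g.length = m) * (I (Ok ∅ g) * UU π (sq ℓ 0) (sh ∅ g.sum) g.sum) := by
        rw [← Ex_cmul]
        refine Ex_mono fun g => ?_
        have h2 : UU π (sq ℓ 0) (sh ∅ g.sum) g.sum = Vv π ∅ (sq ℓ (ℓ g.sum)) := by
          simp only [UU, sq, map_add, zero_add]
          rfl
        rw [h2, Vv_free hπ hχ, Vv_const, ← χ, mul_left_comm]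
        refine I_mul_le_I fun e => ⟨e.2, ?_⟩
        rw [I_pos (ok_empty.2 e.1), one_mul, sq, zero_add]
        exact mul_le_mul' le_rfl le_self_add
    _ ≤ Ex π fun x => Ex π fun y => I (SA x) * I (SA y) * I (x.sum + y.sum = 0) *
          Vv π ∅ (sq ℓ 0) := by
        rw [loop_id, Ex_comm]
        refine Ex_mono fun x => ?_
        simp only [← Ex_cmul]
        rw [Ex_comm]
        refine Ex_mono fun y => ?_
        have h3 := Ex_split (π := π) (m - x.length) fun p f => I (Ok ∅ (p ++ f)) *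
          (1 * sq ℓ 0 (p ++ f).sum)
        simp only [List.take_append_drop, one_mul] at h3
        refine le_trans ?_ (mul_le_mul' le_rfl (le_trans h3.ge
          (Ex_mono fun l => I_mul_le fun _ => le_rfl)))
        rw [← Ex_cmul]
        refine Ex_mono fun p => I_mul_le fun e => I_mul_le fun e1 => ?_
        rw [I_pos e1.1.1.right, I_pos e1.2.2.1, I_pos e1.2.1, I_pos (by omega), one_mul, one_mul,
          one_mul, one_mul]
        refine Ex_mono fun f => ?_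
        rw [ok_append, List.sum_append]
        exact I_mul_le_I fun e2 => ⟨⟨(ok_append.1 e1.1).1, (ok_union.1 e2).1⟩, le_rfl⟩
    _ ≤ _ := by
        simp only [Ex_mulc]
        exact mul_le_mul' ho le_rfl

theorem ratio {ξ ξ' X X' D E : ℝ≥0∞} (h1 : X' = D + X) (h2 : ξ' * X' ≤ (ξ + ξ') * D + E + ξ * X)
    (ht : ξ' * D ≠ ⊤) : ξ' * X ≤ ξ * X' + E := by
  subst h1
  refine (ENNReal.add_le_add_iff_right ht).1 (le_trans (le_of_eq (by ring)) (h2.trans ?_))
  exact le_of_eq (by ring)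

theorem gronwall {η δ : ℕ → ℝ≥0∞} (hη : ∀ k, η k ≠ ⊤) (hδ : ∑' k, δ k ≠ ⊤)
    (h : ∀ k h, 1 ≤ h → h ≠ ⊤ → (∀ i, i ≤ k + 1 → η i ≤ h) → δ k ≤ 1 →
      η (k + 1) ≤ η k + δ k * h) : ∃ h, h ≠ ⊤ ∧ ∀ k, η k ≤ h := by
  obtain ⟨k0, hk⟩ := ((ENNReal.tendsto_sum_nat_add δ hδ).eventually
    (ge_mem_nhds (show (0 : ℝ≥0∞) < 2⁻¹ by simp))).exists
  set S : ℕ → ℝ≥0∞ := fun K => (Finset.range (K + 1)).sup fun i => max 1 (η i) with hS
  have St : ∀ K, S K ≠ ⊤ := fun K =>
    ((Finset.sup_lt_iff (by simp)).2 fun i _ => max_lt one_lt_top (hη i).lt_top).ne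
  have Sl : ∀ K i, i ≤ K → max 1 (η i) ≤ S K := fun K i hi =>
    Finset.le_sup (f := fun i => max 1 (η i)) (Finset.mem_range.2 (by omega))
  refine ⟨2 * S k0, mul_ne_top (by simp) (St _), fun K => ?_⟩
  have h1 : ∀ m, m + k0 ≤ K → η (m + k0) ≤ S k0 + (∑ i ∈ Finset.range m, δ (i + k0)) * S K := by
    intro m
    induction m with
    | zero => intro _; simpa using (le_max_right _ _).trans (Sl k0 k0 le_rfl)
    | succ m ih =>
      intro hm
      rw [Finset.sum_range_succ, add_mul, ← add_assoc, Nat.succ_add]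
      exact (h _ (S K) ((le_max_left _ _).trans (Sl K 0 (Nat.zero_le _))) (St K)
        (fun i hi => (le_max_right _ _).trans (Sl K i (by omega)))
        ((ENNReal.le_tsum (f := fun i => δ (i + k0)) m).trans (hk.trans (by simp)))).trans
        (add_le_add (ih (by omega)) le_rfl)
  have h2 : S K ≤ S k0 + 2⁻¹ * S K := Finset.sup_le fun i hi => by
    rcases le_total i k0 with h3 | h3
    · exact (Sl k0 i h3).trans le_self_add
    · obtain ⟨m, rfl⟩ := Nat.exists_eq_add_of_le' h3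
      refine max_le ((le_max_left _ _).trans ((Sl k0 0 (Nat.zero_le _)).trans le_self_add))
        ((h1 m (by have := Finset.mem_range.1 hi; omega)).trans (add_le_add le_rfl ?_))
      exact mul_le_mul' ((ENNReal.sum_le_tsum _).trans hk) le_rfl
  refine (le_max_right _ _).trans ((Sl K K le_rfl).trans ((ENNReal.add_le_add_iff_right (St K)).1 ?_))
  have h3 := mul_le_mul' (le_refl (2 : ℝ≥0∞)) h2
  rwa [mul_add, ← mul_assoc, ENNReal.mul_inv_cancel (by simp) (by simp), one_mul, two_mul] at h3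

end Pool.Agent.Lib.BU59
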